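import Mathlib

set_option autoImplicit false

open Finset

namespace Pool.Agent.U28.PG

open Classical in
/-- a set of positive integers that meets the differences of every set of `r + 1` integers has lower density at
least `1 / r` and bounded gaps -/
theorem dense_of_differences (r : ℕ) (D : ℕ → Prop)
    (h : ∀ A : Finset ℕ, A.card = r + 1 → ∃ a ∈ A, ∃ b ∈ A, a < b ∧ D (b - a)) :
    ∃ L : ℕ, (∀ M : ℕ, M ≤ r * ((Icc 1 M).filter D).card + L) ∧ ∀ x : ℕ, ∃ k, x < k ∧ k ≤ x + L ∧ D k := by
  classical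
  have hbd : ∀ A : Finset ℕ, (∀ a ∈ A, ∀ b ∈ A, a < b → ¬ D (b - a)) → A.card ≤ r := by
    intro A hA
    by_contra hc
    obtain ⟨B, hBA, hB⟩ := exists_subset_card_eq (show r + 1 ≤ A.card by omega)
    obtain ⟨a, ha, b, hb, hab, hD⟩ := h B hB
    exact hA a (hBA ha) b (hBA hb) hab hD
  obtain ⟨A, hA, hmax⟩ : ∃ A : Finset ℕ, (∀ a ∈ A, ∀ b ∈ A, a < b → ¬ D (b - a)) ∧
      ∀ B : Finset ℕ, (∀ a ∈ B, ∀ b ∈ B, a < b → ¬ D (b - a)) → B.card ≤ A.card := by
    have hex : ∃ n, ∃ A : Finset ℕ, (∀ a ∈ A, ∀ b ∈ A, a < b → ¬ D (b - a)) ∧ A.card + n = r := by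
      exact ⟨r, ∅, by simp, by simp⟩
    obtain ⟨A, hA1, hA2⟩ := Nat.find_spec hex
    refine ⟨A, hA1, fun B hB => ?_⟩
    by_contra hc
    have h1 := hbd B hB
    have h2 := Nat.find_min hex (m := r - B.card) (by omega)
    exact h2 ⟨B, hB, by omega⟩
  obtain ⟨m0, hm0⟩ : ∃ m0 : ℕ, ∀ a ∈ A, a ≤ m0 := ⟨A.sup id, fun a ha => Finset.le_sup (f := id) ha⟩
  have key : ∀ x, m0 < x → ∃ a ∈ A, D (x - a) := by
    intro x hx
    by_contra hc
    push Not at hc
    have hxA : x ∉ A := fun hxA => by have := hm0 x hxA; omega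
    have h1 := hmax (insert x A) (by
      intro a ha b hb hab
      rw [mem_insert] at ha hb
      rcases hb with rfl | hb
      · rcases ha with rfl | ha
        · omega
        · exact hc a ha
      · rcases ha with rfl | ha
        · have := hm0 b hb; omega
        · exact hA a ha b hb hab)
    rw [card_insert_of_notMem hxA] at h1
    omega
  refine ⟨m0 + 1, fun M => ?_, fun x => ?_⟩
  · have hcov : Ioc m0 M ⊆ A.biUnion (fun a => ((Icc 1 M).filter D).image (fun k => k + a)) := by
      intro x hx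
      rw [mem_Ioc] at hx
      obtain ⟨a, ha, hD⟩ := key x hx.1
      have := hm0 a ha
      rw [mem_biUnion]
      refine ⟨a, ha, mem_image.2 ⟨x - a, mem_filter.2 ⟨mem_Icc.2 ⟨by omega, by omega⟩, hD⟩, by omega⟩⟩
    have h1 := card_le_card hcov
    rw [Nat.card_Ioc] at h1
    have h2 : (A.biUnion (fun a => ((Icc 1 M).filter D).image (fun k => k + a))).card ≤
        A.card * ((Icc 1 M).filter D).card := by
      apply card_biUnion_le_card_mul
      intro a _
      exact card_image_le
    have h3 : A.card * ((Icc 1 M).filter D).card ≤ r * ((Icc 1 M).filter D).card :=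
      Nat.mul_le_mul_right _ (hbd A hA)
    omega
  · obtain ⟨a, ha, hD⟩ := key (x + m0 + 1) (by omega)
    have := hm0 a ha
    exact ⟨x + m0 + 1 - a, by omega, by omega, hD⟩

/-- multiples of the product of the primes up to `r` are admissible -/
theorem adm_mult (r P : ℕ) (hP : ∀ p : ℕ, p.Prime → p ≤ r → p ∣ P) (A : Finset ℕ) (hA : A.card ≤ r) (p : ℕ)
    (hp : p.Prime) : ∃ s : ℕ, ∀ g ∈ A.image (fun k => k * P), ¬ p ∣ s + g := by
  classical
  by_cases hpr : p ≤ r
  · refine ⟨1, fun g hg hd => ?_⟩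
    obtain ⟨k, _, rfl⟩ := mem_image.1 hg
    have h1 : p ∣ k * P := (hP p hp hpr).mul_left k
    exact hp.one_lt.ne' (Nat.dvd_one.1 ((Nat.dvd_add_left h1).1 hd))
  · -- some class is missed
    set B := A.image (fun k => k * P) with hB
    have hBc : B.card < p := by
      have : B.card ≤ A.card := card_image_le
      omega
    obtain ⟨c, hc, hcB⟩ : ∃ c ∈ range p, c ∉ B.image (fun g => g % p) := by
      by_contra hcon
      push Not at hcon
      have h1 : range p ⊆ B.image (fun g => g % p) := hcon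
      have h2 := card_le_card h1
      rw [card_range] at h2
      have h3 : (B.image (fun g => g % p)).card ≤ B.card := card_image_le
      omega
    rw [mem_range] at hc
    refine ⟨p - c, fun g hg hd => hcB (mem_image.2 ⟨g, hg, ?_⟩)⟩
    have h1 : (p - c + g) ≡ 0 [MOD p] := (Nat.modEq_zero_iff_dvd).2 hd
    have h2 : (p - c + g) + c ≡ 0 + c [MOD p] := Nat.ModEq.add_right c h1
    have h3 : (p - c + g) + c = g + p := by omega
    rw [h3, zero_add] at h2
    have h4 : g + p ≡ g [MOD p] := by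
      unfold Nat.ModEq
      simp
    have h5 : g ≡ c [MOD p] := h4.symm.trans h2
    rw [← Nat.mod_eq_of_lt hc]
    exact h5

end Pool.Agent.U28.PG
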