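import Pool.Agent.U28.PG.TR4
import Pool.Agent.Y840.PT.Dense

set_option autoImplicit false

open Finset Filter Topology

namespace Pool.Agent.U28.PG

open Pool.Agent.H378R2 Pool.Agent.H387R2 Pool.Agent.H387R2.MB

/-- `n` is the first of `m` terms of an arithmetic progression in `A` with difference at most `D` -/
def FirstAP (m : ℕ) (D : ℝ) (A : Finset ℕ) (n : ℕ) : Prop :=
  ∃ d : ℕ, 1 ≤ d ∧ (d : ℝ) ≤ D ∧ ∀ j < m, n + j * d ∈ A

lemma AllLengths.mono' {c μ : ℝ} {N : ℕ} {P Q : ℕ → Prop} (hPQ : ∀ n, P n → Q n) (h : AllLengths c μ N P) :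
    AllLengths c μ N Q := by
  classical
  unfold AllLengths at h ⊢
  refine h.trans ?_
  rw [Nat.cast_le]
  apply card_le_card
  intro n hn
  rw [mem_filter] at hn ⊢
  refine ⟨hn.1, fun H h1 h2 => (hn.2 H h1 h2).trans ?_⟩
  rw [Nat.cast_le]
  apply card_le_card
  intro x hx
  rw [mem_filter] at hx ⊢
  exact ⟨hx.1, hPQ x hx.2⟩

set_option maxHeartbeats 4000000 in
open Classical in
/-- **Szemerédi's theorem in all short intervals**, for the dense subsets of the prime tuples of a pattern with shifts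
at most a power of `log N`: the first terms of narrow progressions are as frequent as the prime tuples. -/
theorem ap_transfer (k : ℕ) (hk : 1 ≤ k) (m : ℕ) (hm : 1 ≤ m) {κ0 : ℝ} (hκ0 : 0 < κ0) :
    ∃ κ1 : ℝ, 0 < κ1 ∧ ∃ B : ℕ, ∀ C : ℝ, ∀ᶠ N : ℕ in atTop,
    ∀ T : Finset ℕ, T.card = k + 1 → (∀ t ∈ T, (t : ℝ) ≤ Real.log N ^ C) → 0 < Uni.CT T →
      ∀ A : Finset ℕ, (∀ n ∈ A, 1 ≤ n ∧ n ≤ N ∧ ∀ t ∈ T, (n + t).Prime) →
      κ0 * (Uni.CT T * (N / Real.log N ^ (k + 1))) ≤ (A.card : ℝ) →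
      AllLengths κ1 (Uni.CT T / Real.log N ^ (k + 1)) N (FirstAP m (Real.log N ^ B) A) := by
  obtain ⟨κ1, hκ1, htr⟩ := transfer k hk (κ0 := κ0 / 2) (by positivity)
  obtain ⟨Ct, hCt, htl⟩ := tail k hk
  obtain ⟨c, hc, hCTc⟩ := Pool.Agent.Y840.PT.CT_ge (k + 1)
  set ρ : ℝ := κ0 / (4 * (Ct + 1)) with hρ
  have hρ0 : 0 < ρ := by positivity
  obtain ⟨B, x₀, hone⟩ := Pool.Agent.Y840.PT.one_tuple (k + 1) m (κ0 / 2) ρ (by positivity) hρ0
  refine ⟨κ1, hκ1, B, fun C => ?_⟩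
  have tN : Tendsto (fun N : ℕ => (N : ℝ)) atTop atTop := tendsto_natCast_atTop_atTop
  filter_upwards [htr C, htl C, tN.eventually_ge_atTop x₀,
    tN.eventually (Pool.Agent.Y840.PT.sqrt_small (k + 1) c hc), tN.eventually_ge_atTop 3] with N h1 h2 h3 h4 h5
  intro T hT hTC hCT A hA hAc
  have hN0 : (0:ℝ) < N := by linarith
  have hL0 : 0 < Real.log (N:ℝ) := Real.log_pos (by linarith)
  have hLJ : 0 < Real.log (N:ℝ) ^ (k + 1) := by positivity
  set Y : ℝ := Uni.CT T * (N / Real.log N ^ (k + 1)) with hY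
  have hY0 : 0 < Y := by positivity
  have hsq : Real.sqrt N ≤ Y := by
    refine h4.trans ?_
    rw [hY]
    exact mul_le_mul_of_nonneg_right (hCTc T hT hCT) (by positivity)
  have hPts : ((Pool.Agent.Y840.PT.Pts N T).card : ℝ) ≤ (Ct + 1) * Y := by
    have k1 := h2 T hT hTC hCT N le_rfl
    have k2 : ((Pool.Agent.Y840.PT.Pts N T).card : ℝ) ≤
        (((Icc 1 N).filter (fun n => ∀ t ∈ T, (n + t).Prime)).card : ℝ) := by
      rw [Nat.cast_le]
      apply card_le_card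
      intro n hn
      unfold Pool.Agent.Y840.PT.Pts at hn
      rw [mem_filter, Nat.floor_natCast] at hn
      exact mem_filter.2 hn
    have k3 : Ct * (Uni.CT T * (N / Real.log N ^ (k + 1))) = Ct * Y := rfl
    linarith
  have hAsub : ∀ n ∈ A, n ∈ Pool.Agent.Y840.PT.Pts N T := by
    intro n hn
    obtain ⟨a1, a2, a3⟩ := hA n hn
    unfold Pool.Agent.Y840.PT.Pts
    rw [mem_filter, Nat.floor_natCast, mem_Icc]
    exact ⟨⟨a1, a2⟩, a3⟩
  set A1 := A.filter (FirstAP m (Real.log N ^ B) A) with hA1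
  set U := A.filter (fun n => ¬ FirstAP m (Real.log N ^ B) A n) with hU
  have hsplit : (A.card : ℝ) = A1.card + U.card := by
    rw [hA1, hU, ← Nat.cast_add, card_filter_add_card_filter_not]
  have hUsmall : (U.card : ℝ) < κ0 / 2 * Y := by
    by_contra hcon
    rw [not_lt] at hcon
    have hUsub : U ⊆ Pool.Agent.Y840.PT.Pts N T := fun n hn => hAsub n (mem_filter.1 hn).1
    have q1 : ρ * ((Pool.Agent.Y840.PT.Pts N T).card : ℝ) ≤ U.card := by
      calc ρ * ((Pool.Agent.Y840.PT.Pts N T).card : ℝ) ≤ ρ * ((Ct + 1) * Y) :=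
            mul_le_mul_of_nonneg_left hPts hρ0.le
        _ = κ0 / 4 * Y := by rw [hρ]; field_simp
        _ ≤ κ0 / 2 * Y := by
            apply mul_le_mul_of_nonneg_right _ hY0.le
            linarith
        _ ≤ U.card := hcon
    have q2 : κ0 / 2 * Uni.CT T * (N / Real.log N ^ (k + 1)) ≤ ((Pool.Agent.Y840.PT.Pts N T).card : ℝ) := by
      have e : κ0 / 2 * Uni.CT T * (N / Real.log N ^ (k + 1)) = κ0 / 2 * Y := by rw [hY]; ring
      rw [e]
      refine hcon.trans ?_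
      rw [Nat.cast_le]
      exact card_le_card hUsub
    obtain ⟨a, d, hd1, hd2, hmem⟩ := hone N h3 T hT (card_pos.1 (by omega)) hCT q2 U hUsub q1
    have ha := hmem 0 (by omega)
    rw [zero_mul, add_zero, hU, mem_filter] at ha
    exact ha.2 ⟨d, hd1, hd2, fun j hj => (mem_filter.1 (hmem j hj)).1⟩
  have hA1c : κ0 / 2 * Y ≤ (A1.card : ℝ) := by
    have : κ0 * Y ≤ (A.card : ℝ) := hAc
    linarith
  have key := h1 T hT hTC hCT (fun n => n ∈ A1) (by
    refine hA1c.trans ?_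
    rw [Nat.cast_le]
    apply card_le_card
    intro n hn
    obtain ⟨a1, a2, a3⟩ := hA n (mem_filter.1 hn).1
    simp only [mem_filter, mem_Icc]
    exact ⟨⟨a1, a2⟩, hn, a3⟩)
  exact AllLengths.mono' (fun n hn => (mem_filter.1 hn).2) key

end Pool.Agent.U28.PG
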