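import Pool.Agent.U28.PG.TR4
import Pool.Agent.Y877.RgM

set_option autoImplicit false

open Finset Filter Topology

namespace Pool.Agent.U28.PG

open Pool.Agent.H378R2 Pool.Agent.H387R2 Pool.Agent.H387R2.MB Pool.Agent.Y877.RO

/-- `p` and `p + d` are consecutive primes -/
def NextP (d p : ℕ) : Prop := p.Prime ∧ (p + d).Prime ∧ ∀ q, p < q → q < p + d → ¬ q.Prime

open Classical in
/-- in all short intervals at a positive proportion of places -/
def EvG (κ : ℝ) (x d : ℕ) : Prop :=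
  κ * x ≤ (((range (x + 1)).filter (fun n => ∀ H : ℕ, H ≤ x →
    ⌊κ * (Sd d * H / Real.log x ^ 2)⌋₊ ≤ ((Ioc n (n + H)).filter (NextP d)).card)).card : ℝ)

open Classical in
/-- from the count of a gap to all short intervals -/
theorem gap_transfer {κ0 : ℝ} (hκ0 : 0 < κ0) : ∃ κ : ℝ, 0 < κ ∧ ∀ C : ℝ, ∀ᶠ x : ℕ in atTop, ∀ d : ℕ, 1 ≤ d → 2 ∣ d →
    (d : ℝ) ≤ Real.log x ^ C → GoodG κ0 x d → EvG κ x d := by
  obtain ⟨κ1, hκ1, h⟩ := transfer 1 le_rfl hκ0
  have hc2 := CT2_pos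
  refine ⟨min κ1 (min (Uni.CT (pp 2)) (κ1 * Uni.CT (pp 2))), by positivity, fun C => ?_⟩
  set κ := min κ1 (min (Uni.CT (pp 2)) (κ1 * Uni.CT (pp 2))) with hκ
  have hκ0' : 0 < κ := by positivity
  have b1 : κ ≤ κ1 := min_le_left _ _
  have b2 : κ ≤ Uni.CT (pp 2) := (min_le_right _ _).trans (min_le_left _ _)
  have b3 : κ ≤ κ1 * Uni.CT (pp 2) := (min_le_right _ _).trans (min_le_right _ _)
  have tN : Tendsto (fun N : ℕ => (N : ℝ)) atTop atTop := tendsto_natCast_atTop_atTop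
  have tL : Tendsto (fun N : ℕ => Real.log (N : ℝ)) atTop atTop := Real.tendsto_log_atTop.comp tN
  filter_upwards [h C, tL.eventually_ge_atTop 1] with x hx hL
  intro d hd1 hd2 hdC hgood
  have hS := Sd_pos d
  have hCT : Uni.CT (pp d) = Uni.CT (pp 2) * Sd d := CT_pp d hd1 hd2
  have hCT0 : 0 < Uni.CT (pp d) := by rw [hCT]; positivity
  have hL0 : 0 < Real.log (x:ℝ) := by linarith
  have hL2 : 0 < Real.log (x:ℝ) ^ 2 := by positivity
  have key := hx (pp d) (pp_card d hd1) (by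
    intro t ht
    unfold pp at ht
    rw [mem_insert, mem_singleton] at ht
    rcases ht with rfl | rfl
    · push_cast
      exact Real.rpow_nonneg hL0.le _
    · exact hdC) hCT0 (NextP d) (by
      unfold GoodG at hgood
      refine le_trans (le_of_eq (by ring)) (hgood.trans ?_)
      unfold gapc
      rw [Nat.cast_le]
      apply card_le_card
      intro p hp
      rw [mem_filter] at hp ⊢
      refine ⟨hp.1, hp.2, fun t ht => ?_⟩
      unfold pp at ht
      rw [mem_insert, mem_singleton] at ht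
      rcases ht with rfl | rfl
      · rw [add_zero]; exact hp.2.1
      · exact hp.2.2.1)
  unfold AllLengths at key
  unfold EvG
  refine (mul_le_mul_of_nonneg_right b1 (Nat.cast_nonneg x)).trans (key.trans ?_)
  rw [Nat.cast_le]
  apply card_le_card
  intro n hn
  rw [mem_filter] at hn ⊢
  refine ⟨hn.1, fun H hH => ?_⟩
  by_cases hc : κ * (Sd d * H / Real.log x ^ 2) < 1
  · rw [Nat.floor_eq_zero.2 hc]
    exact Nat.zero_le _
  · rw [not_lt] at hc
    have hnn : 0 ≤ Sd d * H / Real.log x ^ 2 := by positivity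
    have e : Uni.CT (pp d) / Real.log x ^ (1 + 1) * H = Uni.CT (pp 2) * (Sd d * H / Real.log x ^ 2) := by
      rw [hCT]; ring
    have h1 := hn.2 H (by
      rw [e]
      exact hc.trans (mul_le_mul_of_nonneg_right b2 hnn)) hH
    rw [e] at h1
    have h2 : κ * (Sd d * H / Real.log x ^ 2) ≤ (((Ioc n (n + H)).filter (NextP d)).card : ℝ) := by
      refine le_trans ?_ h1
      rw [← mul_assoc]
      exact mul_le_mul_of_nonneg_right b3 hnn
    exact Nat.floor_le_of_le h2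

open Classical in
/-- connected sets of multipliers, in all short intervals -/
theorem gaps_everywhere (M : ℕ) (hM : 1 ≤ M) (m : Fin (4 * M) → ℕ) (hm : Function.Injective m) (bb : ℕ) (hbb : 1 ≤ bb)
    (hadm : ∀ p : ℕ, p.Prime → ∃ r : ℕ, ∀ i, ¬ bb * m i ≡ r [MOD p]) : ∃ l1 : ℝ, 0 < l1 ∧
    ∀ ε lam : ℝ, 0 < ε → 0 < lam → ∃ κ : ℝ, 0 < κ ∧ ∀ᶠ x : ℕ in atTop, ∀ H u : ℕ, lam * Real.log x ≤ H →
    ((u : ℝ) + H ≤ l1 * Real.log x) →
    (1 - ε) * (H : ℝ) ≤ (((Ioc u (u + H)).filter (fun k => ∃ I : Finset (Fin (4 * M)), M ≤ I.card ∧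
      ∀ J ⊆ I, J.Nonempty → J ≠ I → ∃ i ∈ J, ∃ j ∈ I, j ∉ J ∧
        EvG κ x (bb * Nat.dist (m i) (m j) * k))).card : ℝ) := by
  have hadm' : ∀ p : ℕ, p.Prime → ∃ r : ℕ, r < p ∧ ∀ i, bb * m i % p ≠ r := by
    intro p hp
    obtain ⟨r, hr⟩ := hadm p hp
    refine ⟨r % p, Nat.mod_lt _ hp.pos, fun i h => hr i ?_⟩
    exact h
  obtain ⟨l1, hl1, hmain⟩ := gapsRO M hM m hm bb hbb hadm'
  refine ⟨l1, hl1, fun ε lam hε hlam => ?_⟩
  obtain ⟨κ0, hκ0, h⟩ := hmain ε lam hε hlam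
  obtain ⟨κ, hκ, htr⟩ := gap_transfer hκ0
  obtain ⟨mx, hmx⟩ : ∃ mx : ℕ, ∀ i, m i ≤ mx := ⟨∑ i, m i, fun i =>
    single_le_sum (f := m) (fun _ _ => Nat.zero_le _) (mem_univ i)⟩
  have tN : Tendsto (fun N : ℕ => (N : ℝ)) atTop atTop := tendsto_natCast_atTop_atTop
  have tL : Tendsto (fun N : ℕ => Real.log (N : ℝ)) atTop atTop := Real.tendsto_log_atTop.comp tN
  refine ⟨κ, hκ, ?_⟩
  filter_upwards [h, htr ((2 : ℕ) : ℝ), tL.eventually_ge_atTop (bb * mx * l1 + 1)] with x hx htr hL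
  intro H u hH hu
  refine (hx H u hH hu).trans ?_
  rw [Nat.cast_le]
  apply card_le_card
  intro k hk
  rw [mem_filter] at hk ⊢
  obtain ⟨hk1, I, hI, hgood⟩ := hk
  have hkpos : 1 ≤ k := by
    have := (mem_Ioc.1 hk1).1
    omega
  have hkle : (k:ℝ) ≤ l1 * Real.log x := by
    have := (mem_Ioc.1 hk1).2
    have h2 : (k:ℝ) ≤ u + H := by exact_mod_cast this
    linarith
  refine ⟨hk1, I, hI, fun J hJ hne hJI => ?_⟩
  obtain ⟨i, hi, j, hj, hjJ, hg⟩ := hgood J hJ hne hJI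
  refine ⟨i, hi, j, hj, hjJ, ?_⟩
  have hij : m i ≠ m j := by
    intro h
    rw [hm h] at hi
    exact hjJ hi
  obtain ⟨t, ht⟩ : ∃ t, t = bb * Nat.dist (m i) (m j) * k := ⟨_, rfl⟩
  rw [← ht] at hg ⊢
  have hd : 1 ≤ Nat.dist (m i) (m j) := Nat.dist_pos_of_ne hij
  have hdmx : Nat.dist (m i) (m j) ≤ mx := by
    have h1 := hmx i
    have h2 := hmx j
    rcases le_total (m i) (m j) with h5 | h5
    · rw [Nat.dist_eq_sub_of_le h5]; omega
    · rw [Nat.dist_eq_sub_of_le_right h5]; omega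
  have ht1 : 1 ≤ t := by
    rw [ht]
    exact Nat.mul_pos (Nat.mul_pos hbb hd) hkpos
  have ht2 : 2 ∣ t := by
    rw [ht]
    apply Dvd.dvd.mul_right
    obtain ⟨r, hr, hmr⟩ := hadm' 2 Nat.prime_two
    have h3 := hmr i
    have h4 := hmr j
    rcases le_total (m i) (m j) with h5 | h5
    · rw [Nat.dist_eq_sub_of_le h5, Nat.mul_sub]
      have h6 : bb * m i ≤ bb * m j := Nat.mul_le_mul_left _ h5
      omega
    · rw [Nat.dist_eq_sub_of_le_right h5, Nat.mul_sub]
      have h6 : bb * m j ≤ bb * m i := Nat.mul_le_mul_left _ h5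
      omega
  refine htr t ht1 ht2 ?_ hg
  rw [Real.rpow_natCast, ht]
  push_cast
  have q0 : (0:ℝ) ≤ bb * mx * l1 := by positivity
  have q1 : ((Nat.dist (m i) (m j) : ℕ) : ℝ) ≤ mx := by exact_mod_cast hdmx
  have hL0 : 0 ≤ Real.log (x:ℝ) := by linarith
  calc (bb:ℝ) * (Nat.dist (m i) (m j) : ℕ) * k ≤ bb * mx * (l1 * Real.log x) := by gcongr
    _ = (bb * mx * l1) * Real.log x := by ring
    _ ≤ Real.log x * Real.log x := mul_le_mul_of_nonneg_right (by linarith) hL0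
    _ = Real.log x ^ 2 := by ring

lemma adm210 (p : ℕ) (hp : p.Prime) : ∃ r : ℕ, ∀ i : Fin (4 * 2), ¬ 210 * (i : ℕ) ≡ r [MOD p] := by
  by_cases h7 : p ≤ 7
  · refine ⟨1, fun i h => ?_⟩
    have hpd : p ∣ 210 := by
      have h2 := hp.two_le
      interval_cases p
      · norm_num
      · norm_num
      · exact absurd hp (by norm_num)
      · norm_num
      · exact absurd hp (by norm_num)
      · norm_num
    have h1 : 210 * (i : ℕ) ≡ 0 [MOD p] := (Nat.modEq_zero_iff_dvd).2 (hpd.mul_right _)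
    have h2 : 0 ≡ 1 [MOD p] := h1.symm.trans h
    have h3 : p ∣ 1 := (Nat.modEq_zero_iff_dvd).1 h2.symm
    exact hp.one_lt.ne' (Nat.dvd_one.1 h3)
  · by_contra hcon
    push Not at hcon
    have h1 : range p ⊆ (univ : Finset (Fin (4 * 2))).image (fun i : Fin (4 * 2) => 210 * (i : ℕ) % p) := by
      intro r hr
      obtain ⟨i, hi⟩ := hcon r
      refine mem_image.2 ⟨i, mem_univ _, ?_⟩
      rw [mem_range] at hr
      rw [← Nat.mod_eq_of_lt hr]
      exact hi
    have h2 := card_le_card h1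
    rw [card_range] at h2
    have h3 : ((univ : Finset (Fin (4 * 2))).image (fun i : Fin (4 * 2) => 210 * (i : ℕ) % p)).card ≤ 8 := by
      refine card_image_le.trans ?_
      simp
    have h8 : p = 8 := by omega
    rw [h8] at hp
    exact absurd hp (by norm_num)

open Classical in
/-- a positive proportion of the even numbers up to a multiple of the logarithm -/
theorem many_gaps_everywhere : ∃ l c κ : ℝ, 0 < l ∧ 0 < c ∧ 0 < κ ∧ ∀ᶠ x : ℕ in atTop,
    c * Real.log x ≤ (((Icc 1 ⌊l * Real.log x⌋₊).filter (fun d => 2 ∣ d ∧ EvG κ x d)).card : ℝ) := by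
  obtain ⟨l1, hl1, h⟩ := gaps_everywhere 2 (by norm_num) (fun i : Fin (4 * 2) => (i : ℕ)) Fin.val_injective 210
    (by norm_num) adm210
  obtain ⟨κ, hκ, h⟩ := h (1 / 2) (l1 / 4) (by norm_num) (by positivity)
  refine ⟨735 * l1, l1 / 56, κ, by positivity, by positivity, hκ, ?_⟩
  have tN : Tendsto (fun N : ℕ => (N : ℝ)) atTop atTop := tendsto_natCast_atTop_atTop
  have tL : Tendsto (fun N : ℕ => Real.log (N : ℝ)) atTop atTop := Real.tendsto_log_atTop.comp tN
  filter_upwards [h, tL.eventually_ge_atTop (4 / l1)] with x hx hL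
  have hL0 : 0 < Real.log (x:ℝ) := lt_of_lt_of_le (by positivity) hL
  have h4 : 4 ≤ l1 * Real.log x := by
    rw [div_le_iff₀ hl1] at hL
    linarith
  set H := ⌊l1 / 2 * Real.log x⌋₊ with hH
  have e1 : (H:ℝ) ≤ l1 / 2 * Real.log x := Nat.floor_le (by positivity)
  have e2 : l1 / 2 * Real.log x < H + 1 := Nat.lt_floor_add_one _
  have e3 : l1 / 4 * Real.log x ≤ H := by linarith
  have hK := hx H 0 e3 (by push_cast; nlinarith)
  set K := (Ioc 0 (0 + H)).filter (fun k => ∃ I : Finset (Fin (4 * 2)), 2 ≤ I.card ∧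
      ∀ J ⊆ I, J.Nonempty → J ≠ I → ∃ i ∈ J, ∃ j ∈ I, j ∉ J ∧
        EvG κ x (210 * Nat.dist (i : ℕ) (j : ℕ) * k)) with hKd
  set D := (Icc 1 ⌊735 * l1 * Real.log x⌋₊).filter (fun d => 2 ∣ d ∧ EvG κ x d) with hD
  have hcov : K ⊆ (Icc 1 7).biUnion (fun t => (Icc 1 H).filter (fun k => 210 * t * k ∈ D)) := by
    intro k hk
    rw [hKd, mem_filter, mem_Ioc] at hk
    obtain ⟨⟨hk1, hk2⟩, I, hI, hgood⟩ := hk
    have hne : I.Nonempty := card_pos.1 (by omega)
    obtain ⟨i0, hi0⟩ := hne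
    obtain ⟨i, hi, j, hj, hjJ, hg⟩ := hgood {i0} (by simpa using hi0) (by simp) (by
      intro hcon
      rw [← hcon] at hI
      simp at hI)
    rw [mem_singleton] at hi
    subst hi
    have hij : (i : ℕ) ≠ (j : ℕ) := by
      intro hcon
      apply hjJ
      rw [mem_singleton]
      exact (Fin.ext hcon).symm
    have hi8 := i.2
    have hj8 := j.2
    have hd1 : 1 ≤ Nat.dist (i : ℕ) (j : ℕ) := Nat.dist_pos_of_ne hij
    have hd7 : Nat.dist (i : ℕ) (j : ℕ) ≤ 7 := by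
      rcases le_total (i : ℕ) (j : ℕ) with h5 | h5
      · rw [Nat.dist_eq_sub_of_le h5]; omega
      · rw [Nat.dist_eq_sub_of_le_right h5]; omega
    rw [mem_biUnion]
    refine ⟨Nat.dist (i : ℕ) (j : ℕ), mem_Icc.2 ⟨hd1, hd7⟩, mem_filter.2 ⟨mem_Icc.2 ⟨by omega, by omega⟩, ?_⟩⟩
    rw [hD, mem_filter, mem_Icc]
    refine ⟨⟨Nat.mul_pos (Nat.mul_pos (by norm_num) hd1) (by omega), ?_⟩,
      Dvd.dvd.mul_right (Dvd.dvd.mul_right (by norm_num) _) _, hg⟩
    apply Nat.le_floor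
    have q1 : 210 * Nat.dist (i : ℕ) (j : ℕ) * k ≤ 1470 * H := by
      have : 210 * Nat.dist (i : ℕ) (j : ℕ) ≤ 1470 := by omega
      exact Nat.mul_le_mul this (by omega)
    have q2 : ((210 * Nat.dist (i : ℕ) (j : ℕ) * k : ℕ) : ℝ) ≤ 1470 * H := by exact_mod_cast q1
    linarith
  have hcard : K.card ≤ 7 * D.card := by
    refine (card_le_card hcov).trans ?_
    have h1 : ((Icc 1 7).biUnion (fun t => (Icc 1 H).filter (fun k => 210 * t * k ∈ D))).card ≤
        (Icc 1 7).card * D.card := by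
      apply card_biUnion_le_card_mul
      intro t ht
      rw [mem_Icc] at ht
      apply card_le_card_of_injOn (fun k => 210 * t * k)
      · intro k hk
        exact (mem_filter.1 hk).2
      · intro k _ k' _ hkk
        have : 0 < 210 * t := by omega
        exact Nat.eq_of_mul_eq_mul_left this hkk
    rw [Nat.card_Icc] at h1
    exact h1
  have hcard' : (K.card : ℝ) ≤ 7 * D.card := by exact_mod_cast hcard
  have hK' : (1 - 1 / 2) * (H : ℝ) ≤ (K.card : ℝ) := hK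
  linarith

end Pool.Agent.U28.PG
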