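import Pool.Agent.U28.PG.AP1
import Pool.Agent.U28.PG.GapT

set_option autoImplicit false

open Finset Filter Topology

namespace Pool.Agent.U28.PG

open Pool.Agent.H378R2 Pool.Agent.H387R2 Pool.Agent.H387R2.MB Pool.Agent.Y877.RO

open Classical in
/-- many gaps of the right order -/
theorem many_good : ∃ l c κ : ℝ, 0 < l ∧ 0 < c ∧ 0 < κ ∧ ∀ᶠ x : ℕ in atTop,
    c * Real.log x ≤ (((Icc 1 ⌊l * Real.log x⌋₊).filter (fun d => 2 ∣ d ∧ GoodG κ x d)).card : ℝ) := by
  obtain ⟨l1, hl1, h⟩ := gapsRO 2 (by norm_num) (fun i : Fin (4 * 2) => (i : ℕ)) Fin.val_injective 210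
    (by norm_num) (by
      intro p hp
      obtain ⟨r, hr⟩ := adm210 p hp
      exact ⟨r % p, Nat.mod_lt _ hp.pos, fun i h => hr i h⟩)
  obtain ⟨κ, hκ, h⟩ := h (1 / 2) (l1 / 4) (by norm_num) (by positivity)
  refine ⟨735 * l1, l1 / 56, κ, by positivity, by positivity, hκ, ?_⟩
  have tN : Tendsto (fun N : ℕ => (N : ℝ)) atTop atTop := tendsto_natCast_atTop_atTop
  have tL : Tendsto (fun N : ℕ => Real.log (N : ℝ)) atTop atTop := Real.tendsto_log_atTop.comp tN
  filter_upwards [h, tL.eventually_ge_atTop (4 / l1)] with x hx hL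
  have hL0 : 0 < Real.log (x:ℝ) := lt_of_lt_of_le (by positivity) hL
  have h4 : 4 ≤ l1 * Real.log x := by
    rw [div_le_iff₀ hl1] at hL
    linarith
  set H := ⌊l1 / 2 * Real.log x⌋₊ with hH
  have e1 : (H:ℝ) ≤ l1 / 2 * Real.log x := Nat.floor_le (by positivity)
  have e2 : l1 / 2 * Real.log x < H + 1 := Nat.lt_floor_add_one _
  have e3 : l1 / 4 * Real.log x ≤ H := by linarith
  have hK := hx H 0 e3 (by push_cast; nlinarith)
  set K := (Ioc 0 (0 + H)).filter (fun k => ∃ I : Finset (Fin (4 * 2)), 2 ≤ I.card ∧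
      ∀ J ⊆ I, J.Nonempty → J ≠ I → ∃ i ∈ J, ∃ j ∈ I, j ∉ J ∧
        GoodG κ x (210 * Nat.dist (i : ℕ) (j : ℕ) * k)) with hKd
  set D := (Icc 1 ⌊735 * l1 * Real.log x⌋₊).filter (fun d => 2 ∣ d ∧ GoodG κ x d) with hD
  have hcov : K ⊆ (Icc 1 7).biUnion (fun t => (Icc 1 H).filter (fun k => 210 * t * k ∈ D)) := by
    intro k hk
    rw [hKd, mem_filter, mem_Ioc] at hk
    obtain ⟨⟨hk1, hk2⟩, I, hI, hgood⟩ := hk
    have hne : I.Nonempty := card_pos.1 (by omega)
    obtain ⟨i0, hi0⟩ := hne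
    obtain ⟨i, hi, j, hj, hjJ, hg⟩ := hgood {i0} (by simpa using hi0) (by simp) (by
      intro hcon
      rw [← hcon] at hI
      simp at hI)
    rw [mem_singleton] at hi
    subst hi
    have hij : (i : ℕ) ≠ (j : ℕ) := by
      intro hcon
      apply hjJ
      rw [mem_singleton]
      exact (Fin.ext hcon).symm
    have hi8 := i.2
    have hj8 := j.2
    have hd1 : 1 ≤ Nat.dist (i : ℕ) (j : ℕ) := Nat.dist_pos_of_ne hij
    have hd7 : Nat.dist (i : ℕ) (j : ℕ) ≤ 7 := by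
      rcases le_total (i : ℕ) (j : ℕ) with h5 | h5
      · rw [Nat.dist_eq_sub_of_le h5]; omega
      · rw [Nat.dist_eq_sub_of_le_right h5]; omega
    rw [mem_biUnion]
    refine ⟨Nat.dist (i : ℕ) (j : ℕ), mem_Icc.2 ⟨hd1, hd7⟩, mem_filter.2 ⟨mem_Icc.2 ⟨by omega, by omega⟩, ?_⟩⟩
    rw [hD, mem_filter, mem_Icc]
    refine ⟨⟨Nat.mul_pos (Nat.mul_pos (by norm_num) hd1) (by omega), ?_⟩,
      Dvd.dvd.mul_right (Dvd.dvd.mul_right (by norm_num) _) _, hg⟩
    apply Nat.le_floor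
    have q1 : 210 * Nat.dist (i : ℕ) (j : ℕ) * k ≤ 1470 * H := by
      have : 210 * Nat.dist (i : ℕ) (j : ℕ) ≤ 1470 := by omega
      exact Nat.mul_le_mul this (by omega)
    have q2 : ((210 * Nat.dist (i : ℕ) (j : ℕ) * k : ℕ) : ℝ) ≤ 1470 * H := by exact_mod_cast q1
    linarith
  have hcard : K.card ≤ 7 * D.card := by
    refine (card_le_card hcov).trans ?_
    have h1 : ((Icc 1 7).biUnion (fun t => (Icc 1 H).filter (fun k => 210 * t * k ∈ D))).card ≤
        (Icc 1 7).card * D.card := by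
      apply card_biUnion_le_card_mul
      intro t ht
      rw [mem_Icc] at ht
      apply card_le_card_of_injOn (fun k => 210 * t * k)
      · intro k hk
        exact (mem_filter.1 hk).2
      · intro k _ k' _ hkk
        have : 0 < 210 * t := by omega
        exact Nat.eq_of_mul_eq_mul_left this hkk
    rw [Nat.card_Icc] at h1
    exact h1
  have hcard' : (K.card : ℝ) ≤ 7 * D.card := by exact_mod_cast hcard
  have hK' : (1 - 1 / 2) * (H : ℝ) ≤ (K.card : ℝ) := hK
  linarith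

open Classical in
/-- the primes up to `x` with the next gap `d` -/
noncomputable def GapsTo (d x : ℕ) : Finset ℕ := (Icc 1 x).filter (NextP d)

open Classical in
/-- progressions of primes with the same next gap in all short intervals -/
theorem gap_progressions : ∃ l c : ℝ, 0 < l ∧ 0 < c ∧ ∀ m : ℕ, 1 ≤ m → ∃ κ : ℝ, 0 < κ ∧ ∃ B : ℕ,
    ∀ᶠ x : ℕ in atTop, c * Real.log x ≤ (((Icc 1 ⌊l * Real.log x⌋₊).filter (fun d => 2 ∣ d ∧
      AllLengths κ (Uni.CT {0, d} / Real.log x ^ 2) x (FirstAP m (Real.log x ^ B) (GapsTo d x)))).card : ℝ) := by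
  obtain ⟨l, c, κ0, hl, hc, hκ0, h⟩ := many_good
  refine ⟨l, c, hl, hc, fun m hm => ?_⟩
  obtain ⟨κ, hκ, B, hap⟩ := ap_transfer 1 le_rfl m hm hκ0
  refine ⟨κ, hκ, B, ?_⟩
  have tN : Tendsto (fun N : ℕ => (N : ℝ)) atTop atTop := tendsto_natCast_atTop_atTop
  have tL : Tendsto (fun N : ℕ => Real.log (N : ℝ)) atTop atTop := Real.tendsto_log_atTop.comp tN
  filter_upwards [h, hap ((2 : ℕ) : ℝ), tL.eventually_ge_atTop (l + 1)] with x hx hap hL
  refine hx.trans ?_
  rw [Nat.cast_le]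
  apply card_le_card
  intro d hd
  rw [mem_filter, mem_Icc] at hd ⊢
  obtain ⟨⟨hd1, hd2⟩, hd3, hg⟩ := hd
  refine ⟨⟨hd1, hd2⟩, hd3, ?_⟩
  have hL0 : 0 < Real.log (x:ℝ) := by linarith
  have hdr : (d:ℝ) ≤ l * Real.log x := (Nat.cast_le.2 hd2).trans (Nat.floor_le (by positivity))
  have hCT : Uni.CT (pp d) = Uni.CT (pp 2) * Sd d := CT_pp d hd1 hd3
  have hCT0 : 0 < Uni.CT (pp d) := by
    rw [hCT]
    exact mul_pos CT2_pos (Sd_pos d)
  have key := hap (pp d) (pp_card d hd1) (by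
    intro t ht
    unfold pp at ht
    rw [mem_insert, mem_singleton] at ht
    rcases ht with rfl | rfl
    · push_cast
      exact Real.rpow_nonneg hL0.le _
    · rw [Real.rpow_natCast]
      calc (t:ℝ) ≤ l * Real.log x := hdr
        _ ≤ Real.log x * Real.log x := mul_le_mul_of_nonneg_right (by linarith) hL0.le
        _ = Real.log x ^ 2 := by ring) hCT0 (GapsTo d x) (by
    intro n hn
    unfold GapsTo at hn
    rw [mem_filter, mem_Icc] at hn
    refine ⟨hn.1.1, hn.1.2, fun t ht => ?_⟩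
    unfold pp at ht
    rw [mem_insert, mem_singleton] at ht
    rcases ht with rfl | rfl
    · rw [add_zero]; exact hn.2.1
    · exact hn.2.2.1) (by
    unfold GoodG gapc at hg
    refine le_trans (le_of_eq (by ring)) (hg.trans ?_)
    rw [Nat.cast_le]
    apply card_le_card
    intro p hp
    unfold GapsTo
    rw [mem_filter] at hp ⊢
    exact hp)
  exact key

end Pool.Agent.U28.PG
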