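import Mathlib

set_option autoImplicit false

open Finset

namespace Pool.Agent.U28.PG

/-- a set whose elements have few right neighbours (in a larger set `A`) is sparse -/
lemma sparse_card (A : ℕ → Prop) [DecidablePred A] (G : Finset ℕ) (H : ℕ) (R : ℝ) (hR : 0 ≤ R)
    (hA : ∀ n ∈ G, A n)
    (hr : ∀ n ∈ G, (((Icc 1 H).filter (fun d => A (n + d))).card : ℝ) ≤ R) (a : ℕ) :
    ((G.filter (fun n => n ∈ Ioc a (a + H))).card : ℝ) ≤ R + 1 := by
  classical
  set G' := G.filter (fun n => n ∈ Ioc a (a + H)) with hG'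
  rcases G'.eq_empty_or_nonempty with h | h
  · rw [h]
    simp only [card_empty, Nat.cast_zero]
    linarith
  · set m := G'.min' h with hm
    have hmG : m ∈ G' := min'_mem _ _
    have hmG2 := mem_filter.1 hmG
    have h1 : (G'.erase m).card ≤ ((Icc 1 H).filter (fun d => A (m + d))).card := by
      apply card_le_card_of_injOn (fun n => n - m)
      · intro n hn
        rw [mem_coe, mem_erase] at hn
        have hn2 := mem_filter.1 hn.2
        have hle : m ≤ n := min'_le _ _ hn.2
        have hlt : m < n := lt_of_le_of_ne hle (Ne.symm hn.1)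
        rw [mem_coe, mem_filter, mem_Icc]
        have h3 := mem_Ioc.1 hn2.2
        have h4 := mem_Ioc.1 hmG2.2
        refine ⟨⟨by simp only; omega, by simp only; omega⟩, ?_⟩
        simp only
        rw [show m + (n - m) = n by omega]
        exact hA n hn2.1
      · intro n hn n' hn' he
        rw [mem_coe, mem_erase] at hn hn'
        have h3 : m ≤ n := min'_le _ _ hn.2
        have h4 : m ≤ n' := min'_le _ _ hn'.2
        simp only at he
        omega
    have h2 := hr m hmG2.1
    have h3 : G'.card = (G'.erase m).card + 1 := by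
      rw [card_erase_of_mem hmG]
      have : 0 < G'.card := card_pos.2 h
      omega
    rw [h3]
    push_cast
    have h4 : ((G'.erase m).card : ℝ) ≤ (((Icc 1 H).filter (fun d => A (m + d))).card : ℝ) := by
      exact_mod_cast h1
    linarith

/-- longer intervals -/
lemma long_card (G : Finset ℕ) (H0 : ℕ) (hH0 : 1 ≤ H0) (R : ℝ)
    (hG : ∀ a, ((G.filter (fun n => n ∈ Ioc a (a + H0))).card : ℝ) ≤ R) (a H : ℕ) :
    ((G.filter (fun n => n ∈ Ioc a (a + H))).card : ℝ) ≤ ((H / H0 : ℕ) + 1) * R := by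
  classical
  have h1 : G.filter (fun n => n ∈ Ioc a (a + H)) ⊆
      (range (H / H0 + 1)).biUnion (fun i => G.filter (fun n => n ∈ Ioc (a + i * H0) (a + i * H0 + H0))) := by
    intro n hn
    rw [mem_filter, mem_Ioc] at hn
    rw [mem_biUnion]
    refine ⟨(n - a - 1) / H0, ?_, ?_⟩
    · rw [mem_range]
      have : (n - a - 1) / H0 ≤ H / H0 := Nat.div_le_div_right (by omega)
      omega
    · rw [mem_filter, mem_Ioc]
      have e1 : (n - a - 1) / H0 * H0 ≤ n - a - 1 := Nat.div_mul_le_self _ _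
      have e2 : n - a - 1 < (n - a - 1) / H0 * H0 + H0 := Nat.lt_div_mul_add hH0
      refine ⟨hn.1, ?_, ?_⟩ <;> omega
  calc ((G.filter (fun n => n ∈ Ioc a (a + H))).card : ℝ) ≤
      (((range (H / H0 + 1)).biUnion (fun i => G.filter (fun n => n ∈ Ioc (a + i * H0) (a + i * H0 + H0)))).card : ℝ) := by
        exact_mod_cast card_le_card h1
    _ ≤ ∑ i ∈ range (H / H0 + 1), ((G.filter (fun n => n ∈ Ioc (a + i * H0) (a + i * H0 + H0))).card : ℝ) := by
        exact_mod_cast card_biUnion_le
    _ ≤ ∑ _i ∈ range (H / H0 + 1), R := sum_le_sum fun i _ => hG _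
    _ = ((H / H0 : ℕ) + 1) * R := by
        rw [sum_const, card_range, nsmul_eq_mul]
        push_cast
        ring

/-- a positive proportion of the blocks contains many elements -/
lemma many_blocks (G : Finset ℕ) (N H0 : ℕ) (hGN : ∀ n ∈ G, 1 ≤ n ∧ n ≤ N) (hH0 : 1 ≤ H0) (R c : ℝ) (hR : 0 < R)
    (hc : 0 < c) (hG : ∀ a, ((G.filter (fun n => n ∈ Ioc a (a + H0))).card : ℝ) ≤ R)
    (hcard : c * ((N : ℝ) / H0) ≤ G.card) (H : ℕ) (h1 : H0 ≤ H) (h2 : H ≤ N) :
    c / (4 * R) * ((N : ℝ) / H) ≤
      (((range (N / H + 1)).filter (fun i => c / 4 * ((H : ℝ) / H0) ≤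
        ((G.filter (fun n => n ∈ Ioc (i * H) ((i + 1) * H))).card : ℝ))).card : ℝ) := by
  classical
  have hH : 1 ≤ H := hH0.trans h1
  have hH' : (0:ℝ) < H := by exact_mod_cast hH
  have hH0' : (0:ℝ) < H0 := by exact_mod_cast hH0
  set g : ℕ → ℝ := fun i => ((G.filter (fun n => n ∈ Ioc (i * H) ((i + 1) * H))).card : ℝ) with hg
  set P : ℕ → Prop := fun i => c / 4 * ((H : ℝ) / H0) ≤ g i with hP
  have hsum : (G.card : ℝ) ≤ ∑ i ∈ range (N / H + 1), g i := by
    have hsub : G ⊆ (range (N / H + 1)).biUnion (fun i => G.filter (fun n => n ∈ Ioc (i * H) ((i + 1) * H))) := by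
      intro n hn
      obtain ⟨hn1, hn2⟩ := hGN n hn
      rw [mem_biUnion]
      refine ⟨(n - 1) / H, ?_, ?_⟩
      · rw [mem_range]
        have : (n - 1) / H ≤ N / H := Nat.div_le_div_right (by omega)
        omega
      · rw [mem_filter, mem_Ioc]
        have e1 : (n - 1) / H * H ≤ n - 1 := Nat.div_mul_le_self _ _
        have e2 : n - 1 < (n - 1) / H * H + H := Nat.lt_div_mul_add hH
        refine ⟨hn, ?_, ?_⟩
        · omega
        · rw [add_mul, one_mul]; omega
    have := (card_le_card hsub).trans card_biUnion_le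
    simp only [hg]
    exact_mod_cast this
  have hup : ∀ i, g i ≤ 2 * ((H : ℝ) / H0) * R := by
    intro i
    have h3 := long_card G H0 hH0 R hG (i * H) H
    have e : (i + 1) * H = i * H + H := by ring
    have h4 : g i ≤ ((H / H0 : ℕ) + 1) * R := by
      rw [hg]; simp only; rw [e]; exact h3
    refine h4.trans ?_
    apply mul_le_mul_of_nonneg_right _ hR.le
    have h5 : ((H / H0 : ℕ) : ℝ) ≤ (H : ℝ) / H0 := Nat.cast_div_le
    have h6 : (1:ℝ) ≤ (H : ℝ) / H0 := by
      rw [one_le_div hH0']; exact_mod_cast h1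
    linarith
  have hsplit := sum_filter_add_sum_filter_not (range (N / H + 1)) P g
  have hgood : ∑ i ∈ (range (N / H + 1)).filter P, g i ≤
      (((range (N / H + 1)).filter P).card : ℝ) * (2 * ((H : ℝ) / H0) * R) := by
    rw [← nsmul_eq_mul]
    exact sum_le_card_nsmul _ _ _ fun i _ => hup i
  have hbad : ∑ i ∈ (range (N / H + 1)).filter (fun i => ¬ P i), g i ≤ 2 * ((N:ℝ) / H) * (c / 4 * ((H : ℝ) / H0)) := by
    calc ∑ i ∈ (range (N / H + 1)).filter (fun i => ¬ P i), g i ≤
        (((range (N / H + 1)).filter (fun i => ¬ P i)).card : ℝ) * (c / 4 * ((H : ℝ) / H0)) := by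
          rw [← nsmul_eq_mul]
          apply sum_le_card_nsmul
          intro i hi
          have := (mem_filter.1 hi).2
          exact (not_le.1 this).le
      _ ≤ _ := by
          apply mul_le_mul_of_nonneg_right _ (by positivity)
          have h5 : (((range (N / H + 1)).filter (fun i => ¬ P i)).card : ℝ) ≤ ((N / H : ℕ) : ℝ) + 1 := by
            have := card_filter_le (range (N / H + 1)) (fun i => ¬ P i)
            rw [card_range] at this
            exact_mod_cast this
          have h6 : ((N / H : ℕ) : ℝ) ≤ (N : ℝ) / H := Nat.cast_div_le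
          have h7 : (1:ℝ) ≤ (N : ℝ) / H := by
            rw [one_le_div hH']; exact_mod_cast h2
          linarith
  set F := (((range (N / H + 1)).filter P).card : ℝ) with hF
  have key : c * ((N : ℝ) / H0) ≤ F * (2 * ((H : ℝ) / H0) * R) + 2 * ((N:ℝ) / H) * (c / 4 * ((H : ℝ) / H0)) := by
    linarith
  have e1 : 2 * ((N:ℝ) / H) * (c / 4 * ((H : ℝ) / H0)) = c / 2 * ((N : ℝ) / H0) := by
    field_simp
    ring
  rw [e1] at key
  have e2 : c / (4 * R) * ((N : ℝ) / H) * (2 * ((H : ℝ) / H0) * R) = c / 2 * ((N : ℝ) / H0) := by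
    field_simp
    ring
  have hpos : 0 < 2 * ((H : ℝ) / H0) * R := by positivity
  have : c / (4 * R) * ((N : ℝ) / H) * (2 * ((H : ℝ) / H0) * R) ≤ F * (2 * ((H : ℝ) / H0) * R) := by
    rw [e2]; linarith
  exact le_of_mul_le_mul_right this hpos

/-- the same for a shifted set and a property of its elements -/
lemma to_blocks (P : ℕ → Prop) [DecidablePred P] (G : Finset ℕ) (N H0 m : ℕ)
    (hG : ∀ n ∈ G, 1 ≤ n ∧ n + m ≤ N ∧ P (n + m)) (hH0 : 1 ≤ H0) (R c1 Lk : ℝ) (hR : 0 < R)
    (hc : 0 < c1) (hsp : ∀ a, ((G.filter (fun n => n ∈ Ioc a (a + H0))).card : ℝ) ≤ R)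
    (hcard : c1 * ((N : ℝ) / H0) ≤ G.card) (hLk : 0 < Lk) (hLk2 : (H0 : ℝ) ≤ 2 * Lk)
    (H : ℕ) (h1 : H0 ≤ H) (h2 : H ≤ N) :
    min (c1 / (4 * R)) (c1 / 8) * ((N : ℝ) / H) ≤
      (((range (N / H + 1)).filter (fun i => min (c1 / (4 * R)) (c1 / 8) * ((H : ℝ) / Lk) ≤
        (((Ioc (i * H) ((i + 1) * H)).filter P).card : ℝ))).card : ℝ) := by
  classical
  set G' := G.image (fun n => n + m) with hG'
  have hinj : Function.Injective (fun n : ℕ => n + m) := fun a b h => by simpa using h
  have hcard' : G'.card = G.card := card_image_of_injective _ hinj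
  have hGN : ∀ n ∈ G', 1 ≤ n ∧ n ≤ N := by
    intro n hn
    rw [hG', mem_image] at hn
    obtain ⟨n', hn', rfl⟩ := hn
    obtain ⟨g1, g2, _⟩ := hG n' hn'
    exact ⟨by omega, g2⟩
  have hsp' : ∀ a, ((G'.filter (fun n => n ∈ Ioc a (a + H0))).card : ℝ) ≤ R := by
    intro a
    refine le_trans ?_ (hsp (a - m))
    have : (G'.filter (fun n => n ∈ Ioc a (a + H0))).card ≤
        (G.filter (fun n => n ∈ Ioc (a - m) (a - m + H0))).card := by
      apply card_le_card_of_injOn (fun n => n - m)
      · intro n hn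
        rw [mem_coe, mem_filter, mem_image] at hn
        obtain ⟨⟨n', hn', rfl⟩, hn2⟩ := hn
        have g1 := (hG n' hn').1
        rw [mem_Ioc] at hn2
        rw [mem_coe, mem_filter, mem_Ioc]
        simp only [Nat.add_sub_cancel]
        exact ⟨hn', by omega, by omega⟩
      · intro n hn n' hn' he
        rw [mem_coe, mem_filter, mem_image] at hn hn'
        obtain ⟨⟨a, _, rfl⟩, _⟩ := hn
        obtain ⟨⟨b, _, rfl⟩, _⟩ := hn'
        simpa using he
    exact_mod_cast this
  have hmb := many_blocks G' N H0 hGN hH0 R c1 hR hc hsp' (by rw [hcard']; exact hcard) H h1 h2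
  have hH0' : (0:ℝ) < H0 := by exact_mod_cast hH0
  have hHpos : (0:ℝ) < H := by exact_mod_cast (hH0.trans h1)
  calc min (c1 / (4 * R)) (c1 / 8) * ((N : ℝ) / H) ≤ c1 / (4 * R) * ((N : ℝ) / H) :=
        mul_le_mul_of_nonneg_right (min_le_left _ _) (by positivity)
    _ ≤ _ := hmb
    _ ≤ _ := by
        have hsub : (range (N / H + 1)).filter (fun i => c1 / 4 * ((H : ℝ) / H0) ≤
            ((G'.filter (fun n => n ∈ Ioc (i * H) ((i + 1) * H))).card : ℝ)) ⊆
            (range (N / H + 1)).filter (fun i => min (c1 / (4 * R)) (c1 / 8) * ((H : ℝ) / Lk) ≤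
              (((Ioc (i * H) ((i + 1) * H)).filter P).card : ℝ)) := by
          intro i hi
          rw [mem_filter] at hi ⊢
          refine ⟨hi.1, ?_⟩
          have h3 : min (c1 / (4 * R)) (c1 / 8) * ((H : ℝ) / Lk) ≤ c1 / 4 * ((H : ℝ) / H0) := by
            calc min (c1 / (4 * R)) (c1 / 8) * ((H : ℝ) / Lk) ≤ c1 / 8 * ((H : ℝ) / Lk) :=
                  mul_le_mul_of_nonneg_right (min_le_right _ _) (by positivity)
              _ = c1 / 4 * ((H : ℝ) / (2 * Lk)) := by field_simp; ring
              _ ≤ _ := by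
                  apply mul_le_mul_of_nonneg_left _ (by positivity)
                  exact div_le_div_of_nonneg_left hHpos.le hH0' hLk2
          refine h3.trans (hi.2.trans ?_)
          have h4 : G'.filter (fun n => n ∈ Ioc (i * H) ((i + 1) * H)) ⊆
              (Ioc (i * H) ((i + 1) * H)).filter P := by
            intro n hn
            rw [mem_filter, mem_image] at hn
            obtain ⟨⟨n', hn', rfl⟩, hn2⟩ := hn
            exact mem_filter.2 ⟨hn2, (hG n' hn').2.2⟩
          exact_mod_cast card_le_card h4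
        exact_mod_cast card_le_card hsub

end Pool.Agent.U28.PG
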