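import Pool.Agent.U28.PG.En

set_option autoImplicit false

open Finset Filter Topology

namespace Pool.Agent.U28.PG

open Pool.Agent.H378R2 Pool.Agent.H387R2 Pool.Agent.H387R2.MB

/-- one class modulo `Q` contains a proportion `1/Q` of the admissible classes modulo `W` -/
lemma class_count {Q W : ℕ} (hQ : Q ∣ W) (hW0 : 0 < W) (hW : Squarefree W) (S : Finset ℕ) (b0 : ℕ)
    (hb0 : ∀ s ∈ S, Nat.Coprime Q (b0 + s)) :
    Uni.gT W S ≤ Q * ((range W).filter (fun b => b ≡ b0 [MOD Q] ∧ ∀ s ∈ S, Nat.Coprime W (b + s))).card := by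
  classical
  obtain ⟨W', rfl⟩ := hQ
  have hcop : Nat.Coprime Q W' := (Nat.squarefree_mul_iff.1 hW).1
  have hW'0 : 0 < W' := Nat.pos_of_mul_pos_left hW0
  unfold Uni.gT
  apply card_le_mul_card_image_of_maps_to (f := fun b => (Nat.chineseRemainder hcop b0 b : ℕ) % (Q * W'))
  · intro b hb
    rw [mem_filter] at hb
    rw [mem_filter, mem_range]
    set c := (Nat.chineseRemainder hcop b0 b : ℕ) with hc
    obtain ⟨hc1, hc2⟩ := (Nat.chineseRemainder hcop b0 b).2
    have e1 : c % (Q * W') ≡ b0 [MOD Q] := ((Nat.mod_modEq c (Q * W')).of_mul_right W').trans hc1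
    have e2 : c % (Q * W') ≡ b [MOD W'] := ((Nat.mod_modEq c (Q * W')).of_mul_left Q).trans hc2
    refine ⟨Nat.mod_lt _ hW0, e1, fun s hs => ?_⟩
    apply Nat.Coprime.mul_left
    · exact (coprime_congr (e1.add_right s)).2 (hb0 s hs)
    · exact (coprime_congr (e2.add_right s)).2 (Nat.Coprime.coprime_mul_left (hb.2 s hs))
  · intro b' _
    calc _ ≤ (range Q).card := by
          apply card_le_card_of_injOn (fun b => b / W')
          · intro b hb
            rw [mem_coe, mem_filter, mem_filter, mem_range] at hb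
            rw [mem_coe, mem_range]
            exact (Nat.div_lt_iff_lt_mul hW'0).2 hb.1.1
          · intro b hb c hc he
            rw [mem_coe, mem_filter] at hb hc
            simp only at he hb hc
            have h1 : ∀ x : ℕ, (Nat.chineseRemainder hcop b0 x : ℕ) % (Q * W') ≡ x [MOD W'] := fun x =>
              ((Nat.mod_modEq _ (Q * W')).of_mul_left Q).trans (Nat.chineseRemainder hcop b0 x).2.2
            have h2 : b ≡ c [MOD W'] := (h1 b).symm.trans ((by rw [hb.2, hc.2] : _ ≡ _ [MOD W']).trans (h1 c))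
            rw [← Nat.div_add_mod b W', ← Nat.div_add_mod c W', he, h2]
      _ = Q := card_range _

open Classical in
/-- the sparse set of good integers -/
theorem core {k K : ℕ} {δ c0 CK C2 : ℝ} {N M y : ℕ} (hc0 : 0 < c0) (hCK : 0 ≤ CK) (hC2 : 0 ≤ C2)
    (hlow : Low k K δ c0 N M y) (huK : Upp K δ CK N M y) (hu2 : Upp (2 * K) δ C2 N M y)
    (hy : (y:ℝ) ≤ Real.exp (δ * LL ((N:ℝ) / 4))) (hL : 0 < LL ((N:ℝ) / 4)) (hMP : 0 < MPhi ((N:ℝ) / 4))
    (S : Finset ℕ) (hS : S.card = K) (D H : ℕ) (hSD : ∀ s ∈ S, s ≤ D) (hDH : D + H ≤ M)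
    (Q b0 : ℕ) (hQ0 : 0 < Q) (hQ : Q ∣ Uni.WW y) (hsq : Squarefree (Uni.WW y))
    (hb0 : ∀ s ∈ S, Nat.Coprime Q (b0 + s)) (hg : 0 < Uni.gT (Uni.WW y) S) (R : ℝ) (hR0 : 0 < R)
    (hR : 2 * (D * (CK * UU K ((N:ℝ) / 4) y) + (Uni.gT (Uni.WW y) S : ℝ) * (((H / Uni.WW y : ℕ) : ℝ) + 1) *
      (C2 * UU (2 * K) ((N:ℝ) / 4) y)) ≤ R * (c0 / (Q * 2 ^ K) * UU K ((N:ℝ) / 4) y)) :
    ∃ B ⊆ S, k + 1 ≤ B.card ∧ ∃ G : Finset ℕ,
      (∀ n ∈ G, (N:ℝ) / 4 < n ∧ (n:ℝ) ≤ 3 * ((N:ℝ) / 4) ∧ n ≡ b0 [MOD Q] ∧ ∀ s ∈ S, ((n + s).Prime ↔ s ∈ B)) ∧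
      (∀ a, ((G.filter (fun n => n ∈ Ioc a (a + H))).card : ℝ) ≤ R + 1) ∧
      (Uni.gT (Uni.WW y) S : ℝ) * (c0 / (Q * 2 ^ K) * UU K ((N:ℝ) / 4) y) ≤ G.card := by
  classical
  set X := (N:ℝ) / 4 with hXd
  set W := Uni.WW y with hW
  have hWpos : 0 < W := Uni.WW_pos y
  set g : ℝ := (Uni.gT W S : ℝ) with hgd
  have hg0 : 0 < g := by rw [hgd]; exact_mod_cast hg
  have hQ' : (0:ℝ) < Q := by exact_mod_cast hQ0
  have hUK : 0 < UU K X y := by
    unfold UU
    have h1 : (0:ℝ) < Uni.WW y := by exact_mod_cast Uni.WW_pos y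
    have h2 := rho_pos y
    positivity
  have hU2 := UU_nonneg (2 * K) hL.le y
  set I := Icc 1 ⌊3 * X⌋₊ with hI
  set P : ℕ → Finset ℕ := fun n => S.filter (fun s => (n + s).Prime) with hP
  set A : ℕ → Prop := fun n => ∀ a ∈ S, Rg δ X (n + a) with hA
  -- lower bound
  have h1 : g / Q * (c0 * UU K X y) ≤ ∑ n ∈ I, Phi ((n:ℝ) / X) *
      (if n ≡ b0 [MOD Q] ∧ A n ∧ k + 1 ≤ (P n).card then 1 else 0) := by
    rw [split_classes X hWpos]
    set Bd' := (range W).filter (fun b => b ≡ b0 [MOD Q] ∧ ∀ s ∈ S, Nat.Coprime W (b + s)) with hBd'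
    have hcount : g / Q ≤ Bd'.card := by
      rw [div_le_iff₀ hQ', mul_comm]
      have := class_count hQ hWpos hsq S b0 hb0
      rw [hgd]
      exact_mod_cast this
    calc g / Q * (c0 * UU K X y) ≤ Bd'.card * (c0 * UU K X y) :=
          mul_le_mul_of_nonneg_right hcount (by positivity)
      _ = ∑ _b ∈ Bd', c0 * UU K X y := by rw [sum_const, nsmul_eq_mul]
      _ ≤ ∑ b ∈ Bd', ∑ n ∈ I, nu X W b n * (if n ≡ b0 [MOD Q] ∧ A n ∧ k + 1 ≤ (P n).card then 1 else 0) := by
          apply sum_le_sum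
          intro b hb
          rw [mem_filter] at hb
          refine (hlow b S hS (fun a ha => by have := hSD a ha; omega) hb.2.2).trans ?_
          apply sum_le_sum
          intro n _
          by_cases hz : nu X W b n = 0
          · change nu X W b n * _ ≤ nu X W b n * _
            rw [hz, zero_mul, zero_mul]
          · apply mul_le_mul_of_nonneg_left _ (nu_nonneg _ _ _ _)
            have hmod : n ≡ b [MOD W] := by
              by_contra hc
              apply hz
              unfold nu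
              rw [if_neg hc]
            have hmQ : n ≡ b0 [MOD Q] := (hmod.of_dvd hQ).trans hb.2.1
            by_cases hc : k + 1 ≤ (S.filter (fun a => (n + a).Prime)).card ∧ ∀ a ∈ S, Rg δ X (n + a)
            · rw [if_pos hc, if_pos ⟨hmQ, hc.2, hc.1⟩]
            · rw [if_neg hc]
              split_ifs <;> norm_num
      _ ≤ _ := by
          apply sum_le_sum_of_subset_of_nonneg (filter_subset _ _)
          intro b _ _
          exact sum_nonneg fun n _ => mul_nonneg (nu_nonneg _ _ _ _) (by split_ifs <;> norm_num)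
  -- the pattern
  set TB : Finset ℕ → ℝ := fun B => ∑ n ∈ I, Phi ((n:ℝ) / X) *
      (if n ≡ b0 [MOD Q] ∧ A n ∧ P n = B then 1 else 0) with hTB
  have hTB0 : ∀ B, 0 ≤ TB B := fun B => sum_nonneg fun n _ => mul_nonneg (Phi_nonneg _) (by split_ifs <;> norm_num)
  have h2 : ∑ n ∈ I, Phi ((n:ℝ) / X) * (if n ≡ b0 [MOD Q] ∧ A n ∧ k + 1 ≤ (P n).card then 1 else 0) =
      ∑ B ∈ S.powerset, (if k + 1 ≤ B.card then TB B else 0) := by
    rw [hTB]
    have e : ∀ B ∈ S.powerset, (if k + 1 ≤ B.card then ∑ n ∈ I, Phi ((n:ℝ) / X) *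
        (if n ≡ b0 [MOD Q] ∧ A n ∧ P n = B then (1:ℝ) else 0) else 0) =
        ∑ n ∈ I, (if k + 1 ≤ B.card then Phi ((n:ℝ) / X) *
        (if n ≡ b0 [MOD Q] ∧ A n ∧ P n = B then (1:ℝ) else 0) else 0) := by
      intro B _
      split_ifs
      · rfl
      · rw [sum_const_zero]
    rw [sum_congr rfl e, sum_comm]
    apply sum_congr rfl
    intro n _
    rw [sum_eq_single (P n)]
    · by_cases hc : k + 1 ≤ (P n).card
      · rw [if_pos hc]
        congr 1
        by_cases hd : n ≡ b0 [MOD Q] ∧ A n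
        · rw [if_pos ⟨hd.1, hd.2, hc⟩, if_pos ⟨hd.1, hd.2, rfl⟩]
        · rw [if_neg (fun h => hd ⟨h.1, h.2.1⟩), if_neg (fun h => hd ⟨h.1, h.2.1⟩)]
      · rw [if_neg hc, if_neg (fun h => hc h.2.2), mul_zero]
    · intro B _ hne
      split_ifs with _ hc
      · exact absurd hc.2.2.symm hne
      · rw [mul_zero]
      · rfl
    · intro h
      exact absurd (mem_powerset.2 (filter_subset _ _)) h
  set T := ∑ n ∈ I, Phi ((n:ℝ) / X) * (if n ≡ b0 [MOD Q] ∧ A n ∧ k + 1 ≤ (P n).card then 1 else 0) with hT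
  have hT0 : 0 < T := lt_of_lt_of_le (by positivity) h1
  obtain ⟨B, hBS, hB⟩ := Finset.exists_le_of_sum_le (s := S.powerset) (f := fun _ => T / 2 ^ K)
    (g := fun B => if k + 1 ≤ B.card then TB B else 0) ⟨∅, empty_mem_powerset _⟩ (by
      rw [sum_const, card_powerset, hS, nsmul_eq_mul, ← h2]
      push_cast
      apply le_of_eq
      field_simp)
  have hTK : 0 < T / 2 ^ K := by positivity
  have hkB : k + 1 ≤ B.card := by
    by_contra hc
    simp only [if_neg hc] at hB
    linarith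
  simp only [if_pos hkB] at hB
  refine ⟨B, mem_powerset.1 hBS, hkB, ?_⟩
  set r : ℕ → ℝ := fun n => (((Icc 1 H).filter (fun d => A (n + d))).card : ℝ) with hr
  set G := I.filter (fun n : ℕ => X < (n : ℝ) ∧ (n ≡ b0 [MOD Q] ∧ A n ∧ P n = B) ∧ r n ≤ R) with hG
  have hX0 : 0 ≤ X := by rw [hXd]; positivity
  refine ⟨G, ?_, ?_, ?_⟩
  · intro n hn
    rw [hG, mem_filter, hI, mem_Icc] at hn
    obtain ⟨⟨_, hn2⟩, hn3, ⟨hn4, _, hn6⟩, _⟩ := hn
    refine ⟨hn3, ?_, hn4, fun s hs => ?_⟩
    · exact (Nat.le_floor_iff (by linarith)).1 hn2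
    · rw [← hn6, hP, mem_filter]
      exact ⟨fun h => ⟨hs, h⟩, fun h => h.2⟩
  · intro a
    apply sparse_card A G H R hR0.le
    · intro n hn
      exact (mem_filter.1 hn).2.2.1.2.1
    · intro n hn
      exact (mem_filter.1 hn).2.2.2
  · -- the cardinality
    have hen := energy huK hu2 hCK hC2 hL.le hy S hS D H hSD hDH
    have hTBlow : g * (c0 / (Q * 2 ^ K) * UU K X y) ≤ TB B := by
      refine le_trans ?_ hB
      rw [le_div_iff₀ (by positivity)]
      refine le_trans (le_of_eq ?_) h1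
      field_simp
    set E := ∑ n ∈ I, Phi ((n:ℝ) / X) * ((if A n then 1 else 0) * r n) with hE
    have hE1 : 2 * E ≤ R * TB B := by
      have e1 : E ≤ g * (D * (CK * UU K X y) + g * (((H / W : ℕ) : ℝ) + 1) * (C2 * UU (2 * K) X y)) := by
        exact hen
      have e2 := mul_le_mul_of_nonneg_left hR hg0.le
      have e3 := mul_le_mul_of_nonneg_left hTBlow hR0.le
      linarith
    have hsplit : TB B ≤ (G.card : ℝ) / 2 + E / R := by
      have e1 : TB B ≤ ∑ n ∈ I, ((if n ∈ G then 1 / 2 else 0) + Phi ((n:ℝ) / X) * ((if A n then 1 else 0) * r n) / R) := by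
        rw [hTB]
        apply sum_le_sum
        intro n hn
        have hPh := Phi_nonneg ((n:ℝ) / X)
        have hPh2 := Phi_le_half ((n:ℝ) / X)
        have hr0 : 0 ≤ r n := Nat.cast_nonneg _
        have hnn : 0 ≤ Phi ((n:ℝ) / X) * ((if A n then 1 else 0) * r n) / R := by
          apply div_nonneg _ hR0.le
          apply mul_nonneg hPh
          apply mul_nonneg _ hr0
          split_ifs <;> norm_num
        by_cases hc : n ≡ b0 [MOD Q] ∧ A n ∧ P n = B
        · rw [if_pos hc, mul_one]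
          by_cases hx : X < n
          · by_cases hrr : r n ≤ R
            · have hnG : n ∈ G := mem_filter.2 ⟨hn, hx, hc, hrr⟩
              rw [if_pos hnG]
              linarith
            · rw [if_pos hc.2.1, one_mul]
              have e4 : Phi ((n:ℝ) / X) ≤ Phi ((n:ℝ) / X) * r n / R := by
                rw [le_div_iff₀ hR0]
                exact mul_le_mul_of_nonneg_left (not_le.1 hrr).le hPh
              have e5 : (0:ℝ) ≤ if n ∈ G then 1 / 2 else 0 := by split_ifs <;> norm_num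
              linarith
          · have e6 : Phi ((n:ℝ) / X) = 0 := by
              apply Phi_eq_zero_of_le (by positivity)
              rcases hX0.eq_or_lt with h0 | h0
              · rw [← h0, div_zero]; norm_num
              · rw [div_le_one h0]; exact not_lt.1 hx
            rw [e6]
            have e5 : (0:ℝ) ≤ if n ∈ G then 1 / 2 else 0 := by split_ifs <;> norm_num
            rw [zero_mul, zero_div, add_zero]
            exact e5
        · rw [if_neg hc, mul_zero]
          have e5 : (0:ℝ) ≤ if n ∈ G then 1 / 2 else 0 := by split_ifs <;> norm_num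
          linarith
      refine e1.trans (le_of_eq ?_)
      rw [sum_add_distrib, ← sum_div, ← sum_filter, sum_const, nsmul_eq_mul]
      have e7 : I.filter (fun n => n ∈ G) = G := by
        rw [filter_mem_eq_inter, inter_eq_right]
        exact filter_subset _ _
      rw [e7]
      ring
    have hER : E / R ≤ TB B / 2 := by
      rw [div_le_div_iff₀ hR0 (by norm_num)]
      linarith
    linarith

end Pool.Agent.U28.PG
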