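import Pool.Agent.H387R2.MB14
import Pool.Agent.U28.PG.Comb

set_option autoImplicit false

open Finset Filter Topology

namespace Pool.Agent.U28.PG

open Pool.Agent.H378R2 Pool.Agent.H387R2 Pool.Agent.H387R2.MB

/-- rough numbers are coprime to `W` -/
lemma cop_of_rg {δ X : ℝ} {y m : ℕ} (hy : (y:ℝ) ≤ Real.exp (δ * LL X)) (h : Rg δ X m) :
    Nat.Coprime (Uni.WW y) m := by
  apply Nat.coprime_of_dvd
  intro p hp hpW hpm
  rw [dvd_WW hp] at hpW
  refine h p ?_ hpm
  rw [mem_PS]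
  refine ⟨hp, le_trans ?_ hy⟩
  exact_mod_cast hpW

/-- splitting into classes -/
lemma split_classes (X : ℝ) {W : ℕ} (hW : 0 < W) (I : Finset ℕ) (f : ℕ → ℝ) :
    ∑ n ∈ I, Phi (n / X) * f n = ∑ b ∈ range W, ∑ n ∈ I, nu X W b n * f n := by
  rw [sum_comm]
  apply sum_congr rfl
  intro n _
  rw [sum_eq_single (n % W)]
  · unfold nu
    rw [if_pos (Nat.mod_modEq n _).symm]
  · intro b hb hne
    unfold nu
    rw [if_neg, zero_mul]
    intro h
    apply hne
    rw [Nat.ModEq, Nat.mod_eq_of_lt (mem_range.1 hb)] at h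
    exact h.symm
  · intro h
    exact absurd (mem_range.2 (Nat.mod_lt _ hW)) h

lemma coprime_congr {W a b : ℕ} (h : a ≡ b [MOD W]) : Nat.Coprime W a ↔ Nat.Coprime W b := by
  rw [Nat.Coprime, Nat.Coprime, Nat.gcd_comm W, Nat.gcd_comm W, h.gcd_eq]

open Classical in
/-- upper bound for the number of `n` for which all `n + a`, `a ∈ R`, are rough -/
lemma up_le {J : ℕ} {δ C1 : ℝ} {N M y : ℕ} (h : Upp J δ C1 N M y)
    (hy : (y:ℝ) ≤ Real.exp (δ * LL ((N:ℝ) / 4))) (R : Finset ℕ) (hR : R.card = J) (hRM : ∀ a ∈ R, a ≤ M) :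
    ∑ n ∈ Icc 1 ⌊3 * ((N:ℝ) / 4)⌋₊, Phi ((n:ℝ) / ((N:ℝ) / 4)) *
      (if ∀ a ∈ R, Rg δ ((N:ℝ) / 4) (n + a) then 1 else 0) ≤
      (Uni.gT (Uni.WW y) R : ℝ) * (C1 * UU J ((N:ℝ) / 4) y) := by
  classical
  set X := (N:ℝ) / 4 with hXd
  set W := Uni.WW y with hW
  have hWpos : 0 < W := Uni.WW_pos y
  rw [split_classes X hWpos]
  have hpt : ∀ b n : ℕ, nu X W b n * (if ∀ a ∈ R, Rg δ X (n + a) then (1:ℝ) else 0) ≤
      if (∀ t ∈ R, Nat.Coprime W (b + t)) then nu X W b n * (if ∀ a ∈ R, Rg δ X (n + a) then (1:ℝ) else 0) else 0 := by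
    intro b n
    by_cases hz : nu X W b n = 0
    · rw [hz, zero_mul, ite_self]
    · by_cases hp : ∀ a ∈ R, Rg δ X (n + a)
      · have hmod : n ≡ b [MOD W] := by
          by_contra hc
          apply hz
          unfold nu
          rw [if_neg hc]
        have hc : ∀ t ∈ R, Nat.Coprime W (b + t) := by
          intro t ht
          have h3 : Nat.Coprime W (n + t) := cop_of_rg hy (hp t ht)
          exact (coprime_congr (Nat.ModEq.add_right t hmod)).1 h3
        rw [if_pos hc]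
      · rw [if_neg hp, mul_zero]
        split_ifs <;> simp
  calc _ ≤ ∑ b ∈ range W, ∑ n ∈ Icc 1 ⌊3 * X⌋₊,
        (if (∀ t ∈ R, Nat.Coprime W (b + t)) then nu X W b n * (if ∀ a ∈ R, Rg δ X (n + a) then (1:ℝ) else 0) else 0) :=
        sum_le_sum fun b _ => sum_le_sum fun n _ => hpt b n
    _ = ∑ b ∈ (range W).filter (fun b => ∀ t ∈ R, Nat.Coprime W (b + t)), ∑ n ∈ Icc 1 ⌊3 * X⌋₊,
        nu X W b n * (if ∀ a ∈ R, Rg δ X (n + a) then (1:ℝ) else 0) := by
        rw [sum_filter]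
        apply sum_congr rfl
        intro b _
        split_ifs
        · rfl
        · exact sum_const_zero
    _ ≤ ∑ _b ∈ (range W).filter (fun b => ∀ t ∈ R, Nat.Coprime W (b + t)), C1 * UU J X y := by
        apply sum_le_sum
        intro b _
        exact h b R hR hRM
    _ = _ := by
        rw [sum_const, nsmul_eq_mul]
        rfl

/-- the shifted pattern -/
def sh (S : Finset ℕ) (d : ℕ) : Finset ℕ := S ∪ S.image (fun s => s + d)

lemma card_sh {S : Finset ℕ} {D d : ℕ} (hSD : ∀ s ∈ S, s ≤ D) (hd : D < d) : (sh S d).card = 2 * S.card := by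
  classical
  unfold sh
  rw [card_union_of_disjoint, card_image_of_injective _ (fun a b h => by simpa using h)]
  · ring
  · rw [disjoint_left]
    intro a ha hb
    rw [mem_image] at hb
    obtain ⟨s, _, hs⟩ := hb
    have := hSD a ha
    omega

lemma mem_sh {S : Finset ℕ} {d : ℕ} (P : ℕ → Prop) :
    (∀ a ∈ sh S d, P a) ↔ (∀ s ∈ S, P s) ∧ ∀ s ∈ S, P (s + d) := by
  unfold sh
  constructor
  · intro h
    refine ⟨fun s hs => h s (mem_union_left _ hs), fun s hs => h _ (mem_union_right _ (mem_image_of_mem _ hs))⟩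
  · rintro ⟨h1, h2⟩ a ha
    rw [mem_union, mem_image] at ha
    rcases ha with ha | ⟨s, hs, rfl⟩
    · exact h1 a ha
    · exact h2 s hs

/-- pair correlation of the classes -/
lemma class_corr {W : ℕ} (hW : 0 < W) (S : Finset ℕ) (H : ℕ) :
    ∑ d ∈ Icc 1 H, Uni.gT W (sh S d) ≤ (Uni.gT W S) ^ 2 * (H / W + 1) := by
  classical
  set Bd := (range W).filter (fun b => ∀ s ∈ S, Nat.Coprime W (b + s)) with hBd
  have hcard : Uni.gT W S = Bd.card := rfl
  have h1 : ∀ d, Uni.gT W (sh S d) = ∑ b ∈ Bd, (if (b + d) % W ∈ Bd then 1 else 0) := by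
    intro d
    unfold Uni.gT
    rw [← card_filter]
    congr 1
    ext b
    rw [mem_filter, mem_filter, hBd, mem_filter, mem_filter, mem_range,
      mem_sh (fun a => Nat.Coprime W (b + a))]
    constructor
    · rintro ⟨hb, h2, h3⟩
      refine ⟨⟨hb, h2⟩, mem_range.2 (Nat.mod_lt _ hW), fun s hs => ?_⟩
      have := h3 s hs
      have e : (b + d) % W + s ≡ b + (s + d) [MOD W] := by
        have := (Nat.mod_modEq (b + d) W).add_right s
        rwa [show b + d + s = b + (s + d) by ring] at this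
      exact (coprime_congr e).2 this
    · rintro ⟨⟨hb, h2⟩, _, h3⟩
      refine ⟨hb, h2, fun s hs => ?_⟩
      have := h3 s hs
      have e : (b + d) % W + s ≡ b + (s + d) [MOD W] := by
        have := (Nat.mod_modEq (b + d) W).add_right s
        rwa [show b + d + s = b + (s + d) by ring] at this
      exact (coprime_congr e).1 this
  rw [sum_congr rfl fun d _ => h1 d, sum_comm]
  have h2 : ∀ b ∈ Bd, ∑ d ∈ Icc 1 H, (if (b + d) % W ∈ Bd then 1 else 0) ≤ Bd.card * (H / W + 1) := by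
    intro b _
    rw [← card_filter]
    have h3 : (Icc 1 H).filter (fun d => (b + d) % W ∈ Bd) ⊆
        Bd.biUnion (fun b' => (Icc 1 H).filter (fun d => (b + d) % W = b')) := by
      intro d hd
      rw [mem_filter] at hd
      rw [mem_biUnion]
      exact ⟨_, hd.2, mem_filter.2 ⟨hd.1, rfl⟩⟩
    refine (card_le_card h3).trans (card_biUnion_le.trans ?_)
    calc ∑ b' ∈ Bd, ((Icc 1 H).filter (fun d => (b + d) % W = b')).card ≤ ∑ _b' ∈ Bd, (H / W + 1) := by
          apply sum_le_sum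
          intro b' _
          have h4 : ((Icc 1 H).filter (fun d => (b + d) % W = b')).card ≤ (range (H / W + 1)).card := by
            apply card_le_card_of_injOn (fun d => d / W)
            · intro d hd
              rw [mem_coe, mem_filter, mem_Icc] at hd
              rw [mem_coe, mem_range]
              have : d / W ≤ H / W := Nat.div_le_div_right hd.1.2
              simp only
              omega
            · intro d hd d' hd' he
              rw [mem_coe, mem_filter] at hd hd'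
              simp only at he
              have h5 : b + d ≡ b + d' [MOD W] := hd.2.trans hd'.2.symm
              have h6 : d % W = d' % W := Nat.ModEq.add_left_cancel' b h5
              rw [← Nat.div_add_mod d W, ← Nat.div_add_mod d' W, he, h6]
          rw [card_range] at h4
          exact h4
      _ = Bd.card * (H / W + 1) := by rw [sum_const, smul_eq_mul]
  calc ∑ b ∈ Bd, ∑ d ∈ Icc 1 H, (if (b + d) % W ∈ Bd then 1 else 0) ≤ ∑ _b ∈ Bd, Bd.card * (H / W + 1) :=
        sum_le_sum h2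
    _ = (Uni.gT W S) ^ 2 * (H / W + 1) := by
        rw [sum_const, smul_eq_mul, hcard]; ring

open Classical in
/-- **the energy bound** -/
theorem energy {K : ℕ} {δ CK C2 : ℝ} {N M y : ℕ} (huK : Upp K δ CK N M y) (hu2 : Upp (2 * K) δ C2 N M y)
    (hCK : 0 ≤ CK) (hC2 : 0 ≤ C2) (hL : 0 ≤ LL ((N:ℝ) / 4))
    (hy : (y:ℝ) ≤ Real.exp (δ * LL ((N:ℝ) / 4))) (S : Finset ℕ) (hS : S.card = K) (D H : ℕ)
    (hSD : ∀ s ∈ S, s ≤ D) (hDH : D + H ≤ M) :
    ∑ n ∈ Icc 1 ⌊3 * ((N:ℝ) / 4)⌋₊, Phi ((n:ℝ) / ((N:ℝ) / 4)) *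
      ((if ∀ a ∈ S, Rg δ ((N:ℝ) / 4) (n + a) then 1 else 0) *
        (((Icc 1 H).filter (fun d => ∀ a ∈ S, Rg δ ((N:ℝ) / 4) (n + d + a))).card : ℝ)) ≤
      (Uni.gT (Uni.WW y) S : ℝ) * (D * (CK * UU K ((N:ℝ) / 4) y) +
        (Uni.gT (Uni.WW y) S : ℝ) * (((H / Uni.WW y : ℕ) : ℝ) + 1) * (C2 * UU (2 * K) ((N:ℝ) / 4) y)) := by
  classical
  set X := (N:ℝ) / 4 with hXd
  set W := Uni.WW y with hW
  have hWpos : 0 < W := Uni.WW_pos y
  set g : ℝ := (Uni.gT W S : ℝ) with hg
  have hg0 : 0 ≤ g := Nat.cast_nonneg _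
  have hUK := UU_nonneg K hL y
  have hU2 := UU_nonneg (2 * K) hL y
  set I := Icc 1 ⌊3 * X⌋₊ with hI
  have h1 : ∀ n ∈ I, Phi ((n:ℝ) / X) * ((if ∀ a ∈ S, Rg δ X (n + a) then (1:ℝ) else 0) *
        (((Icc 1 H).filter (fun d => ∀ a ∈ S, Rg δ X (n + d + a))).card : ℝ)) =
      ∑ d ∈ Icc 1 H, Phi ((n:ℝ) / X) * (if ∀ a ∈ sh S d, Rg δ X (n + a) then (1:ℝ) else 0) := by
    intro n _
    rw [← mul_sum]
    congr 1
    rw [card_filter]
    push_cast
    rw [mul_sum]
    apply sum_congr rfl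
    intro d _
    have e : (∀ a ∈ sh S d, Rg δ X (n + a)) ↔ (∀ a ∈ S, Rg δ X (n + a)) ∧ (∀ a ∈ S, Rg δ X (n + d + a)) := by
      rw [mem_sh (fun a => Rg δ X (n + a))]
      apply and_congr Iff.rfl
      apply forall_congr'
      intro s
      rw [show n + (s + d) = n + d + s by ring]
    by_cases ha : ∀ a ∈ S, Rg δ X (n + a)
    · by_cases hb : ∀ a ∈ S, Rg δ X (n + d + a)
      · rw [if_pos ha, if_pos hb, if_pos (e.2 ⟨ha, hb⟩), one_mul]
      · rw [if_neg hb, if_neg (fun h => hb (e.1 h).2), mul_zero]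
    · rw [if_neg ha, if_neg (fun h => ha (e.1 h).1), zero_mul]
  rw [sum_congr rfl h1, sum_comm]
  have h2 : ∀ d ∈ Icc 1 H, ∑ n ∈ I, Phi ((n:ℝ) / X) * (if ∀ a ∈ sh S d, Rg δ X (n + a) then (1:ℝ) else 0) ≤
      (if d ≤ D then g * (CK * UU K X y) else 0) + (Uni.gT W (sh S d) : ℝ) * (C2 * UU (2 * K) X y) := by
    intro d hd
    rw [mem_Icc] at hd
    by_cases hdD : d ≤ D
    · rw [if_pos hdD]
      have k1 : ∑ n ∈ I, Phi ((n:ℝ) / X) * (if ∀ a ∈ S, Rg δ X (n + a) then (1:ℝ) else 0) ≤ g * (CK * UU K X y) :=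
        up_le huK hy S hS (fun a ha => by have := hSD a ha; omega)
      have k2 : ∑ n ∈ I, Phi ((n:ℝ) / X) * (if ∀ a ∈ sh S d, Rg δ X (n + a) then (1:ℝ) else 0) ≤
          ∑ n ∈ I, Phi ((n:ℝ) / X) * (if ∀ a ∈ S, Rg δ X (n + a) then (1:ℝ) else 0) := by
        apply sum_le_sum
        intro n _
        apply mul_le_mul_of_nonneg_left _ (Phi_nonneg _)
        by_cases ha : ∀ a ∈ sh S d, Rg δ X (n + a)
        · rw [if_pos ha, if_pos ((mem_sh (fun a => Rg δ X (n + a))).1 ha).1]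
        · rw [if_neg ha]
          split_ifs <;> norm_num
      have k3 : 0 ≤ (Uni.gT W (sh S d) : ℝ) * (C2 * UU (2 * K) X y) := by positivity
      linarith
    · rw [if_neg hdD, zero_add]
      apply up_le hu2 hy (sh S d)
      · rw [card_sh hSD (by omega), hS]
      · exact (mem_sh (fun a => a ≤ M)).2 ⟨fun s hs => by have := hSD s hs; omega,
          fun s hs => by have := hSD s hs; omega⟩
  calc _ ≤ ∑ d ∈ Icc 1 H, ((if d ≤ D then g * (CK * UU K X y) else 0) +
        (Uni.gT W (sh S d) : ℝ) * (C2 * UU (2 * K) X y)) := sum_le_sum h2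
    _ = ∑ d ∈ Icc 1 H, (if d ≤ D then g * (CK * UU K X y) else 0) +
        ((∑ d ∈ Icc 1 H, Uni.gT W (sh S d) : ℕ) : ℝ) * (C2 * UU (2 * K) X y) := by
        rw [sum_add_distrib, ← sum_mul]
        push_cast
        rfl
    _ ≤ D * (g * (CK * UU K X y)) + (g ^ 2 * (((H / W : ℕ) : ℝ) + 1)) * (C2 * UU (2 * K) X y) := by
        have k4 : ∑ d ∈ Icc 1 H, (if d ≤ D then g * (CK * UU K X y) else 0) ≤ D * (g * (CK * UU K X y)) := by
          rw [← sum_filter, sum_const, nsmul_eq_mul]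
          apply mul_le_mul_of_nonneg_right _ (by positivity)
          have k5 : ((Icc 1 H).filter (fun d => d ≤ D)).card ≤ (Icc 1 D).card := by
            apply card_le_card
            intro d hd
            rw [mem_filter, mem_Icc] at hd
            exact mem_Icc.2 ⟨hd.1.1, hd.2⟩
          rw [Nat.card_Icc, Nat.add_sub_cancel] at k5
          exact_mod_cast k5
        have k6 : ((∑ d ∈ Icc 1 H, Uni.gT W (sh S d) : ℕ) : ℝ) ≤ g ^ 2 * (((H / W : ℕ) : ℝ) + 1) := by
          have := class_corr hWpos S H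
          rw [hg]
          exact_mod_cast this
        have k7 := mul_le_mul_of_nonneg_right k6 (by positivity : 0 ≤ C2 * UU (2 * K) X y)
        linarith
    _ = _ := by ring

end Pool.Agent.U28.PG
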