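import Mathlib

set_option autoImplicit false

open Finset

namespace Pool.Agent.U28.PG

/-- distinct large primes -/
noncomputable def fp (c t : ℕ) : ℕ := Nat.nth Nat.Prime (c + t)

lemma fp_prime (c t : ℕ) : (fp c t).Prime := Nat.prime_nth_prime _

lemma lt_fp (c t : ℕ) : c + t < fp c t := by
  have := Nat.add_two_le_nth_prime (c + t)
  unfold fp
  omega

lemma fp_inj {c t t' : ℕ} (h : fp c t = fp c t') : t = t' := by
  unfold fp at h
  have := Nat.nth_injective Nat.infinite_setOfPred_prime h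
  omega

/-- the modulus -/
noncomputable def QQt (c q : ℕ) (T : Finset ℕ) : ℕ := q * ∏ t ∈ T, fp c t

lemma QQt_cop {c q : ℕ} (hq : 0 < q) (hc : q ≤ c) (T : Finset ℕ) {t : ℕ} (ht : t ∉ T) :
    Nat.Coprime (QQt c q T) (fp c t) := by
  unfold QQt
  apply Nat.Coprime.mul_left
  · rw [Nat.coprime_comm, Nat.Prime.coprime_iff_not_dvd (fp_prime c t)]
    intro h
    have := Nat.le_of_dvd hq h
    have := lt_fp c t
    omega
  · apply Nat.Coprime.prod_left
    intro t' ht'
    rw [Nat.coprime_primes (fp_prime c t') (fp_prime c t)]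
    intro h
    exact ht (fp_inj h ▸ ht')

lemma QQt_insert (c q : ℕ) (T : Finset ℕ) {t : ℕ} (ht : t ∉ T) : QQt c q (insert t T) = QQt c q T * fp c t := by
  unfold QQt
  rw [prod_insert ht]
  ring

lemma QQt_pos {c q : ℕ} (hq : 0 < q) (T : Finset ℕ) : 0 < QQt c q T :=
  Nat.mul_pos hq (prod_pos fun t _ => (fp_prime c t).pos)

lemma QQt_sq {c q : ℕ} (hq : 0 < q) (hc : q ≤ c) (hsq : Squarefree q) (T : Finset ℕ) : Squarefree (QQt c q T) := by
  classical
  induction T using Finset.induction_on with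
  | empty => unfold QQt; simpa using hsq
  | insert t T ht ih =>
    rw [QQt_insert c q T ht, Nat.squarefree_mul_iff]
    exact ⟨QQt_cop hq hc T ht, ih, (fp_prime c t).prime.squarefree⟩

lemma fp_dvd_QQt (c q : ℕ) {T : Finset ℕ} {t : ℕ} (ht : t ∈ T) : fp c t ∣ QQt c q T :=
  (dvd_prod_of_mem _ ht).trans (Dvd.intro_left _ rfl)

lemma exists_b0 {q c : ℕ} (r : ℕ) (hq : 0 < q) (hc : q ≤ c) (T : Finset ℕ) :
    ∃ b0 : ℕ, b0 ≡ r [MOD q] ∧ ∀ t ∈ T, fp c t ∣ b0 + t := by
  classical
  induction T using Finset.induction_on with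
  | empty => exact ⟨r, rfl, by simp⟩
  | insert t T ht ih =>
    obtain ⟨b, hb1, hb2⟩ := ih
    have hcop := QQt_cop hq hc T ht
    set a : ℕ := fp c t * (t + 1) - t with ha
    have hfp := (fp_prime c t).pos
    have hat : a + t = fp c t * (t + 1) := by
      have : t ≤ fp c t * (t + 1) := by nlinarith
      omega
    obtain ⟨h1, h2⟩ := (Nat.chineseRemainder hcop b a).2
    set b' : ℕ := (Nat.chineseRemainder hcop b a : ℕ) with hb'
    refine ⟨b', (h1.of_mul_right _).trans hb1, ?_⟩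
    intro s hs
    rw [mem_insert] at hs
    rcases hs with rfl | hs
    · have : b' + s ≡ a + s [MOD fp c s] := h2.add_right s
      rw [(this.dvd_iff (dvd_refl _)), hat]
      exact Dvd.intro _ rfl
    · have : b' + s ≡ b + s [MOD fp c s] := (h1.of_dvd (fp_dvd_QQt c q hs)).add_right s
      rw [(this.dvd_iff (dvd_refl _))]
      exact hb2 s hs

/-- the class `b0` is compatible with the pattern -/
lemma b0_cop {q c r b0 D : ℕ} (hc : q ≤ c) (hD : D ≤ c) {S T : Finset ℕ} (hS : ∀ s ∈ S, s ≤ D) (hT : ∀ t ∈ T, t ≤ D ∧ t ∉ S)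
    (hr : ∀ s ∈ S, Nat.Coprime q (r + s)) (h1 : b0 ≡ r [MOD q]) (h2 : ∀ t ∈ T, fp c t ∣ b0 + t) :
    ∀ s ∈ S, Nat.Coprime (QQt c q T) (b0 + s) := by
  intro s hs
  unfold QQt
  apply Nat.Coprime.mul_left
  · have e : b0 + s ≡ r + s [MOD q] := h1.add_right s
    have := hr s hs
    rw [Nat.Coprime, Nat.gcd_comm] at this ⊢
    rw [e.gcd_eq]
    exact this
  · apply Nat.Coprime.prod_left
    intro t ht
    rw [Nat.Prime.coprime_iff_not_dvd (fp_prime c t)]
    intro h
    have h3 := h2 t ht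
    have hlt := lt_fp c t
    have hne : s ≠ t := fun e => (hT t ht).2 (e ▸ hs)
    have hsD := hS s hs
    have htD := (hT t ht).1
    have h4 : (fp c t : ℤ) ∣ (s : ℤ) - t := by
      have h5 : (fp c t : ℤ) ∣ (b0 + s : ℤ) := by exact_mod_cast h
      have h6 : (fp c t : ℤ) ∣ (b0 + t : ℤ) := by exact_mod_cast h3
      have := dvd_sub h5 h6
      rwa [show (b0 + s : ℤ) - (b0 + t) = s - t by ring] at this
    have h7 : (s : ℤ) - t = 0 := by
      apply Int.eq_zero_of_abs_lt_dvd h4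
      rw [abs_lt]
      constructor <;> omega
    omega

end Pool.Agent.U28.PG
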