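import Pool.Agent.U28.PG.Core
import Pool.Agent.U28.PG.Iso

set_option autoImplicit false
set_option maxHeartbeats 4000000

open Finset Filter Topology

namespace Pool.Agent.U28.PG

open Pool.Agent.H378R2 Pool.Agent.H387R2 Pool.Agent.H387R2.MB

/-- the Hardy-Littlewood constant of an admissible set is positive -/
lemma CT_pos {S : Finset ℕ} (h : Uni.Adm S) : 0 < Uni.CT S := by
  rw [← Uni.CT_en]
  apply Pool.Agent.H386R2.HL.singularSeries_pos (Uni.en_inj S)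
  intro p hp
  rw [Uni.nu_en]
  exact h p hp

/-- the density of the admissible classes -/
lemma beta_bounds (S : Finset ℕ) {D y : ℕ} (hSD : ∀ s ∈ S, s ≤ D) (hy1 : 1 ≤ y) (hDy : D ≤ y)
    (hy2 : 2 * S.card ^ 2 ≤ y) :
    Uni.CT S ≤ ((Uni.WW y : ℝ) / Nat.totient (Uni.WW y)) ^ S.card * (Uni.gT (Uni.WW y) S / Uni.WW y) ∧
      ((Uni.WW y : ℝ) / Nat.totient (Uni.WW y)) ^ S.card * (Uni.gT (Uni.WW y) S / Uni.WW y) ≤ 2 * Uni.CT S := by
  constructor
  · have h := Uni.CT_le S y (le_refl (1:ℝ)) hSD (by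
      intro n hn1 hnD
      unfold Pool.Agent.H386R2.HL.tt
      rw [filter_eq_empty_iff.2, prod_empty]
      intro p hp
      have := Nat.le_of_mem_primeFactors hp
      omega)
    rwa [one_pow, one_mul] at h
  · have h := Uni.CT_ge S y hy1 hy2
    linarith

/-- enough elements -/
lemma K_ge {k K : ℕ} {δ c0 : ℝ} {N M y : ℕ} (hc0 : 0 < c0) (hlow : Low k K δ c0 N M y)
    (hU : 0 < UU K ((N:ℝ) / 4) y) (S : Finset ℕ) (hS : S.card = K) (hSM : ∀ s ∈ S, s ≤ M)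
    (hg : 0 < Uni.gT (Uni.WW y) S) : k + 1 ≤ K := by
  classical
  unfold Uni.gT at hg
  obtain ⟨b, hb⟩ := card_pos.1 hg
  rw [mem_filter] at hb
  by_contra hc
  have h1 := hlow b S hS hSM hb.2
  have h2 : ∑ n ∈ Icc 1 ⌊3 * ((N:ℝ) / 4)⌋₊, nu ((N:ℝ) / 4) (Uni.WW y) b n *
      (if k + 1 ≤ (S.filter (fun a => (n + a).Prime)).card ∧ ∀ a ∈ S, Rg δ ((N:ℝ) / 4) (n + a) then (1:ℝ) else 0) = 0 := by
    apply sum_eq_zero
    intro n _
    rw [if_neg, mul_zero]
    rintro ⟨h3, _⟩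
    have := card_filter_le S (fun a => (n + a).Prime)
    omega
  have h3 : c0 * UU K ((N:ℝ) / 4) y ≤ 0 := by
    refine h1.trans (le_of_eq (Eq.trans (sum_congr rfl fun n _ => ?_) h2))
    congr 1
  have : 0 < c0 * UU K ((N:ℝ) / 4) y := by positivity
  linarith

lemma exists_adm (K : ℕ) : ∃ (S : Finset ℕ) (D : ℕ), S.card = K ∧ (∀ s ∈ S, s ≤ D) ∧ Uni.Adm S := by
  classical
  have hf := Nat.factorial_pos K
  refine ⟨(range K).image (· * K.factorial), K * K.factorial, ?_, ?_, ?_⟩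
  · rw [card_image_of_injective _ (fun a b h => Nat.eq_of_mul_eq_mul_right hf h), card_range]
  · intro s hs
    rw [mem_image] at hs
    obtain ⟨j, hj, rfl⟩ := hs
    exact Nat.mul_le_mul_right _ (mem_range.1 hj).le
  · intro p hp
    unfold Uni.nuT
    by_cases h : p ≤ K
    · have h1 : ((range K).image (· * K.factorial)).image (· % p) ⊆ {0} := by
        intro x hx
        rw [mem_image] at hx
        obtain ⟨s, hs, rfl⟩ := hx
        rw [mem_image] at hs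
        obtain ⟨j, _, rfl⟩ := hs
        rw [mem_singleton]
        exact Nat.mod_eq_zero_of_dvd ((Nat.dvd_factorial hp.pos h).mul_left j)
      have := card_le_card h1
      rw [card_singleton] at this
      exact this.trans_lt hp.one_lt
    · refine (card_image_le.trans card_image_le).trans_lt ?_
      rw [card_range]
      omega

lemma W_le_sq {N : ℕ} (hL : 1 ≤ Real.log N) (hu : 0 ≤ Real.log (Real.log (N:ℝ))) :
    (Uni.WW ⌊Real.log (Real.log (N:ℝ))⌋₊ : ℝ) ≤ Real.log N ^ 2 := by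
  set u := Real.log (Real.log (N:ℝ)) with hud
  have h1 : (Uni.WW ⌊u⌋₊ : ℝ) ≤ (4:ℝ) ^ ⌊u⌋₊ := by exact_mod_cast Uni.WW_le ⌊u⌋₊
  refine h1.trans ?_
  have h2 : (⌊u⌋₊ : ℝ) ≤ u := Nat.floor_le hu
  have h3 : (4:ℝ) ≤ Real.exp 2 := by
    have h := Real.exp_one_gt_d9
    have e : Real.exp 2 = Real.exp 1 * Real.exp 1 := by rw [← Real.exp_add]; norm_num
    rw [e]
    nlinarith
  calc (4:ℝ) ^ ⌊u⌋₊ ≤ (Real.exp 2) ^ ⌊u⌋₊ := pow_le_pow_left₀ (by norm_num) h3 _
    _ = Real.exp (⌊u⌋₊ * 2) := by rw [← Real.exp_nat_mul]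
    _ ≤ Real.exp (u + u) := Real.exp_le_exp.2 (by linarith)
    _ = Real.log N ^ 2 := by
        rw [Real.exp_add, hud, Real.exp_log (by linarith)]
        ring

lemma alg6 {MP w ll ρ : ℝ} (K : ℕ) :
    MP * (1 / w) * (1 / (ll * ρ) ^ (2 * K)) = (MP * (1 / w) * (1 / (ll * ρ) ^ K)) * (1 / (ll * ρ) ^ K) := by
  rw [two_mul, pow_add]
  ring

open Classical in
/-- **exact patterns of consecutive primes in a positive proportion of the short intervals** -/
theorem blocks (k : ℕ) (hk : 1 ≤ k) : ∃ K : ℕ, k + 1 ≤ K ∧ ∀ (S : Finset ℕ) (D q r : ℕ), S.card = K →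
    (∀ s ∈ S, s ≤ D) → Uni.Adm S → Squarefree q → (∀ s ∈ S, Nat.Coprime q (r + s)) →
    ∃ c : ℝ, 0 < c ∧ ∀ᶠ N : ℕ in atTop, ∃ B ⊆ S, k + 1 ≤ B.card ∧ ∀ m ≤ D,
      ∀ H : ℕ, Real.log N ^ K ≤ H → H ≤ N →
        c * ((N : ℝ) / H) ≤ (((range (N / H + 1)).filter (fun j => c * ((H : ℝ) / Real.log N ^ K) ≤
          (((Ioc (j * H) ((j + 1) * H)).filter (fun n => m ≤ n ∧ n - m ≡ r [MOD q] ∧
            ∀ t ≤ D, ((n - m + t).Prime ↔ t ∈ B))).card : ℝ))).card : ℝ) := by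
  obtain ⟨K, hK, δ, hδ, c0, hc0, hlow⟩ := low_eventually k
  obtain ⟨CK, hCK, huppK⟩ := upp_eventually K hδ
  obtain ⟨C2, hC2, hupp2⟩ := upp_eventually (2 * K) hδ
  have tN : Tendsto (fun N : ℕ => (N : ℝ)) atTop atTop := tendsto_natCast_atTop_atTop
  have tL : Tendsto (fun N : ℕ => Real.log (N : ℝ)) atTop atTop := Real.tendsto_log_atTop.comp tN
  have tu : Tendsto (fun N : ℕ => Real.log (Real.log (N : ℝ))) atTop atTop := Real.tendsto_log_atTop.comp tL
  have ty : Tendsto (fun N : ℕ => ⌊Real.log (Real.log (N : ℝ))⌋₊) atTop atTop :=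
    tendsto_nat_floor_atTop.comp tu
  have tX : Tendsto (fun N : ℕ => (N : ℝ) / 4) atTop atTop := tN.atTop_div_const (by norm_num)
  have e4 : ∀ᶠ N : ℕ in atTop, Real.log (Real.log (N : ℝ)) ≤ δ / 400 * Real.log N := by
    have h := Real.isLittleO_log_id_atTop.def (show (0:ℝ) < δ / 400 by positivity)
    filter_upwards [tL.eventually h, tL.eventually_ge_atTop 1] with N h1 h2
    simp only [id, Real.norm_eq_abs] at h1
    rw [abs_of_pos (by linarith : (0:ℝ) < Real.log N)] at h1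
    exact (le_abs_self _).trans h1
  -- the basic facts for a pattern
  have basic : ∀ (S : Finset ℕ) (D Q : ℕ), S.card = K → (∀ s ∈ S, s ≤ D) → Uni.Adm S → ∀ᶠ N : ℕ in atTop,
      (Low k K δ c0 N ⌊Real.log N ^ ((K:ℝ) + 1)⌋₊ ⌊Real.log (Real.log N)⌋₊ ∧
      Upp K δ CK N ⌊Real.log N ^ ((K:ℝ) + 1)⌋₊ ⌊Real.log (Real.log N)⌋₊ ∧
      Upp (2 * K) δ C2 N ⌊Real.log N ^ ((K:ℝ) + 1)⌋₊ ⌊Real.log (Real.log N)⌋₊) ∧
      ((⌊Real.log (Real.log (N:ℝ))⌋₊ : ℝ) ≤ Real.exp (δ * LL ((N:ℝ) / 4)) ∧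
      1 ≤ LL ((N:ℝ) / 4) ∧ Real.log N ≤ 400 * LL ((N:ℝ) / 4) ∧ LL ((N:ℝ) / 4) ≤ Real.log N ∧
      (N:ℝ) / 80 ≤ MPhi ((N:ℝ) / 4) ∧
      (Uni.CT S ≤ ((Uni.WW ⌊Real.log (Real.log (N:ℝ))⌋₊ : ℝ) / Nat.totient (Uni.WW ⌊Real.log (Real.log (N:ℝ))⌋₊)) ^ S.card *
        (Uni.gT (Uni.WW ⌊Real.log (Real.log (N:ℝ))⌋₊) S / Uni.WW ⌊Real.log (Real.log (N:ℝ))⌋₊) ∧
       ((Uni.WW ⌊Real.log (Real.log (N:ℝ))⌋₊ : ℝ) / Nat.totient (Uni.WW ⌊Real.log (Real.log (N:ℝ))⌋₊)) ^ S.card *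
        (Uni.gT (Uni.WW ⌊Real.log (Real.log (N:ℝ))⌋₊) S / Uni.WW ⌊Real.log (Real.log (N:ℝ))⌋₊) ≤ 2 * Uni.CT S)) ∧
      (Uni.WW ⌊Real.log (Real.log (N:ℝ))⌋₊ : ℝ) ≤ Real.log N ^ 2 ∧
      (D + 2 : ℝ) ≤ Real.log N ∧ (Q:ℝ) ≤ (N:ℝ) / 4 ∧ Q ≤ ⌊Real.log (Real.log (N:ℝ))⌋₊ ∧
      Real.log N ≤ (N:ℝ) / 4 := by
    intro S D Q hS hSD hadm
    have e5 : ∀ᶠ N : ℕ in atTop, Real.log N ≤ (N:ℝ) / 4 := by
      have h := Real.isLittleO_log_id_atTop.def (show (0:ℝ) < 1 / 4 by norm_num)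
      filter_upwards [tN.eventually h, tN.eventually_ge_atTop 1] with N h1 h2
      simp only [id, Real.norm_eq_abs] at h1
      rw [abs_of_pos (by linarith : (0:ℝ) < (N:ℝ))] at h1
      have := (le_abs_self _).trans h1
      linarith
    filter_upwards [hlow ((K:ℝ) + 1), huppK ((K:ℝ) + 1), hupp2 ((K:ℝ) + 1), e4,
      (LL_tendsto.comp tX).eventually_ge_atTop 1, tX.eventually_ge_atTop 4, tX.eventually MPhi_big,
      ty.eventually_ge_atTop (2 * S.card ^ 2 + D + Q + 1), tu.eventually_ge_atTop 0,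
      tL.eventually_ge_atTop (D + 2 : ℝ), tX.eventually_ge_atTop (Q:ℝ), e5] with N h1 h2 h3 h4 h5 h6 h7 h8 h9 h10 h11 h12
    have hL1 : 1 ≤ LL ((N:ℝ) / 4) := h5
    have hL400 : Real.log N ≤ 400 * LL ((N:ℝ) / 4) := by
      have := log4X h6
      rwa [show 4 * ((N:ℝ) / 4) = N by ring] at this
    have hD0 : (0:ℝ) ≤ D := Nat.cast_nonneg D
    have hN4 : (4:ℝ) ≤ (N:ℝ) / 4 := h6
    refine ⟨⟨h1, h2, h3⟩, ⟨?_, hL1, hL400, ?_, ?_, ?_⟩, ?_, h10, h11, by omega, h12⟩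
    · have k1 : (⌊Real.log (Real.log (N:ℝ))⌋₊ : ℝ) ≤ Real.log (Real.log (N:ℝ)) := Nat.floor_le h9
      have k2 : δ / 400 * Real.log N ≤ δ * LL ((N:ℝ) / 4) := by
        have := mul_le_mul_of_nonneg_left hL400 (by positivity : (0:ℝ) ≤ δ / 400)
        linarith
      have k3 := Real.add_one_le_exp (δ * LL ((N:ℝ) / 4))
      linarith
    · unfold LL
      have k1 : Real.log ((N:ℝ) / 4) ≤ Real.log N := by
        apply Real.log_le_log (by linarith)
        linarith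
      linarith
    · linarith
    · exact beta_bounds S hSD (by omega) (by omega) (by omega)
    · exact W_le_sq (by linarith) h9
  -- `UU` is positive
  have hUUpos : ∀ (N y : ℕ), 1 ≤ LL ((N:ℝ) / 4) → 0 < MPhi ((N:ℝ) / 4) → 0 < UU K ((N:ℝ) / 4) y := by
    intro N y h1 h2
    unfold UU
    have h3 : (0:ℝ) < Uni.WW y := by exact_mod_cast Uni.WW_pos y
    have h4 := rho_pos y
    have h5 : 0 < LL ((N:ℝ) / 4) := by linarith
    positivity
  have hKk : k + 1 ≤ K := by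
    obtain ⟨S, D, hS, hSD, hadm⟩ := exists_adm K
    obtain ⟨N, hN⟩ := (basic S D 0 hS hSD hadm).exists
    obtain ⟨⟨hlowN, _, _⟩, ⟨_, hL1, _, _, hMP, hβ1, _⟩, hWN, hLD, _, _, _⟩ := hN
    have hLN : 2 ≤ Real.log (N:ℝ) := by
      have hD0 : (0:ℝ) ≤ D := Nat.cast_nonneg D
      linarith
    have hN0 : (0:ℝ) < N := by
      rcases Nat.eq_zero_or_pos N with h | h
      · rw [h] at hLN; simp at hLN; linarith
      · exact_mod_cast h
    have hMP0 : 0 < MPhi ((N:ℝ) / 4) := by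
      have : (0:ℝ) < (N:ℝ) / 80 := by positivity
      linarith
    have hCT := CT_pos hadm
    have hg0 : 0 < Uni.gT (Uni.WW ⌊Real.log (Real.log (N:ℝ))⌋₊) S := by
      by_contra hc
      have hz : Uni.gT (Uni.WW ⌊Real.log (Real.log (N:ℝ))⌋₊) S = 0 := by omega
      rw [hz] at hβ1
      simp at hβ1
      linarith
    apply K_ge hc0 hlowN (hUUpos N _ hL1 hMP0) S hS _ hg0
    intro s hs
    have h1 : (s:ℝ) ≤ D := by exact_mod_cast hSD s hs
    apply Nat.le_floor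
    have h2 : Real.log (N:ℝ) ≤ Real.log (N:ℝ) ^ ((K:ℝ) + 1) := by
      conv_lhs => rw [← Real.rpow_one (Real.log (N:ℝ))]
      apply Real.rpow_le_rpow_of_exponent_le (by linarith)
      have : (0:ℝ) ≤ K := Nat.cast_nonneg K
      linarith
    linarith
  refine ⟨K, hKk, fun S D q r hS hSD hadm hsq hr => ?_⟩
  have hCT := CT_pos hadm
  have hq : 0 < q := Nat.pos_of_ne_zero hsq.ne_zero
  set cc : ℕ := max q D with hcc
  set T : Finset ℕ := (range (D + 1)) \ S with hT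
  have hTD : ∀ t ∈ T, t ≤ D ∧ t ∉ S := by
    intro t ht
    rw [hT, Finset.mem_sdiff, mem_range] at ht
    exact ⟨by omega, ht.2⟩
  obtain ⟨b0, hb1, hb2⟩ := exists_b0 r hq (le_max_left q D : q ≤ cc) T
  set Q := QQt cc q T with hQd
  have hQpos : 0 < Q := QQt_pos hq T
  have hQsq : Squarefree Q := QQt_sq hq (le_max_left _ _) hsq T
  have hcopb : ∀ s ∈ S, Nat.Coprime Q (b0 + s) := b0_cop (le_max_left _ _) (le_max_right _ _) hSD hTD hr hb1 hb2
  have hQ' : (0:ℝ) < Q := by exact_mod_cast hQpos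
  have h400 : (0:ℝ) < 400 ^ K := by positivity
  set R : ℝ := 2 * (D * CK + 6 * 400 ^ K * Uni.CT S * C2) * (Q * 2 ^ K) / c0 + 1 with hR
  have hD0 : (0:ℝ) ≤ D := Nat.cast_nonneg D
  have hR0 : 0 < R := by positivity
  set c1 : ℝ := c0 * Uni.CT S / (Q * 2 ^ K * 80) with hc1
  have hc10 : 0 < c1 := by positivity
  refine ⟨min (c1 / (4 * (R + 1))) (c1 / 8), lt_min (by positivity) (by positivity), ?_⟩
  filter_upwards [basic S D Q hS hSD hadm] with N hN
  obtain ⟨⟨hlowN, huKN, hu2N⟩, ⟨hyN, hL1, hL400, hLL, hMP, hβ1, hβ2⟩, hWN, hLD, hQX, hQy, hLN4⟩ := hN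
  set X := (N:ℝ) / 4 with hX
  set L := Real.log (N:ℝ) with hLdef
  set y := ⌊Real.log L⌋₊ with hy
  set W := Uni.WW y with hW
  have hL0 : 0 < LL X := by linarith
  have hWpos : 0 < W := Uni.WW_pos y
  have hW0 : (0:ℝ) < W := by exact_mod_cast hWpos
  have hρ := rho_pos y
  have hLpos : 1 ≤ L := by linarith
  have hLK1 : 1 ≤ L ^ K := one_le_pow₀ hLpos
  have hX1 : (1:ℝ) ≤ X := by
    have : (1:ℝ) ≤ Q := by exact_mod_cast hQpos
    linarith
  have hN0 : (0:ℝ) < N := by linarith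
  have hMP0 : 0 < MPhi X := by
    have : (0:ℝ) < (N:ℝ) / 80 := by positivity
    linarith
  have hU := hUUpos N y hL1 hMP0
  set g : ℝ := (Uni.gT W S : ℝ) with hg
  set β : ℝ := ((W : ℝ) / Nat.totient W) ^ S.card * (Uni.gT W S / W) with hβ
  have hβe : β = (1 / rho y ^ K) * (g / W) := by
    rw [hβ, hS]
    congr 1
    unfold rho
    rw [div_pow, div_pow, one_div_div]
  have hβ0 : 0 < β := lt_of_lt_of_le hCT hβ1
  have hg0 : 0 < Uni.gT W S := by
    by_contra hc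
    have hz : Uni.gT W S = 0 := by omega
    rw [hβ, hz] at hβ0
    simp at hβ0
  -- the length of the blocks
  set H0 := ⌈L ^ K⌉₊ with hH0
  have hH01 : (L ^ K : ℝ) ≤ H0 := Nat.le_ceil _
  have hH02 : (H0:ℝ) ≤ 2 * L ^ K := by
    have := Nat.ceil_lt_add_one (by positivity : 0 ≤ L ^ K)
    linarith
  have hH0pos : 1 ≤ H0 := by
    have : (1:ℝ) ≤ H0 := hLK1.trans hH01
    exact_mod_cast this
  have hDH : D + H0 ≤ ⌊L ^ ((K:ℝ) + 1)⌋₊ := by
    apply Nat.le_floor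
    rw [Real.rpow_add_one (by linarith), Real.rpow_natCast]
    push_cast
    have h1 : (H0:ℝ) ≤ L ^ K + 1 := (Nat.ceil_lt_add_one (by positivity : 0 ≤ L ^ K)).le
    have h2 : L ^ K * (D + 2) ≤ L ^ K * L := mul_le_mul_of_nonneg_left hLD (by positivity)
    nlinarith
  have hQW : Q ∣ W := by
    rw [← Nat.prod_primeFactors_of_squarefree hQsq, hW]
    unfold Uni.WW
    apply prod_dvd_prod_of_subset
    intro p hp
    rw [Nat.mem_primesBelow]
    have := Nat.le_of_mem_primeFactors hp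
    exact ⟨by omega, Nat.prime_of_mem_primeFactors hp⟩
  have hUU2 : g * UU (2 * K) X y = UU K X y * (β * W / LL X ^ K) := by
    unfold UU
    rw [← hW, alg6, hβe, mul_pow]
    field_simp
  have hratio : (((H0 / W : ℕ) : ℝ) + 1) * (W / LL X ^ K) ≤ 3 * 400 ^ K := by
    have h1 : ((H0 / W : ℕ) : ℝ) ≤ H0 / W := Nat.cast_div_le
    have h2 : (((H0 / W : ℕ) : ℝ) + 1) * W ≤ 3 * L ^ K := by
      calc (((H0 / W : ℕ) : ℝ) + 1) * W ≤ (H0 / W + 1) * W := by gcongr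
        _ = H0 + W := by field_simp
        _ ≤ 2 * L ^ K + L ^ 2 := by linarith
        _ ≤ 2 * L ^ K + L ^ K := by
            have : L ^ 2 ≤ L ^ K := pow_le_pow_right₀ hLpos (by omega)
            linarith
        _ = 3 * L ^ K := by ring
    have h3 : L ^ K ≤ 400 ^ K * LL X ^ K := by
      rw [← mul_pow]
      exact pow_le_pow_left₀ (by linarith) hL400 _
    rw [← mul_div_assoc, div_le_iff₀ (by positivity)]
    linarith
  have hRR : 2 * (D * (CK * UU K X y) + g * (((H0 / W : ℕ) : ℝ) + 1) * (C2 * UU (2 * K) X y)) ≤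
      R * (c0 / (Q * 2 ^ K) * UU K X y) := by
    have h1 : g * (((H0 / W : ℕ) : ℝ) + 1) * (C2 * UU (2 * K) X y) ≤ 6 * 400 ^ K * Uni.CT S * C2 * UU K X y := by
      calc g * (((H0 / W : ℕ) : ℝ) + 1) * (C2 * UU (2 * K) X y) =
          (((H0 / W : ℕ) : ℝ) + 1) * C2 * (g * UU (2 * K) X y) := by ring
        _ = ((((H0 / W : ℕ) : ℝ) + 1) * (W / LL X ^ K)) * (β * (C2 * UU K X y)) := by
            rw [hUU2]; ring
        _ ≤ (3 * 400 ^ K) * (β * (C2 * UU K X y)) :=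
            mul_le_mul_of_nonneg_right hratio (by positivity)
        _ ≤ (3 * 400 ^ K) * (2 * Uni.CT S * (C2 * UU K X y)) := by
            gcongr
        _ = _ := by ring
    have h2 : 2 * (D * CK + 6 * 400 ^ K * Uni.CT S * C2) * UU K X y ≤ R * (c0 / (Q * 2 ^ K) * UU K X y) := by
      have h3 : 2 * (D * CK + 6 * 400 ^ K * Uni.CT S * C2) ≤ R * (c0 / (Q * 2 ^ K)) := by
        rw [hR, add_mul, one_mul]
        have h4 : 2 * (D * CK + 6 * 400 ^ K * Uni.CT S * C2) * (Q * 2 ^ K) / c0 * (c0 / (Q * 2 ^ K)) =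
            2 * (D * CK + 6 * 400 ^ K * Uni.CT S * C2) := by
          field_simp
        have h5 : 0 < c0 / (Q * 2 ^ K) := by positivity
        linarith
      have := mul_le_mul_of_nonneg_right h3 hU.le
      linarith
    linarith
  obtain ⟨B, hBS, hkB, G, hG1, hG2, hG3⟩ := core hc0 hCK.le hC2.le hlowN huKN hu2N hyN hL0 hMP0 S hS D H0 hSD hDH
    Q b0 hQpos hQW (WW_sqf y) hcopb hg0 R hR0 hRR
  refine ⟨B, hBS, hkB, fun m hmD H hH1 hH2 => ?_⟩
  have hH0H : H0 ≤ H := Nat.ceil_le.2 hH1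
  have hGcard : c1 * ((N : ℝ) / H0) ≤ G.card := by
    refine le_trans ?_ hG3
    have h1 : g * (c0 / (Q * 2 ^ K) * UU K X y) = c0 / (Q * 2 ^ K) * (MPhi X * β / LL X ^ K) := by
      unfold UU
      rw [← hW, hβe, mul_pow]
      field_simp
    change c1 * ((N : ℝ) / H0) ≤ g * (c0 / (Q * 2 ^ K) * UU K X y)
    rw [h1]
    have h2 : (N:ℝ) / 80 * Uni.CT S / H0 ≤ MPhi X * β / LL X ^ K := by
      apply div_le_div₀ (by positivity) _ (by positivity) _
      · exact mul_le_mul hMP hβ1 hCT.le hMP0.le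
      · exact (pow_le_pow_left₀ hL0.le hLL K).trans hH01
    calc c1 * ((N : ℝ) / H0) = c0 / (Q * 2 ^ K) * ((N:ℝ) / 80 * Uni.CT S / H0) := by
          rw [hc1]
          field_simp
      _ ≤ _ := mul_le_mul_of_nonneg_left h2 (by positivity)
  have hND : (D:ℝ) ≤ (N:ℝ) / 4 := by
    have h1 : L ≤ (N:ℝ) / 4 := hLN4
    linarith
  have hG' : ∀ n ∈ G, 1 ≤ n ∧ n + m ≤ N ∧ (m ≤ n + m ∧ n + m - m ≡ r [MOD q] ∧
      ∀ t ≤ D, ((n + m - m + t).Prime ↔ t ∈ B)) := by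
    intro n hn
    obtain ⟨g1, g2, g3, g4⟩ := hG1 n hn
    refine ⟨?_, ?_, Nat.le_add_left _ _, ?_, ?_⟩
    · have : (0:ℝ) < n := by linarith
      exact_mod_cast this
    · have h1 : (m:ℝ) ≤ D := by exact_mod_cast hmD
      have h2 : ((n + m : ℕ) : ℝ) ≤ N := by
        push_cast
        linarith
      exact_mod_cast h2
    · rw [Nat.add_sub_cancel]
      have e1 : n ≡ b0 [MOD q] := g3.of_dvd (Dvd.intro _ rfl)
      exact e1.trans hb1
    · intro t ht
      rw [Nat.add_sub_cancel]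
      by_cases htS : t ∈ S
      · exact g4 t htS
      · have htT : t ∈ T := by
          rw [hT, Finset.mem_sdiff, mem_range]
          exact ⟨by omega, htS⟩
        have hd1 : fp cc t ∣ Q := fp_dvd_QQt cc q htT
        have hd2 : fp cc t ∣ n + t := by
          have e2 : n + t ≡ b0 + t [MOD fp cc t] := (g3.of_dvd hd1).add_right t
          rw [e2.dvd_iff (dvd_refl _)]
          exact hb2 t htT
        constructor
        · intro hp
          exfalso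
          have e3 : fp cc t = n + t := (Nat.prime_dvd_prime_iff_eq (fp_prime cc t) hp).1 hd2
          have e4 : fp cc t ≤ Q := Nat.le_of_dvd hQpos hd1
          have e5 : (n:ℝ) ≤ Q := by
            have : n ≤ Q := by omega
            exact_mod_cast this
          linarith
        · intro htB
          exact absurd (hBS htB) htS
  exact to_blocks _ G N H0 m hG' hH0pos (R + 1) c1 (L ^ K) (by positivity) hc10 hG2 hGcard (by positivity) hH02
    H hH0H hH2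

end Pool.Agent.U28.PG
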