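import Pool.Agent.U28.PG.Core

set_option autoImplicit false

open Finset Filter Topology

namespace Pool.Agent.U28.PG

open Pool.Agent.H378R2 Pool.Agent.H387R2 Pool.Agent.H387R2.MB

lemma bad_shifts (S : Finset ℕ) (H : ℕ) : ((Icc 1 H).filter (fun d => ¬ (sh S d).card = 2 * S.card)).card ≤ S.card ^ 2 := by
  classical
  have h1 : (Icc 1 H).filter (fun d => ¬ (sh S d).card = 2 * S.card) ⊆ (S ×ˢ S).image (fun ab => ab.1 - ab.2) := by
    intro d hd
    rw [mem_filter] at hd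
    rw [mem_image]
    by_contra hc
    apply hd.2
    unfold sh
    rw [card_union_of_disjoint, card_image_of_injective _ (fun a b h => by simpa using h)]
    · ring
    · rw [disjoint_left]
      intro a ha hb
      rw [mem_image] at hb
      obtain ⟨s, hs, hsa⟩ := hb
      apply hc
      refine ⟨(a, s), mem_product.2 ⟨ha, hs⟩, ?_⟩
      simp only
      omega
  refine (card_le_card h1).trans (card_image_le.trans ?_)
  rw [card_product, sq]

open Classical in
/-- **the energy bound** with few exceptional shifts -/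
theorem energyT {J : ℕ} {δ CK C2 : ℝ} {N M y : ℕ} (huK : Upp J δ CK N M y) (hu2 : Upp (2 * J) δ C2 N M y)
    (hCK : 0 ≤ CK) (hC2 : 0 ≤ C2) (hL : 0 ≤ LL ((N:ℝ) / 4))
    (hy : (y:ℝ) ≤ Real.exp (δ * LL ((N:ℝ) / 4))) (S : Finset ℕ) (hS : S.card = J) (H : ℕ)
    (hSH : ∀ s ∈ S, s + H ≤ M) :
    ∑ n ∈ Icc 1 ⌊3 * ((N:ℝ) / 4)⌋₊, Phi ((n:ℝ) / ((N:ℝ) / 4)) *
      ((if ∀ a ∈ S, Rg δ ((N:ℝ) / 4) (n + a) then 1 else 0) *
        (((Icc 1 H).filter (fun d => ∀ a ∈ S, Rg δ ((N:ℝ) / 4) (n + d + a))).card : ℝ)) ≤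
      (Uni.gT (Uni.WW y) S : ℝ) * ((J:ℝ) ^ 2 * (CK * UU J ((N:ℝ) / 4) y) +
        (Uni.gT (Uni.WW y) S : ℝ) * (((H / Uni.WW y : ℕ) : ℝ) + 1) * (C2 * UU (2 * J) ((N:ℝ) / 4) y)) := by
  classical
  set X := (N:ℝ) / 4 with hXd
  set W := Uni.WW y with hW
  have hWpos : 0 < W := Uni.WW_pos y
  set g : ℝ := (Uni.gT W S : ℝ) with hg
  have hg0 : 0 ≤ g := Nat.cast_nonneg _
  have hUK := UU_nonneg J hL y
  have hU2 := UU_nonneg (2 * J) hL y
  set I := Icc 1 ⌊3 * X⌋₊ with hI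
  have h1 : ∀ n ∈ I, Phi ((n:ℝ) / X) * ((if ∀ a ∈ S, Rg δ X (n + a) then (1:ℝ) else 0) *
        (((Icc 1 H).filter (fun d => ∀ a ∈ S, Rg δ X (n + d + a))).card : ℝ)) =
      ∑ d ∈ Icc 1 H, Phi ((n:ℝ) / X) * (if ∀ a ∈ sh S d, Rg δ X (n + a) then (1:ℝ) else 0) := by
    intro n _
    rw [← mul_sum]
    congr 1
    rw [card_filter]
    push_cast
    rw [mul_sum]
    apply sum_congr rfl
    intro d _
    have e : (∀ a ∈ sh S d, Rg δ X (n + a)) ↔ (∀ a ∈ S, Rg δ X (n + a)) ∧ (∀ a ∈ S, Rg δ X (n + d + a)) := by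
      rw [mem_sh (fun a => Rg δ X (n + a))]
      apply and_congr Iff.rfl
      apply forall_congr'
      intro s
      rw [show n + (s + d) = n + d + s by ring]
    by_cases ha : ∀ a ∈ S, Rg δ X (n + a)
    · by_cases hb : ∀ a ∈ S, Rg δ X (n + d + a)
      · rw [if_pos ha, if_pos hb, if_pos (e.2 ⟨ha, hb⟩), one_mul]
      · rw [if_neg hb, if_neg (fun h => hb (e.1 h).2), mul_zero]
    · rw [if_neg ha, if_neg (fun h => ha (e.1 h).1), zero_mul]
  rw [sum_congr rfl h1, sum_comm]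
  have h2 : ∀ d ∈ Icc 1 H, ∑ n ∈ I, Phi ((n:ℝ) / X) * (if ∀ a ∈ sh S d, Rg δ X (n + a) then (1:ℝ) else 0) ≤
      (if ¬ (sh S d).card = 2 * S.card then g * (CK * UU J X y) else 0) +
        (Uni.gT W (sh S d) : ℝ) * (C2 * UU (2 * J) X y) := by
    intro d hd
    rw [mem_Icc] at hd
    by_cases hdD : ¬ (sh S d).card = 2 * S.card
    · rw [if_pos hdD]
      have k1 : ∑ n ∈ I, Phi ((n:ℝ) / X) * (if ∀ a ∈ S, Rg δ X (n + a) then (1:ℝ) else 0) ≤ g * (CK * UU J X y) :=
        up_le huK hy S hS (fun a ha => by have := hSH a ha; omega)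
      have k2 : ∑ n ∈ I, Phi ((n:ℝ) / X) * (if ∀ a ∈ sh S d, Rg δ X (n + a) then (1:ℝ) else 0) ≤
          ∑ n ∈ I, Phi ((n:ℝ) / X) * (if ∀ a ∈ S, Rg δ X (n + a) then (1:ℝ) else 0) := by
        apply sum_le_sum
        intro n _
        apply mul_le_mul_of_nonneg_left _ (Phi_nonneg _)
        by_cases ha : ∀ a ∈ sh S d, Rg δ X (n + a)
        · rw [if_pos ha, if_pos ((mem_sh (fun a => Rg δ X (n + a))).1 ha).1]
        · rw [if_neg ha]
          split_ifs <;> norm_num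
      have k3 : 0 ≤ (Uni.gT W (sh S d) : ℝ) * (C2 * UU (2 * J) X y) := by positivity
      linarith
    · rw [if_neg hdD, zero_add]
      rw [not_not, hS] at hdD
      apply up_le hu2 hy (sh S d) hdD
      exact (mem_sh (fun a => a ≤ M)).2 ⟨fun s hs => by have := hSH s hs; omega,
          fun s hs => by have := hSH s hs; omega⟩
  calc _ ≤ ∑ d ∈ Icc 1 H, ((if ¬ (sh S d).card = 2 * S.card then g * (CK * UU J X y) else 0) +
        (Uni.gT W (sh S d) : ℝ) * (C2 * UU (2 * J) X y)) := sum_le_sum h2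
    _ = ∑ d ∈ Icc 1 H, (if ¬ (sh S d).card = 2 * S.card then g * (CK * UU J X y) else 0) +
        ((∑ d ∈ Icc 1 H, Uni.gT W (sh S d) : ℕ) : ℝ) * (C2 * UU (2 * J) X y) := by
        rw [sum_add_distrib, ← sum_mul]
        push_cast
        rfl
    _ ≤ (J:ℝ) ^ 2 * (g * (CK * UU J X y)) + (g ^ 2 * (((H / W : ℕ) : ℝ) + 1)) * (C2 * UU (2 * J) X y) := by
        have k4 : ∑ d ∈ Icc 1 H, (if ¬ (sh S d).card = 2 * S.card then g * (CK * UU J X y) else 0) ≤
            (J:ℝ) ^ 2 * (g * (CK * UU J X y)) := by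
          rw [← sum_filter, sum_const, nsmul_eq_mul]
          apply mul_le_mul_of_nonneg_right _ (by positivity)
          have k5 := bad_shifts S H
          rw [hS] at k5
          have k6 : (((Icc 1 H).filter (fun d => ¬ (sh S d).card = 2 * S.card)).card : ℝ) ≤ ((J ^ 2 : ℕ) : ℝ) := by
            rw [hS]
            exact_mod_cast k5
          rwa [Nat.cast_pow] at k6
        have k6 : ((∑ d ∈ Icc 1 H, Uni.gT W (sh S d) : ℕ) : ℝ) ≤ g ^ 2 * (((H / W : ℕ) : ℝ) + 1) := by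
          have := class_corr hWpos S H
          rw [hg]
          exact_mod_cast this
        have k7 := mul_le_mul_of_nonneg_right k6 (by positivity : 0 ≤ C2 * UU (2 * J) X y)
        linarith
    _ = _ := by ring

open Classical in
/-- the sparse set of the prime tuples -/
theorem coreT {J : ℕ} {δ CK C2 : ℝ} {N M y : ℕ} (hCK : 0 ≤ CK) (hC2 : 0 ≤ C2)
    (huK : Upp J δ CK N M y) (hu2 : Upp (2 * J) δ C2 N M y)
    (hy : (y:ℝ) ≤ Real.exp (δ * LL ((N:ℝ) / 4))) (hL : 0 ≤ LL ((N:ℝ) / 4)) (hX : 0 < (N:ℝ) / 4)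
    (hδ : Real.exp (δ * LL ((N:ℝ) / 4)) ≤ (N:ℝ) / 4)
    (S : Finset ℕ) (hS : S.card = J) (H : ℕ) (hSH : ∀ s ∈ S, s + H ≤ M) (R : ℝ) (hR0 : 0 < R)
    (hR : 2 * ((Uni.gT (Uni.WW y) S : ℝ) * ((J:ℝ) ^ 2 * (CK * UU J ((N:ℝ) / 4) y) +
        (Uni.gT (Uni.WW y) S : ℝ) * (((H / Uni.WW y : ℕ) : ℝ) + 1) * (C2 * UU (2 * J) ((N:ℝ) / 4) y))) ≤ R * MB.ST N S) :
    ∃ G : Finset ℕ,
      (∀ n ∈ G, (N:ℝ) / 4 < n ∧ (n:ℝ) ≤ 3 * ((N:ℝ) / 4) ∧ ∀ s ∈ S, (n + s).Prime) ∧
      (∀ a, ((G.filter (fun n => n ∈ Ioc a (a + H))).card : ℝ) ≤ R + 1) ∧ MB.ST N S ≤ G.card := by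
  classical
  set X := (N:ℝ) / 4 with hXd
  set I := Icc 1 ⌊3 * X⌋₊ with hI
  set A : ℕ → Prop := fun n => ∀ a ∈ S, Rg δ X (n + a) with hA
  set r : ℕ → ℝ := fun n => (((Icc 1 H).filter (fun d => A (n + d))).card : ℝ) with hr
  have hrough : ∀ n : ℕ, X < n → (∀ s ∈ S, (n + s).Prime) → A n := by
    intro n hn hp a ha p hp' hd
    rw [mem_PS] at hp'
    have h5 : p = n + a := (Nat.prime_dvd_prime_iff_eq hp'.1 (hp a ha)).1 hd
    have h6 := hp'.2
    rw [h5] at h6
    push_cast at h6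
    have h0 : (0:ℝ) ≤ a := Nat.cast_nonneg a
    linarith
  set G := I.filter (fun n : ℕ => X < (n : ℝ) ∧ (∀ s ∈ S, (n + s).Prime) ∧ r n ≤ R) with hG
  refine ⟨G, ?_, ?_, ?_⟩
  · intro n hn
    rw [hG, mem_filter, hI, mem_Icc] at hn
    obtain ⟨⟨_, hn2⟩, hn3, hn4, _⟩ := hn
    exact ⟨hn3, (Nat.le_floor_iff (by linarith)).1 hn2, hn4⟩
  · intro a
    apply sparse_card A G H R hR0.le
    · intro n hn
      have := (mem_filter.1 hn).2
      exact hrough n this.1 this.2.1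
    · intro n hn
      exact (mem_filter.1 hn).2.2.2
  · have hen := energyT huK hu2 hCK hC2 hL hy S hS H hSH
    set E := ∑ n ∈ I, Phi ((n:ℝ) / X) * ((if A n then 1 else 0) * r n) with hE
    have hE1 : 2 * E ≤ R * MB.ST N S := by
      refine le_trans ?_ hR
      have : E ≤ _ := hen
      linarith
    have hsplit : MB.ST N S ≤ (G.card : ℝ) / 2 + E / R := by
      have e1 : MB.ST N S ≤ ∑ n ∈ I, ((if n ∈ G then 1 / 2 else 0) + Phi ((n:ℝ) / X) * ((if A n then 1 else 0) * r n) / R) := by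
        unfold MB.ST
        apply sum_le_sum
        intro n hn
        have hPh := Phi_nonneg ((n:ℝ) / X)
        have hPh2 := Phi_le_half ((n:ℝ) / X)
        have hr0 : 0 ≤ r n := Nat.cast_nonneg _
        have hnn : 0 ≤ Phi ((n:ℝ) / X) * ((if A n then 1 else 0) * r n) / R := by
          apply div_nonneg _ hR0.le
          apply mul_nonneg hPh
          apply mul_nonneg _ hr0
          split_ifs <;> norm_num
        have e5 : (0:ℝ) ≤ if n ∈ G then 1 / 2 else 0 := by split_ifs <;> norm_num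
        change Phi ((n:ℝ) / X) * (if ∀ t ∈ S, (n + t).Prime then (1:ℝ) else 0) ≤ _
        by_cases hc : ∀ t ∈ S, (n + t).Prime
        · rw [if_pos hc, mul_one]
          by_cases hx : X < n
          · by_cases hrr : r n ≤ R
            · have hnG : n ∈ G := mem_filter.2 ⟨hn, hx, hc, hrr⟩
              rw [if_pos hnG]
              linarith
            · rw [if_pos (hrough n hx hc), one_mul]
              have e4 : Phi ((n:ℝ) / X) ≤ Phi ((n:ℝ) / X) * r n / R := by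
                rw [le_div_iff₀ hR0]
                exact mul_le_mul_of_nonneg_left (not_le.1 hrr).le hPh
              linarith
          · have e6 : Phi ((n:ℝ) / X) = 0 := by
              apply Phi_eq_zero_of_le (by positivity)
              rw [div_le_one hX]; exact not_lt.1 hx
            rw [e6]
            rw [zero_mul, zero_div, add_zero]
            exact e5
        · rw [if_neg hc, mul_zero]
          linarith
      refine e1.trans (le_of_eq ?_)
      rw [sum_add_distrib, ← sum_div, ← sum_filter, sum_const, nsmul_eq_mul]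
      have e7 : I.filter (fun n => n ∈ G) = G := by
        rw [filter_mem_eq_inter, inter_eq_right]
        exact filter_subset _ _
      rw [e7]
      ring
    have hER : E / R ≤ MB.ST N S / 2 := by
      rw [div_le_div_iff₀ hR0 (by norm_num)]
      linarith
    linarith

end Pool.Agent.U28.PG
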