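import Mathlib

set_option autoImplicit false

open Finset

namespace Pool.Agent.U28.PG

open Classical in
/-- **few elements start a poor interval** (greedy covering, the rising sun lemma) -/
lemma ladder (G : Finset ℕ) (N : ℕ) (τ : ℝ) (hτ : 0 ≤ τ) (hG : ∀ n ∈ G, n ≤ N) : ∀ (m a : ℕ), a + m = 2 * N + 1 →
    ((G.filter (fun n => a ≤ n ∧ ∃ H, 1 ≤ H ∧ H ≤ N ∧
      ((G.filter (fun x => n ≤ x ∧ x < n + H)).card : ℝ) < τ * H)).card : ℝ) ≤ τ * m := by
  intro m
  induction m using Nat.strong_induction_on with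
  | _ m ih =>
    intro a ha
    rcases Nat.eq_zero_or_pos m with h0 | h0
    · subst h0
      rw [filter_eq_empty_iff.2]
      · simp
      · intro n hn hc
        have := hG n hn
        omega
    · by_cases hbad : a ∈ G ∧ ∃ H, 1 ≤ H ∧ H ≤ N ∧ ((G.filter (fun x => a ≤ x ∧ x < a + H)).card : ℝ) < τ * H
      · obtain ⟨haG, H, hH1, hH2, hH3⟩ := hbad
        have haN := hG a haG
        have hHm : H ≤ m := by omega
        have h1 := ih (m - H) (by omega) (a + H) (by omega)
        have hsub : G.filter (fun n => a ≤ n ∧ ∃ H, 1 ≤ H ∧ H ≤ N ∧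
            ((G.filter (fun x => n ≤ x ∧ x < n + H)).card : ℝ) < τ * H) ⊆
            G.filter (fun x => a ≤ x ∧ x < a + H) ∪ G.filter (fun n => a + H ≤ n ∧ ∃ H, 1 ≤ H ∧ H ≤ N ∧
            ((G.filter (fun x => n ≤ x ∧ x < n + H)).card : ℝ) < τ * H) := by
          intro n hn
          rw [mem_filter] at hn
          rw [mem_union, mem_filter, mem_filter]
          by_cases h2 : n < a + H
          · exact Or.inl ⟨hn.1, hn.2.1, h2⟩
          · exact Or.inr ⟨hn.1, by omega, hn.2.2⟩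
        have h2 := (card_le_card hsub).trans (card_union_le _ _)
        have h3 : ((G.filter (fun n => a ≤ n ∧ ∃ H, 1 ≤ H ∧ H ≤ N ∧
            ((G.filter (fun x => n ≤ x ∧ x < n + H)).card : ℝ) < τ * H)).card : ℝ) ≤
            ((G.filter (fun x => a ≤ x ∧ x < a + H)).card : ℝ) + ((G.filter (fun n => a + H ≤ n ∧ ∃ H, 1 ≤ H ∧ H ≤ N ∧
            ((G.filter (fun x => n ≤ x ∧ x < n + H)).card : ℝ) < τ * H)).card : ℝ) := by
          exact_mod_cast h2
        have h4 : ((m - H : ℕ) : ℝ) = m - H := by rw [Nat.cast_sub hHm]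
        rw [h4] at h1
        linarith
      · have h1 := ih (m - 1) (by omega) (a + 1) (by omega)
        have hsub : G.filter (fun n => a ≤ n ∧ ∃ H, 1 ≤ H ∧ H ≤ N ∧
            ((G.filter (fun x => n ≤ x ∧ x < n + H)).card : ℝ) < τ * H) ⊆
            G.filter (fun n => a + 1 ≤ n ∧ ∃ H, 1 ≤ H ∧ H ≤ N ∧
            ((G.filter (fun x => n ≤ x ∧ x < n + H)).card : ℝ) < τ * H) := by
          intro n hn
          rw [mem_filter] at hn ⊢
          refine ⟨hn.1, ?_, hn.2.2⟩
          rcases hn.2.1.eq_or_lt with h2 | h2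
          · exact absurd ⟨h2 ▸ hn.1, h2 ▸ hn.2.2⟩ hbad
          · exact h2
        have h2 : ((G.filter (fun n => a ≤ n ∧ ∃ H, 1 ≤ H ∧ H ≤ N ∧
            ((G.filter (fun x => n ≤ x ∧ x < n + H)).card : ℝ) < τ * H)).card : ℝ) ≤
            ((G.filter (fun n => a + 1 ≤ n ∧ ∃ H, 1 ≤ H ∧ H ≤ N ∧
            ((G.filter (fun x => n ≤ x ∧ x < n + H)).card : ℝ) < τ * H)).card : ℝ) := by
          exact_mod_cast card_le_card hsub
        have h4 : ((m - 1 : ℕ) : ℝ) ≤ m := by exact_mod_cast Nat.sub_le _ _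
        have h5 := mul_le_mul_of_nonneg_left h4 hτ
        linarith

open Classical in
/-- **a positive proportion of the starting points is good at all scales** -/
theorem all_scales (G : Finset ℕ) (N H0 : ℕ) (hN : 1 ≤ N) (hH0 : 1 ≤ H0) (hG : ∀ n ∈ G, H0 ≤ n ∧ n ≤ N)
    (R c : ℝ) (hR : 0 < R)
    (hc : 0 < c) (hsp : ∀ a, ((G.filter (fun n => n ∈ Ioc a (a + H0))).card : ℝ) ≤ R)
    (hcard : c * ((N : ℝ) / H0) ≤ G.card) :
    c / (8 * R) * N ≤ (((range (N + 1)).filter (fun n => ∀ H, H0 ≤ H → H ≤ N →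
      c / 8 * ((H : ℝ) / H0) ≤ ((G.filter (fun x => x ∈ Ioc n (n + H))).card : ℝ))).card : ℝ) := by
  have hH0' : (0:ℝ) < H0 := by exact_mod_cast hH0
  have hN' : (1:ℝ) ≤ N := by exact_mod_cast hN
  set τ : ℝ := c / (4 * H0) with hτ
  have hτ0 : 0 < τ := by positivity
  set Bad := G.filter (fun n => ∃ H, 1 ≤ H ∧ H ≤ N ∧
      ((G.filter (fun x => n ≤ x ∧ x < n + H)).card : ℝ) < τ * H) with hBad
  set Gs := G.filter (fun n => ¬ ∃ H, 1 ≤ H ∧ H ≤ N ∧
      ((G.filter (fun x => n ≤ x ∧ x < n + H)).card : ℝ) < τ * H) with hGs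
  have hbad : (Bad.card : ℝ) ≤ (3 * c / 4) * ((N : ℝ) / H0) := by
    have h := ladder G N τ hτ0.le (fun n hn => (hG n hn).2) (2 * N + 1) 0 (by ring)
    have e : G.filter (fun n => 0 ≤ n ∧ ∃ H, 1 ≤ H ∧ H ≤ N ∧
      ((G.filter (fun x => n ≤ x ∧ x < n + H)).card : ℝ) < τ * H) = Bad := by
      rw [hBad]
      apply filter_congr
      intro n _
      simp
    rw [e] at h
    refine h.trans ?_
    push_cast
    rw [hτ]
    have e2 : c / (4 * (H0:ℝ)) * (2 * N + 1) ≤ c / (4 * (H0:ℝ)) * (3 * N) :=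
      mul_le_mul_of_nonneg_left (by linarith) (by positivity)
    refine e2.trans (le_of_eq ?_)
    field_simp
  have hGsc : c / 4 * ((N : ℝ) / H0) ≤ Gs.card := by
    have h1 : Bad.card + Gs.card = G.card := card_filter_add_card_filter_not _
    have h2 : (Bad.card : ℝ) + Gs.card = G.card := by exact_mod_cast h1
    linarith
  set h := (H0 + 1) / 2 with hh
  have hh1 : 1 ≤ h := by omega
  have hh2 : H0 ≤ 2 * h := by omega
  have hh3 : 2 * h ≤ H0 + 1 := by omega
  set Sg := (range (N + 1)).filter (fun n => ∃ g ∈ Gs, n < g ∧ g ≤ n + h) with hSg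
  have hsub : Sg ⊆ (range (N + 1)).filter (fun n => ∀ H, H0 ≤ H → H ≤ N →
      c / 8 * ((H : ℝ) / H0) ≤ ((G.filter (fun x => x ∈ Ioc n (n + H))).card : ℝ)) := by
    intro n hn
    rw [hSg, mem_filter] at hn
    obtain ⟨hn1, g, hg, hng, hgn⟩ := hn
    rw [mem_filter]
    refine ⟨hn1, fun H hH1 hH2 => ?_⟩
    rw [hGs, mem_filter] at hg
    have h1 : τ * ((n + H + 1 - g : ℕ) : ℝ) ≤ ((G.filter (fun x => g ≤ x ∧ x < g + (n + H + 1 - g))).card : ℝ) := by
      by_contra hc'
      exact hg.2 ⟨n + H + 1 - g, by omega, by omega, not_le.1 hc'⟩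
    have h2 : (G.filter (fun x => g ≤ x ∧ x < g + (n + H + 1 - g))).card ≤ (G.filter (fun x => x ∈ Ioc n (n + H))).card := by
      apply card_le_card
      intro x hx
      rw [mem_filter] at hx ⊢
      rw [mem_Ioc]
      exact ⟨hx.1, by omega, by omega⟩
    have h2' : ((G.filter (fun x => g ≤ x ∧ x < g + (n + H + 1 - g))).card : ℝ) ≤ ((G.filter (fun x => x ∈ Ioc n (n + H))).card : ℝ) := by
      exact_mod_cast h2
    have h3 : (H:ℝ) ≤ 2 * ((n + H + 1 - g : ℕ) : ℝ) := by
      have : H ≤ 2 * (n + H + 1 - g) := by omega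
      exact_mod_cast this
    calc c / 8 * ((H : ℝ) / H0) = τ * (H / 2) := by rw [hτ]; field_simp; ring
      _ ≤ τ * ((n + H + 1 - g : ℕ) : ℝ) := mul_le_mul_of_nonneg_left (by linarith) hτ0.le
      _ ≤ _ := h1.trans h2'
  have hdc : ((h * Gs.card : ℕ) : ℝ) ≤ Sg.card * R := by
    have e1 : ∑ g ∈ Gs, (Sg.filter (fun n => n < g ∧ g ≤ n + h)).card =
        ∑ n ∈ Sg, (Gs.filter (fun g => n < g ∧ g ≤ n + h)).card := by
      simp only [card_filter]
      exact sum_comm
    have e2 : ∑ g ∈ Gs, (Sg.filter (fun n => n < g ∧ g ≤ n + h)).card = h * Gs.card := by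
      rw [mul_comm, ← smul_eq_mul]
      apply sum_const_nat
      intro g hg
      have hgG := hG g (filter_subset _ _ hg)
      have : Sg.filter (fun n => n < g ∧ g ≤ n + h) = Ico (g - h) g := by
        ext n
        rw [mem_filter, mem_Ico, hSg, mem_filter, mem_range]
        constructor
        · rintro ⟨_, h1, h2⟩
          omega
        · rintro ⟨h1, h2⟩
          refine ⟨⟨by omega, g, hg, h2, by omega⟩, h2, by omega⟩
      rw [this, Nat.card_Ico]
      omega
    rw [← e2, e1]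
    push_cast
    rw [← nsmul_eq_mul]
    apply sum_le_card_nsmul
    intro n _
    refine le_trans ?_ (hsp n)
    have : (Gs.filter (fun g => n < g ∧ g ≤ n + h)).card ≤ (G.filter (fun x => x ∈ Ioc n (n + H0))).card := by
      apply card_le_card
      intro g hg
      rw [mem_filter] at hg ⊢
      rw [mem_Ioc]
      exact ⟨filter_subset _ _ hg.1, hg.2.1, by omega⟩
    exact_mod_cast this
  have hfin : c / (8 * R) * N ≤ Sg.card := by
    rw [div_mul_eq_mul_div, div_le_iff₀ (by positivity)]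
    have h1 : (H0:ℝ) ≤ 2 * h := by exact_mod_cast hh2
    have h2 : (H0:ℝ) * (c / 4 * ((N : ℝ) / H0)) ≤ 2 * h * Gs.card :=
      mul_le_mul h1 hGsc (by positivity) (by positivity)
    have h3 : (H0:ℝ) * (c / 4 * ((N : ℝ) / H0)) = c * N / 4 := by field_simp
    push_cast at hdc
    rw [h3] at h2
    linarith
  refine hfin.trans ?_
  exact_mod_cast card_le_card hsub

open Classical in
/-- the same for a shifted set and a property of its elements -/
theorem to_scales (P : ℕ → Prop) (G : Finset ℕ) (N H0 m : ℕ) (hN : 1 ≤ N)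
    (hG : ∀ n ∈ G, H0 ≤ n ∧ n + m ≤ N ∧ P (n + m)) (hH0 : 1 ≤ H0) (R c1 Lk : ℝ) (hR : 0 < R)
    (hc : 0 < c1) (hsp : ∀ a, ((G.filter (fun n => n ∈ Ioc a (a + H0))).card : ℝ) ≤ R)
    (hcard : c1 * ((N : ℝ) / H0) ≤ G.card) (hLk : 0 < Lk) (hLk2 : (H0 : ℝ) ≤ 2 * Lk) :
    min (c1 / (8 * R)) (c1 / 16) * N ≤
      (((range (N + 1)).filter (fun n => ∀ H, H0 ≤ H → H ≤ N → min (c1 / (8 * R)) (c1 / 16) * ((H : ℝ) / Lk) ≤
        (((Ioc n (n + H)).filter P).card : ℝ))).card : ℝ) := by
  set G' := G.image (fun n => n + m) with hG'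
  have hinj : Function.Injective (fun n : ℕ => n + m) := fun a b h => by simpa using h
  have hcard' : G'.card = G.card := card_image_of_injective _ hinj
  have hGN : ∀ n ∈ G', H0 ≤ n ∧ n ≤ N := by
    intro n hn
    rw [hG', mem_image] at hn
    obtain ⟨n', hn', rfl⟩ := hn
    obtain ⟨g1, g2, _⟩ := hG n' hn'
    exact ⟨by omega, g2⟩
  have hsp' : ∀ a, ((G'.filter (fun n => n ∈ Ioc a (a + H0))).card : ℝ) ≤ R := by
    intro a
    refine le_trans ?_ (hsp (a - m))
    have : (G'.filter (fun n => n ∈ Ioc a (a + H0))).card ≤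
        (G.filter (fun n => n ∈ Ioc (a - m) (a - m + H0))).card := by
      apply card_le_card_of_injOn (fun n => n - m)
      · intro n hn
        rw [mem_coe, mem_filter, mem_image] at hn
        obtain ⟨⟨n', hn', rfl⟩, hn2⟩ := hn
        have g1 := (hG n' hn').1
        rw [mem_Ioc] at hn2
        rw [mem_coe, mem_filter, mem_Ioc]
        simp only [Nat.add_sub_cancel]
        exact ⟨hn', by omega, by omega⟩
      · intro n hn n' hn' he
        rw [mem_coe, mem_filter, mem_image] at hn hn'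
        obtain ⟨⟨a, _, rfl⟩, _⟩ := hn
        obtain ⟨⟨b, _, rfl⟩, _⟩ := hn'
        simpa using he
    exact_mod_cast this
  have hmb := all_scales G' N H0 hN hH0 hGN R c1 hR hc hsp' (by rw [hcard']; exact hcard)
  have hH0' : (0:ℝ) < H0 := by exact_mod_cast hH0
  calc min (c1 / (8 * R)) (c1 / 16) * (N : ℝ) ≤ c1 / (8 * R) * N :=
        mul_le_mul_of_nonneg_right (min_le_left _ _) (by positivity)
    _ ≤ _ := hmb
    _ ≤ _ := by
        have hsub : (range (N + 1)).filter (fun n => ∀ H, H0 ≤ H → H ≤ N →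
            c1 / 8 * ((H : ℝ) / H0) ≤ ((G'.filter (fun x => x ∈ Ioc n (n + H))).card : ℝ)) ⊆
            (range (N + 1)).filter (fun n => ∀ H, H0 ≤ H → H ≤ N → min (c1 / (8 * R)) (c1 / 16) * ((H : ℝ) / Lk) ≤
              (((Ioc n (n + H)).filter P).card : ℝ)) := by
          intro i hi
          rw [mem_filter] at hi ⊢
          refine ⟨hi.1, fun H hH1 hH2 => ?_⟩
          have hHpos : (0:ℝ) < H := by exact_mod_cast (hH0.trans hH1)
          have h3 : min (c1 / (8 * R)) (c1 / 16) * ((H : ℝ) / Lk) ≤ c1 / 8 * ((H : ℝ) / H0) := by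
            calc min (c1 / (8 * R)) (c1 / 16) * ((H : ℝ) / Lk) ≤ c1 / 16 * ((H : ℝ) / Lk) :=
                  mul_le_mul_of_nonneg_right (min_le_right _ _) (by positivity)
              _ = c1 / 8 * ((H : ℝ) / (2 * Lk)) := by field_simp; ring
              _ ≤ _ := by
                  apply mul_le_mul_of_nonneg_left _ (by positivity)
                  exact div_le_div_of_nonneg_left hHpos.le hH0' hLk2
          refine h3.trans ((hi.2 H hH1 hH2).trans ?_)
          have h4 : G'.filter (fun n => n ∈ Ioc i (i + H)) ⊆ (Ioc i (i + H)).filter P := by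
            intro n hn
            rw [mem_filter, mem_image] at hn
            obtain ⟨⟨n', hn', rfl⟩, hn2⟩ := hn
            exact mem_filter.2 ⟨hn2, (hG n' hn').2.2⟩
          exact_mod_cast card_le_card h4
        exact_mod_cast card_le_card hsub

end Pool.Agent.U28.PG
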