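import Pool.Agent.H387R2.MB15
import Pool.Agent.U28.PG.HL1
import Pool.Agent.U28.PG.Ladder

set_option autoImplicit false

open Finset Filter Topology

/-! The theorem `base` is `Pool.Agent.H387R2.MB.everyScale` of the starting files with the smoothed
count in the place of the sharp one; its proof is copied from there. -/

namespace Pool.Agent.U28.PG

open Pool.Agent.H378R2 Pool.Agent.H387R2 Pool.Agent.H387R2.MB

open Classical in
/-- **Positive proportion at every scale** -/
theorem base (k : ℕ) {lam : ℝ} (hlam : 0 < lam) : ∃ κ : ℝ, 0 < κ ∧ ∀ (q : ℕ) (_ : 1 ≤ q) (C : ℝ),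
    ∀ᶠ N : ℕ in atTop, ∀ (c : ℕ) (A : Finset ℕ), (∀ a ∈ A, a ≡ c [MOD q]) →
      (∀ a ∈ A, (a : ℝ) ≤ Real.log N ^ C) → lam * ((Nat.totient q : ℝ) / q) * Real.log N ≤ A.card →
      κ * ((q : ℝ) / Nat.totient q) ^ k * (A.card : ℝ) ^ (k + 1) ≤ ∑ T ∈ A.powersetCard (k + 1), Uni.CT T ∧
      κ * ∑ T ∈ A.powersetCard (k + 1), Uni.CT T ≤
        ∑ T ∈ (A.powersetCard (k + 1)).filter
          (fun T => κ * Uni.CT T * (N / Real.log N ^ (k + 1)) ≤ MB.ST N T), Uni.CT T := by
  obtain ⟨c, hc, hmain⟩ := main_low k hlam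
  obtain ⟨C1, hC1, hupp⟩ := upp_eventually (k + 1) (δ := 1 / 10) (by norm_num)
  set B : ℝ := 2 ^ ((k + 1) * (k + 1)) with hB
  have hB0 : 0 < B := by positivity
  set c3 : ℝ := 200 ^ (k + 1) / (80 * B) with hc3
  have hc30 : 0 < c3 := by positivity
  set C4 : ℝ := 400 ^ (k + 1) with hC4
  have hC40 : 0 < C4 := by positivity
  set c5 : ℝ := (1 / 2) ^ (k + 1) / (3 / 2) ^ k / (k + 1).factorial / 2 with hc5
  have hc50 : 0 < c5 := by positivity
  set a : ℝ := c * c3 with ha
  have ha0 : 0 < a := by positivity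
  set b : ℝ := C1 * C4 with hb
  have hb0 : 0 < b := by positivity
  set κ : ℝ := min c5 (min (a / (2 * b)) (a / 4)) with hκ
  have hκ0 : 0 < κ := lt_min hc50 (lt_min (by positivity) (by positivity))
  have hκ1 : κ ≤ c5 := min_le_left _ _
  have hκ2 : κ ≤ a / (2 * b) := (min_le_right _ _).trans (min_le_left _ _)
  have hκ3 : κ ≤ a / 4 := (min_le_right _ _).trans (min_le_right _ _)
  refine ⟨κ, hκ0, fun q hq C => ?_⟩
  have tN : Tendsto (fun N : ℕ => (N : ℝ)) atTop atTop := tendsto_natCast_atTop_atTop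
  have tL : Tendsto (fun N : ℕ => Real.log (N : ℝ)) atTop atTop := Real.tendsto_log_atTop.comp tN
  have tu : Tendsto (fun N : ℕ => Real.log (Real.log (N : ℝ))) atTop atTop := Real.tendsto_log_atTop.comp tL
  have ty : Tendsto (fun N : ℕ => ⌊Real.log (Real.log (N : ℝ))⌋₊) atTop atTop :=
    tendsto_nat_floor_atTop.comp tu
  have tX : Tendsto (fun N : ℕ => (N : ℝ) / 4) atTop atTop := tN.atTop_div_const (by norm_num)
  filter_upwards [CT_sum_ge k hlam q hq C, hmain q hq C, hupp C, Uni.par_eventually k C (by norm_num : (0:ℝ) < 1 / 2) (by norm_num) q,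
    M_le_sqrt C, (LL_tendsto.comp tX).eventually_ge_atTop 1,
    tX.eventually_ge_atTop (40 + (k + 1)), ty.eventually_ge_atTop (2 * (k + 1) ^ 2), tu.eventually_ge_atTop 1,
    tN.eventually (Uni.log_pow_small 1 (η := 1 / 4) (by norm_num))]
    with N hsumCT h1 h2 hP h5 h6 h7 h8 h10 h11
  intro r A hAr hAM' hcard
  have hAM : ∀ a ∈ A, a ≤ ⌊Real.log N ^ C⌋₊ := fun a ha => Nat.le_floor (hAM' a ha)
  set M := ⌊Real.log N ^ C⌋₊ with hM
  set X := (N:ℝ) / 4 with hX
  set y := ⌊Real.log (Real.log (N:ℝ))⌋₊ with hy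
  set W := Uni.WW y with hW
  set L := Real.log (N:ℝ) with hL
  have hL1 : 1 ≤ L := hP.hL
  have hL0 : 0 < L := by linarith
  have hLL1 : 1 ≤ LL X := h6
  have hLL0 : 0 < LL X := by linarith
  have hρ := rho_pos y
  have hρ1 := rho_le_one y
  have hWpos : 0 < W := Uni.WW_pos y
  have hW0 : (0:ℝ) < W := by exact_mod_cast hWpos
  have hk0 : (0:ℝ) ≤ k := Nat.cast_nonneg k
  have hX40 : 40 ≤ X := by linarith
  have hX0 : 0 < X := by linarith
  have hNX : (N:ℝ) = 4 * X := by rw [hX]; ring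
  have hLLL : L ≤ 400 * LL X := by
    have := log4X (by linarith : 4 ≤ X)
    rw [← hNX] at this
    exact this
  have hLLL2 : 200 * LL X ≤ L := by
    unfold LL
    rw [show 200 * (Real.log X / 200) = Real.log X by ring, hL]
    apply Real.log_le_log hX0
    linarith
  have hy1 : 1 ≤ y := by
    have : 1 ≤ (k + 1) ^ 2 := Nat.one_le_pow _ _ (by omega)
    omega
  have hy0 : (0:ℝ) < y := by exact_mod_cast hy1
  set u := Real.log (Real.log (N:ℝ)) with hu
  have hu0 : 0 < u := by linarith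
  have hyu : (y:ℝ) ≤ u := Nat.floor_le hu0.le
  have huL : u ≤ L := by
    rw [hu]
    exact (Real.log_le_sub_one_of_pos hL0).trans (by linarith)
  have hLX : L ≤ X := by
    rw [Real.rpow_one] at h11
    rw [hX, hL]
    linarith
  set V : ℝ := N / L ^ (k + 1) with hV
  have hV0 : 0 ≤ V := by positivity
  -- comparison of the local counts with the constants
  have hφW : ((W : ℝ) / Nat.totient W) = 1 / rho y := by
    unfold rho
    rw [← hW, one_div_div]
  have hMl : X / 20 ≤ MPhi X := MPhi_ge X hX40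
  have hMu : MPhi X ≤ 2 * X := MPhi_le X (by linarith)
  have hUe : ∀ g : ℝ, g * UU (k + 1) X y = ((1 / rho y) ^ (k + 1) * (g / W)) * (MPhi X / LL X ^ (k + 1)) := by
    intro g
    unfold UU
    rw [← hW, mul_pow, one_div_pow]
    field_simp
  have hr1 : (200:ℝ) ^ (k + 1) / 80 * V ≤ MPhi X / LL X ^ (k + 1) := by
    rw [hV, hNX]
    have : (200:ℝ) ^ (k + 1) / 80 * (4 * X / L ^ (k + 1)) = (X / 20) / (L / 200) ^ (k + 1) := by
      rw [div_pow]; field_simp; ring
    rw [this]
    apply div_le_div₀ (MPhi_nonneg X) hMl (by positivity)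
    apply pow_le_pow_left₀ hLL0.le
    linarith
  have hr2 : MPhi X / LL X ^ (k + 1) ≤ (400:ℝ) ^ (k + 1) / 2 * V := by
    rw [hV, hNX]
    have : (400:ℝ) ^ (k + 1) / 2 * (4 * X / L ^ (k + 1)) = (2 * X) / (L / 400) ^ (k + 1) := by
      rw [div_pow]; field_simp; ring
    rw [this]
    apply div_le_div₀ (by positivity) hMu (by positivity)
    apply pow_le_pow_left₀ (by positivity)
    linarith
  have hlo : ∀ T ∈ A.powersetCard (k + 1), c3 * V * Uni.CT T ≤ (Uni.gT W T : ℝ) * UU (k + 1) X y := by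
    intro T hT
    rw [mem_powersetCard] at hT
    have k1 := Uni.CT_le T y (K := 2) (by norm_num) (M := M) (fun t ht => hAM t (hT.1 ht))
      (fun n hn1 hn2 => (hP.htt n hn1 hn2).trans (by norm_num))
    rw [hT.2, ← hW, hφW, ← hB] at k1
    rw [hUe]
    set z := (1 / rho y) ^ (k + 1) * ((Uni.gT W T : ℝ) / W) with hz
    have hz0 : 0 ≤ z := by positivity
    calc c3 * V * Uni.CT T ≤ c3 * V * (B * z) := mul_le_mul_of_nonneg_left k1 (by positivity)
      _ = z * ((200:ℝ) ^ (k + 1) / 80 * V) := by rw [hc3]; field_simp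
      _ ≤ z * (MPhi X / LL X ^ (k + 1)) := mul_le_mul_of_nonneg_left hr1 hz0
  have hhi : ∀ T ∈ A.powersetCard (k + 1), (Uni.gT W T : ℝ) * UU (k + 1) X y ≤ C4 * V * Uni.CT T := by
    intro T hT
    rw [mem_powersetCard] at hT
    have k1 := Uni.CT_ge T y hy1 (by rw [hT.2]; exact h8)
    rw [hT.2, ← hW, hφW] at k1
    rw [hUe]
    set z := (1 / rho y) ^ (k + 1) * ((Uni.gT W T : ℝ) / W) with hz
    have hz0 : 0 ≤ z := by positivity
    calc z * (MPhi X / LL X ^ (k + 1)) ≤ z * ((400:ℝ) ^ (k + 1) / 2 * V) := mul_le_mul_of_nonneg_left hr2 hz0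
      _ = C4 * V * (z / 2) := by rw [hC4]; ring
      _ ≤ C4 * V * Uni.CT T := mul_le_mul_of_nonneg_left k1 (by positivity)
  have hCT : ∀ T ∈ A.powersetCard (k + 1), 0 ≤ Uni.CT T := fun T _ => Uni.CT_nonneg T
  -- the three properties of `ST`
  have p1 : a * ∑ T ∈ A.powersetCard (k + 1), V * Uni.CT T ≤ ∑ T ∈ A.powersetCard (k + 1), MB.ST N T := by
    refine le_trans ?_ (h1 r A hAr hAM hcard)
    rw [ha, mul_sum, mul_sum]
    apply sum_le_sum
    intro T hT
    have := mul_le_mul_of_nonneg_left (hlo T hT) hc.le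
    calc c * c3 * (V * Uni.CT T) = c * (c3 * V * Uni.CT T) := by ring
      _ ≤ _ := this
      _ = _ := by ring
  have hMX : (M:ℝ) ≤ X := by
    refine h5.trans ?_
    rw [Real.sqrt_le_left hX0.le, sq]
    calc X = X * 1 := (mul_one X).symm
      _ ≤ X * X := mul_le_mul_of_nonneg_left (by linarith) hX0.le
  have p2 : ∀ T ∈ A.powersetCard (k + 1), MB.ST N T ≤ b * (V * Uni.CT T) := by
    intro T hT
    have hT' := mem_powersetCard.1 hT
    have k1 := ST_le h2 hC1.le T hT'.2 (fun t ht => hAM t (hT'.1 ht)) hLL0.le (hyu.trans (huL.trans hLX)) hX0 (by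
      calc Real.exp (1 / 10 * LL X) ≤ Real.exp (Real.log X) := by
            apply Real.exp_le_exp.2
            unfold LL
            have : 0 ≤ Real.log X := Real.log_nonneg (by linarith)
            linarith
        _ = X := Real.exp_log hX0)
    refine k1.trans ?_
    have := mul_le_mul_of_nonneg_left (hhi T hT) hC1.le
    calc (Uni.gT W T : ℝ) * (C1 * UU (k + 1) X y) = C1 * ((Uni.gT W T : ℝ) * UU (k + 1) X y) := by ring
      _ ≤ C1 * (C4 * V * Uni.CT T) := this
      _ = _ := by rw [hb]; ring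
  refine ⟨?_, ?_⟩
  · refine le_trans ?_ (hsumCT r A hAr hAM hcard)
    have : 0 ≤ ((q : ℝ) / Nat.totient q) ^ k := by positivity
    exact mul_le_mul_of_nonneg_right (mul_le_mul_of_nonneg_right hκ1 this) (pow_nonneg (Nat.cast_nonneg _) _)
  · have hN0 : (0:ℝ) < N := by rw [hNX]; exact mul_pos (by norm_num) hX0
    have hV1 : 0 < V := by positivity
    have k1 := proportion (A.powersetCard (k + 1)) (fun T => MB.ST N T) (fun T => V * Uni.CT T) ha0 hb0
      (fun T hT => mul_nonneg hV0 (hCT T hT)) p1 p2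
    have k2 : a / (2 * b) * ∑ T ∈ A.powersetCard (k + 1), Uni.CT T ≤
        ∑ T ∈ (A.powersetCard (k + 1)).filter (fun T => a / 2 * (V * Uni.CT T) ≤ MB.ST N T), Uni.CT T := by
      rw [← mul_sum, ← mul_sum] at k1
      have : V * (a / (2 * b) * ∑ T ∈ A.powersetCard (k + 1), Uni.CT T) ≤
        V * ∑ T ∈ (A.powersetCard (k + 1)).filter (fun T => a / 2 * (V * Uni.CT T) ≤ MB.ST N T), Uni.CT T := by
        refine le_trans (le_of_eq ?_) k1
        ring
      exact le_of_mul_le_mul_left this hV1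
    have k3 : κ * ∑ T ∈ A.powersetCard (k + 1), Uni.CT T ≤ a / (2 * b) * ∑ T ∈ A.powersetCard (k + 1), Uni.CT T :=
      mul_le_mul_of_nonneg_right hκ2 (sum_nonneg hCT)
    refine k3.trans (k2.trans ?_)
    apply sum_le_sum_of_subset_of_nonneg
    · intro T hT
      rw [mem_filter] at hT ⊢
      refine ⟨hT.1, ?_⟩
      have k4 := hCT T hT.1
      calc κ * Uni.CT T * (N / L ^ (k + 1)) ≤ a / 4 * Uni.CT T * V :=
            mul_le_mul_of_nonneg_right (mul_le_mul_of_nonneg_right hκ3 k4) hV0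
        _ ≤ a / 2 * Uni.CT T * V :=
            mul_le_mul_of_nonneg_right (mul_le_mul_of_nonneg_right (by linarith) k4) hV0
        _ = a / 2 * (V * Uni.CT T) := by ring
        _ ≤ MB.ST N T := hT.2
    · intro T hT _
      exact Uni.CT_nonneg T

end Pool.Agent.U28.PG
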