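import Pool.Agent.U28.PG.HL2
import Pool.Agent.U28.PG.Fin

set_option autoImplicit false

open Finset Filter Topology

namespace Pool.Agent.U28.PG

open Pool.Agent.H378R2 Pool.Agent.H387R2 Pool.Agent.H387R2.MB

open Classical in
/-- at least `c N` starting points `n ≤ N` are such that for ALL lengths `H ≤ N` with `1 ≤ μ H` the
interval `(n, n + H]` contains at least `c μ H` integers `m` with the property `P` -/
def AllLengths (c μ : ℝ) (N : ℕ) (P : ℕ → Prop) : Prop :=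
  c * N ≤ (((range (N + 1)).filter (fun n => ∀ H : ℕ, 1 ≤ μ * H → H ≤ N →
    c * (μ * H) ≤ (((Ioc n (n + H)).filter P).card : ℝ))).card : ℝ)

lemma AllLengths.mono {c c' μ : ℝ} {N : ℕ} {P : ℕ → Prop} (h : AllLengths c μ N P) (hc : c' ≤ c) (hμ : 0 ≤ μ) :
    AllLengths c' μ N P := by
  classical
  unfold AllLengths at h ⊢
  refine (mul_le_mul_of_nonneg_right hc (Nat.cast_nonneg N)).trans (h.trans ?_)
  have : (range (N + 1)).filter (fun n => ∀ H : ℕ, 1 ≤ μ * H → H ≤ N →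
      c * (μ * H) ≤ (((Ioc n (n + H)).filter P).card : ℝ)) ⊆
      (range (N + 1)).filter (fun n => ∀ H : ℕ, 1 ≤ μ * H → H ≤ N →
      c' * (μ * H) ≤ (((Ioc n (n + H)).filter P).card : ℝ)) := by
    intro n hn
    rw [mem_filter] at hn ⊢
    refine ⟨hn.1, fun H h1 h2 => ?_⟩
    exact (mul_le_mul_of_nonneg_right hc (by positivity)).trans (hn.2 H h1 h2)
  have h2 := card_le_card this
  refine le_trans (le_of_eq ?_) ((Nat.cast_le (α := ℝ)).2 h2 |>.trans (le_of_eq ?_))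
  · congr!
  · congr!

lemma four_le_exp : (4:ℝ) ≤ Real.exp (3 / 2) := by
  have h := Real.exp_one_gt_d9
  have h2 := Real.quadratic_le_exp_of_nonneg (show (0:ℝ) ≤ 1 / 2 by norm_num)
  have e : Real.exp (3 / 2) = Real.exp 1 * Real.exp (1 / 2) := by rw [← Real.exp_add]; norm_num
  rw [e]
  nlinarith

lemma W_le_exp {u : ℝ} (hu : 0 ≤ u) : (Uni.WW ⌊u⌋₊ : ℝ) ≤ Real.exp (3 / 2 * u) := by
  have h1 : (Uni.WW ⌊u⌋₊ : ℝ) ≤ (4:ℝ) ^ ⌊u⌋₊ := by exact_mod_cast Uni.WW_le ⌊u⌋₊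
  refine h1.trans ?_
  have h2 : (⌊u⌋₊ : ℝ) ≤ u := Nat.floor_le hu
  calc (4:ℝ) ^ ⌊u⌋₊ ≤ (Real.exp (3 / 2)) ^ ⌊u⌋₊ := pow_le_pow_left₀ (by norm_num) four_le_exp _
    _ = Real.exp (⌊u⌋₊ * (3 / 2)) := by rw [← Real.exp_nat_mul]
    _ ≤ Real.exp (3 / 2 * u) := Real.exp_le_exp.2 (by linarith)

lemma aux1 {L a : ℝ} (hL : 3 ≤ L) (ha : 1 ≤ a) : 4 * a + 1 ≤ a * (L * L) := by
  have h : 9 ≤ L * L := by nlinarith
  nlinarith

lemma aux2 {s H a b : ℝ} (h1 : s ≤ a) (h2 : H ≤ b) (ha : 1 ≤ a) (hb : 0 ≤ b) : s + H ≤ a * (b + 1) := by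
  nlinarith

lemma aux3 {g J2 CK U Q c : ℝ} (hg : 0 ≤ g) (h : Q ≤ c * U) :
    2 * (g * (J2 * (CK * U) + Q)) ≤ 2 * (J2 * CK + c) * (g * U) := by
  have := mul_le_mul_of_nonneg_left h hg
  nlinarith

open Classical in
lemma al_of {c Q μ : ℝ} {N H0 : ℕ} (P : ℕ → Prop) (hμ : 0 < μ) (hQ : Q = 1 / μ) (hH0 : H0 = ⌈Q⌉₊)
    (h : c * N ≤ (((range (N + 1)).filter (fun n => ∀ H, H0 ≤ H → H ≤ N → c * ((H : ℝ) / Q) ≤
        (((Ioc n (n + H)).filter P).card : ℝ))).card : ℝ)) : AllLengths c μ N P := by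
  unfold AllLengths
  refine h.trans ?_
  have hsub : (range (N + 1)).filter (fun n => ∀ H, H0 ≤ H → H ≤ N →
      c * ((H : ℝ) / Q) ≤ (((Ioc n (n + H)).filter P).card : ℝ)) ⊆
      (range (N + 1)).filter (fun n => ∀ H : ℕ, 1 ≤ μ * H → H ≤ N →
      c * (μ * H) ≤ (((Ioc n (n + H)).filter P).card : ℝ)) := by
    intro n hn
    rw [mem_filter] at hn ⊢
    refine ⟨hn.1, fun H hH1 hH2 => ?_⟩
    have k1 : Q ≤ H := by
      rw [hQ, div_le_iff₀ hμ, mul_comm]
      exact hH1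
    have k2 := hn.2 H (by rw [hH0]; exact Nat.ceil_le.2 k1) hH2
    refine le_trans (le_of_eq ?_) k2
    rw [hQ]
    field_simp
  exact_mod_cast card_le_card hsub

set_option maxHeartbeats 8000000 in
/-- **one pattern: from the total count to all short intervals** -/
theorem perT (k : ℕ) (hk : 1 ≤ k) {κ0 : ℝ} (hκ0 : 0 < κ0) : ∃ κ1 : ℝ, 0 < κ1 ∧ ∀ C : ℝ, ∀ᶠ N : ℕ in atTop,
    ∀ T : Finset ℕ, T.card = k + 1 → (∀ t ∈ T, (t : ℝ) ≤ Real.log N ^ C) → 0 < Uni.CT T →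
      κ0 * Uni.CT T * (N / Real.log N ^ (k + 1)) ≤ MB.ST N T →
      AllLengths κ1 (Uni.CT T / Real.log N ^ (k + 1)) N (fun m => ∀ t ∈ T, (m + t).Prime) := by
  classical
  set J := k + 1 with hJ
  obtain ⟨CK, hCK, huppK⟩ := upp_eventually J (δ := 1 / 10) (by norm_num)
  obtain ⟨C2, hC2, hupp2⟩ := upp_eventually (2 * J) (δ := 1 / 10) (by norm_num)
  set R : ℝ := 2 * 400 ^ J * ((J:ℝ) ^ 2 * CK + 8 * 400 ^ J * C2) / κ0 + 1 with hR
  have hR0 : 0 < R := by positivity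
  refine ⟨min (κ0 / (8 * (R + 1))) (κ0 / 16), lt_min (by positivity) (by positivity), fun C => ?_⟩
  have tN : Tendsto (fun N : ℕ => (N : ℝ)) atTop atTop := tendsto_natCast_atTop_atTop
  have tL : Tendsto (fun N : ℕ => Real.log (N : ℝ)) atTop atTop := Real.tendsto_log_atTop.comp tN
  have tu : Tendsto (fun N : ℕ => Real.log (Real.log (N : ℝ))) atTop atTop := Real.tendsto_log_atTop.comp tL
  have ty : Tendsto (fun N : ℕ => ⌊Real.log (Real.log (N : ℝ))⌋₊) atTop atTop :=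
    tendsto_nat_floor_atTop.comp tu
  have tX : Tendsto (fun N : ℕ => (N : ℝ) / 4) atTop atTop := tN.atTop_div_const (by norm_num)
  set C' : ℝ := |C| + (J + 4 : ℕ) with hC'
  have e4 : ∀ᶠ N : ℕ in atTop, Real.log (Real.log (N : ℝ)) ≤ 1 / 4000 * Real.log N := by
    have h := Real.isLittleO_log_id_atTop.def (show (0:ℝ) < 1 / 4000 by norm_num)
    filter_upwards [tL.eventually h, tL.eventually_ge_atTop 1] with N h1 h2
    simp only [id, Real.norm_eq_abs] at h1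
    rw [abs_of_pos (by linarith : (0:ℝ) < Real.log N)] at h1
    exact (le_abs_self _).trans h1
  have hBpow := tu.eventually (ev_pow_exp J (1 / 2) ((2:ℝ) ^ (J * J)) (by norm_num))
  filter_upwards [huppK C', hupp2 C', Uni.par_eventually 0 C (by norm_num : (0:ℝ) < 1 / 2) (by norm_num) 1,
    (LL_tendsto.comp tX).eventually_ge_atTop 1, tX.eventually_ge_atTop 40,
    ty.eventually_ge_atTop (2 * J ^ 2), tu.eventually_ge_atTop 1, hBpow, tL.eventually_ge_atTop 3,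
    tN.eventually (Uni.log_pow_small ((J + 2 : ℕ) : ℝ) (η := 1 / 16) (by norm_num)),
    tN.eventually (Uni.log_pow_small 1 (η := 1 / 4) (by norm_num)), e4]
    with N huK hu2 hP h4 h5 h6 h7 h8 h9 h10 h11 h12
  intro T hT hTC hCT hST
  set X := (N:ℝ) / 4 with hX
  set L := Real.log (N:ℝ) with hL
  set u := Real.log L with hu
  set y := ⌊u⌋₊ with hy
  set W := Uni.WW y with hW
  have hL0 : 0 < L := by linarith
  have hL1 : 1 ≤ L := by linarith
  have hLL1 : 1 ≤ LL X := h4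
  have hLL0 : 0 < LL X := by linarith
  have hρ := rho_pos y
  have hρ1 := rho_le_one y
  have hWpos : 0 < W := Uni.WW_pos y
  have hW0 : (0:ℝ) < W := by exact_mod_cast hWpos
  have hW1 : (1:ℝ) ≤ W := by exact_mod_cast hWpos
  have hX40 : 40 ≤ X := h5
  have hX0 : 0 < X := by linarith
  have hNX : (N:ℝ) = 4 * X := by rw [hX]; ring
  have hN0 : (0:ℝ) < N := by rw [hNX]; linarith only [hX0]
  have hLu : L = Real.exp u := by rw [hu, Real.exp_log hL0]
  have hLLL : L ≤ 400 * LL X := by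
    have := log4X (by linarith : 4 ≤ X)
    rw [← hNX] at this
    exact this
  have hy1 : 1 ≤ y := by
    have : 1 ≤ J ^ 2 := Nat.one_le_pow _ _ (by omega)
    omega
  have hyu : (y:ℝ) ≤ u := Nat.floor_le (by linarith)
  have huL : u ≤ L := by
    rw [hu]
    exact (Real.log_le_sub_one_of_pos hL0).trans (by linarith)
  have hLX : L ≤ X := by
    rw [Real.rpow_one] at h11
    rw [hX, hL]
    linarith
  have hJ2 : 2 ≤ J := by omega
  -- sizes
  have hWexp : (W:ℝ) ≤ Real.exp (3 / 2 * u) := W_le_exp (by linarith)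
  have hWL2 : (W:ℝ) ≤ L ^ 2 := by
    refine hWexp.trans ?_
    rw [hLu, ← Real.exp_nat_mul]
    apply Real.exp_le_exp.2
    push_cast
    linarith
  have hφW : ((W : ℝ) / Nat.totient W) = 1 / rho y := by
    unfold rho
    rw [← hW, one_div_div]
  set g : ℝ := (Uni.gT W T : ℝ) with hg
  have hg0 : 0 ≤ g := Nat.cast_nonneg _
  set z := (1 / rho y) ^ J * (g / W) with hz
  have hz0 : 0 ≤ z := by positivity
  have hzCT : z ≤ 2 * Uni.CT T := by
    have k1 := Uni.CT_ge T y hy1 (by rw [hT]; exact h6)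
    rw [hT, ← hW, hφW] at k1
    linarith
  have hTM : ∀ t ∈ T, t ≤ ⌊L ^ C⌋₊ := fun t ht => Nat.le_floor (hTC t ht)
  have hCTz : Uni.CT T ≤ 2 ^ (J * J) * z := by
    have k1 := Uni.CT_le T y (K := 2) (by norm_num) hTM
      (fun n hn1 hn2 => (hP.htt n hn1 hn2).trans (by norm_num))
    rw [hT, ← hW, hφW] at k1
    exact k1
  have hgpos : 0 < Uni.gT W T := by
    by_contra hc
    have h0 : Uni.gT W T = 0 := by omega
    have : z = 0 := by rw [hz, hg, h0]; simp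
    rw [this, mul_zero] at hCTz
    linarith
  have hg1 : 1 ≤ g := by rw [hg]; exact_mod_cast hgpos
  have hgW : g ≤ W := by
    rw [hg]
    have : Uni.gT W T ≤ W := by
      unfold Uni.gT
      exact (card_filter_le _ _).trans (by rw [card_range])
    exact_mod_cast this
  have hρinv : 1 ≤ 1 / rho y := by rw [one_le_div hρ]; exact hρ1
  -- upper bound of the constant
  have hCTup : Uni.CT T ≤ Real.exp (1 / 2 * u) := by
    refine hCTz.trans (le_trans ?_ h8)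
    apply mul_le_mul_of_nonneg_left _ (by positivity)
    have k1 : 1 / rho y ≤ u := by
      have := rho_ge hy1
      have hy0 : (0:ℝ) < y := by exact_mod_cast hy1
      rw [div_le_iff₀ hρ]
      calc (1:ℝ) = y * (1 / y) := by field_simp
        _ ≤ u * rho y := mul_le_mul hyu this (by positivity) (by linarith)
    have k2 : g / W ≤ 1 := by rw [div_le_one hW0]; exact hgW
    calc z ≤ u ^ J * 1 := by
          rw [hz]
          exact mul_le_mul (pow_le_pow_left₀ (by positivity) k1 _) k2 (by positivity) (by positivity)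
      _ = u ^ J := mul_one _
  have hWCT : (W:ℝ) * Uni.CT T ≤ L ^ J := by
    calc (W:ℝ) * Uni.CT T ≤ Real.exp (3 / 2 * u) * Real.exp (1 / 2 * u) :=
          mul_le_mul hWexp hCTup hCT.le (Real.exp_pos _).le
      _ = Real.exp (2 * u) := by rw [← Real.exp_add]; ring_nf
      _ = L ^ 2 := by rw [hLu, ← Real.exp_nat_mul]; norm_num
      _ ≤ L ^ J := pow_le_pow_right₀ hL1 hJ2
  -- lower bound of the constant
  have hCTlow : 1 / (2 * (W:ℝ)) ≤ Uni.CT T := by
    have k1 : 1 / (W:ℝ) ≤ z := by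
      calc 1 / (W:ℝ) ≤ g / W := div_le_div_of_nonneg_right hg1 hW0.le
        _ = 1 * (g / W) := (one_mul _).symm
        _ ≤ z := mul_le_mul_of_nonneg_right (one_le_pow₀ hρinv) (by positivity)
    have k2 : 1 / (2 * (W:ℝ)) = 1 / (W:ℝ) / 2 := by field_simp
    rw [k2]
    linarith
  -- the length
  set Q := L ^ J / Uni.CT T with hQ
  have hLJ : 0 < L ^ J := by positivity
  have hQ0 : 0 < Q := by positivity
  have hWQ : (W:ℝ) ≤ Q := by rw [hQ, le_div_iff₀ hCT]; exact hWCT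
  have hQ1 : 1 ≤ Q := hW1.trans hWQ
  set H0 := ⌈Q⌉₊ with hH0
  have hH01 : Q ≤ H0 := Nat.le_ceil _
  have hH02 : (H0:ℝ) ≤ 2 * Q := by
    have := Nat.ceil_lt_add_one hQ0.le
    linarith
  have hH0pos : 1 ≤ H0 := by
    have : (1:ℝ) ≤ H0 := hQ1.trans hH01
    exact_mod_cast this
  have hH0' : (0:ℝ) < H0 := by exact_mod_cast hH0pos
  have hQup : Q ≤ 2 * L ^ (J + 2) := by
    rw [hQ, div_le_iff₀ hCT]
    have k1 : 1 ≤ 2 * (W:ℝ) * Uni.CT T := by
      have := mul_le_mul_of_nonneg_left hCTlow (by positivity : (0:ℝ) ≤ 2 * W)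
      have e : 2 * (W:ℝ) * (1 / (2 * (W:ℝ))) = 1 := by field_simp
      linarith
    calc L ^ J = L ^ J * 1 := (mul_one _).symm
      _ ≤ L ^ J * (2 * (W:ℝ) * Uni.CT T) := mul_le_mul_of_nonneg_left k1 hLJ.le
      _ ≤ L ^ J * (2 * (L ^ 2) * Uni.CT T) := by gcongr
      _ = 2 * L ^ (J + 2) * Uni.CT T := by ring
  have hH0up : (H0:ℝ) ≤ 4 * L ^ (J + 2) := by linarith
  have hSH : ∀ s ∈ T, s + H0 ≤ ⌊L ^ C'⌋₊ := by
    intro s hs
    apply Nat.le_floor
    push_cast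
    have k1 : (s:ℝ) ≤ L ^ |C| := (hTC s hs).trans (Real.rpow_le_rpow_of_exponent_le hL1 (le_abs_self C))
    have k2 : L ^ C' = L ^ |C| * L ^ (J + 4) := by
      rw [hC', Real.rpow_add hL0, Real.rpow_natCast]
    have k3 : 1 ≤ L ^ |C| := Real.one_le_rpow hL1 (abs_nonneg C)
    have k4 : 4 * L ^ (J + 2) + 1 ≤ L ^ (J + 4) := by
      have k6 : L ^ (J + 4) = L ^ (J + 2) * (L * L) := by ring
      rw [k6]
      exact aux1 h9 (one_le_pow₀ hL1)
    have k5 : 0 ≤ 4 * L ^ (J + 2) := by positivity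
    rw [k2]
    exact (aux2 k1 hH0up k3 k5).trans (mul_le_mul_of_nonneg_left k4 (zero_le_one.trans k3))
  have hH0N : (H0:ℝ) ≤ N / 4 := by
    rw [Real.rpow_natCast] at h10
    have : L ^ (J + 2) ≤ 1 / 16 * N := h10
    linarith
  -- the condition on `R`
  have hV0 : 0 < (N:ℝ) / L ^ J := by positivity
  have hUJ : g * UU J X y = z * (MPhi X / LL X ^ J) := by
    unfold UU
    rw [← hW, hz, mul_pow, one_div_pow]
    field_simp
  have hMu : MPhi X ≤ 2 * X := MPhi_le X (by linarith)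
  have hr2 : MPhi X / LL X ^ J ≤ (400:ℝ) ^ J / 2 * (N / L ^ J) := by
    rw [hNX]
    have : (400:ℝ) ^ J / 2 * (4 * X / L ^ J) = (2 * X) / (L / 400) ^ J := by
      rw [div_pow]; field_simp; ring
    rw [this]
    apply div_le_div₀ (by positivity) hMu (by positivity)
    apply pow_le_pow_left₀ (by positivity)
    linarith
  have hgUU : g * UU J X y ≤ 400 ^ J * (N / L ^ J) * Uni.CT T := by
    rw [hUJ]
    calc z * (MPhi X / LL X ^ J) ≤ z * ((400:ℝ) ^ J / 2 * (N / L ^ J)) := mul_le_mul_of_nonneg_left hr2 hz0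
      _ ≤ (2 * Uni.CT T) * ((400:ℝ) ^ J / 2 * (N / L ^ J)) := mul_le_mul_of_nonneg_right hzCT (by positivity)
      _ = _ := by ring
  have hUU2 : g * UU (2 * J) X y = UU J X y * (z * W / LL X ^ J) := by
    unfold UU
    rw [← hW, alg6, hz, mul_pow, one_div_pow]
    field_simp
  have hUJ0 : 0 ≤ UU J X y := UU_nonneg J hLL0.le y
  have hratio : (((H0 / W : ℕ) : ℝ) + 1) * (z * W / LL X ^ J) ≤ 8 * 400 ^ J := by
    have k1 : ((H0 / W : ℕ) : ℝ) ≤ H0 / W := Nat.cast_div_le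
    have k2 : (((H0 / W : ℕ) : ℝ) + 1) * W ≤ 4 * Q := by
      calc (((H0 / W : ℕ) : ℝ) + 1) * W ≤ (H0 / W + 1) * W := by gcongr
        _ = H0 + W := by field_simp
        _ ≤ 4 * Q := by linarith
    have k3 : L ^ J ≤ 400 ^ J * LL X ^ J := by
      rw [← mul_pow]
      exact pow_le_pow_left₀ hL0.le hLLL _
    have k4 : 4 * Q * z ≤ 8 * L ^ J := by
      calc 4 * Q * z ≤ 4 * Q * (2 * Uni.CT T) := mul_le_mul_of_nonneg_left hzCT (by positivity)
        _ = 8 * L ^ J := by rw [hQ]; field_simp; ring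
    rw [← mul_div_assoc, div_le_iff₀ (by positivity)]
    calc (((H0 / W : ℕ) : ℝ) + 1) * (z * W) = ((((H0 / W : ℕ) : ℝ) + 1) * W) * z := by ring
      _ ≤ (4 * Q) * z := mul_le_mul_of_nonneg_right k2 hz0
      _ ≤ 8 * L ^ J := k4
      _ ≤ 8 * (400 ^ J * LL X ^ J) := by linarith
      _ = _ := by ring
  have hRR : 2 * (g * ((J:ℝ) ^ 2 * (CK * UU J X y) + g * (((H0 / W : ℕ) : ℝ) + 1) * (C2 * UU (2 * J) X y))) ≤
      R * MB.ST N T := by
    have k1 : g * (((H0 / W : ℕ) : ℝ) + 1) * (C2 * UU (2 * J) X y) ≤ 8 * 400 ^ J * C2 * UU J X y := by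
      calc g * (((H0 / W : ℕ) : ℝ) + 1) * (C2 * UU (2 * J) X y) =
          (((H0 / W : ℕ) : ℝ) + 1) * C2 * (g * UU (2 * J) X y) := by ring
        _ = ((((H0 / W : ℕ) : ℝ) + 1) * (z * W / LL X ^ J)) * (C2 * UU J X y) := by
            rw [hUU2]; ring
        _ ≤ (8 * 400 ^ J) * (C2 * UU J X y) := mul_le_mul_of_nonneg_right hratio (by positivity)
        _ = _ := by ring
    have k2 : 2 * (g * ((J:ℝ) ^ 2 * (CK * UU J X y) + g * (((H0 / W : ℕ) : ℝ) + 1) * (C2 * UU (2 * J) X y))) ≤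
        2 * ((J:ℝ) ^ 2 * CK + 8 * 400 ^ J * C2) * (g * UU J X y) := aux3 hg0 k1
    refine k2.trans ?_
    calc 2 * ((J:ℝ) ^ 2 * CK + 8 * 400 ^ J * C2) * (g * UU J X y) ≤
        2 * ((J:ℝ) ^ 2 * CK + 8 * 400 ^ J * C2) * (400 ^ J * (N / L ^ J) * Uni.CT T) :=
          mul_le_mul_of_nonneg_left hgUU (by positivity)
      _ = (2 * 400 ^ J * ((J:ℝ) ^ 2 * CK + 8 * 400 ^ J * C2) / κ0) * (κ0 * Uni.CT T * (N / L ^ J)) := by
          field_simp
      _ ≤ R * (κ0 * Uni.CT T * (N / L ^ J)) := by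
          apply mul_le_mul_of_nonneg_right _ (by positivity)
          rw [hR]; linarith
      _ ≤ R * MB.ST N T := mul_le_mul_of_nonneg_left hST hR0.le
  obtain ⟨G, hG1, hG2, hG3⟩ := coreT hCK.le hC2.le huK hu2
    (by
      have := Real.add_one_le_exp (1 / 10 * LL X)
      have k0 : u ≤ 1 / 4000 * L := h12
      linarith) hLL0.le hX0 (by
      calc Real.exp (1 / 10 * LL X) ≤ Real.exp (Real.log X) := by
            apply Real.exp_le_exp.2
            unfold LL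
            have : 0 ≤ Real.log X := Real.log_nonneg (by linarith)
            linarith
        _ = X := Real.exp_log hX0) T hT H0 hSH R hR0 hRR
  have hGc : κ0 * ((N : ℝ) / H0) ≤ G.card := by
    refine le_trans ?_ (hST.trans hG3)
    have : (N:ℝ) / H0 ≤ Uni.CT T * (N / L ^ J) := by
      rw [div_le_iff₀ hH0']
      calc (N:ℝ) = Uni.CT T * (N / L ^ J) * Q := by rw [hQ]; field_simp
        _ ≤ Uni.CT T * (N / L ^ J) * H0 := mul_le_mul_of_nonneg_left hH01 (by positivity)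
    calc κ0 * ((N : ℝ) / H0) ≤ κ0 * (Uni.CT T * (N / L ^ J)) := mul_le_mul_of_nonneg_left this hκ0.le
      _ = _ := by ring
  have hN1 : 1 ≤ N := by exact_mod_cast hN0
  have hts := to_scales (fun m => ∀ t ∈ T, (m + t).Prime) G N H0 0 hN1 (by
    intro n hn
    obtain ⟨g1, g2, g3⟩ := hG1 n hn
    refine ⟨?_, ?_, ?_⟩
    · have : (H0:ℝ) ≤ n := by linarith only [hH0N, g1]
      exact_mod_cast this
    · rw [add_zero]
      have : (n:ℝ) ≤ N := by linarith only [g2, hN0]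
      exact_mod_cast this
    · simpa using g3) hH0pos (R + 1) κ0 Q (by positivity) hκ0 hG2 hGc hQ0 hH02
  exact al_of _ (by positivity) (by rw [hQ, one_div_div]) hH0 hts

open Classical in
/-- **prime tuples in all short intervals for a positive proportion of the patterns of every set** -/
theorem main_all (k : ℕ) (hk : 1 ≤ k) {lam : ℝ} (hlam : 0 < lam) : ∃ κ : ℝ, 0 < κ ∧ ∀ (q : ℕ) (_ : 1 ≤ q) (C : ℝ),
    ∃ N₀ : ℕ, ∀ N : ℕ, N₀ ≤ N → ∀ (c : ℕ) (A : Finset ℕ), (∀ a ∈ A, a ≡ c [MOD q]) →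
      (∀ a ∈ A, (a : ℝ) ≤ Real.log N ^ C) → lam * ((Nat.totient q : ℝ) / q) * Real.log N ≤ A.card →
      κ * ((q : ℝ) / Nat.totient q) ^ k * (A.card : ℝ) ^ (k + 1) ≤
        ∑ T ∈ (A.powersetCard (k + 1)).filter (fun T =>
          AllLengths κ (Uni.CT T / Real.log N ^ (k + 1)) N (fun m => ∀ t ∈ T, (m + t).Prime)), Uni.CT T ∧
      κ * ∑ T ∈ A.powersetCard (k + 1), Uni.CT T ≤
        ∑ T ∈ (A.powersetCard (k + 1)).filter (fun T =>
          AllLengths κ (Uni.CT T / Real.log N ^ (k + 1)) N (fun m => ∀ t ∈ T, (m + t).Prime)), Uni.CT T := by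
  obtain ⟨κ0, hκ0, hbase⟩ := base k hlam
  obtain ⟨κ1, hκ1, hper⟩ := perT k hk hκ0
  set κ : ℝ := min (κ0 * κ0) (min κ0 κ1) with hκ
  have hκ00 : 0 < κ := lt_min (by positivity) (lt_min hκ0 hκ1)
  have e1 : κ ≤ κ0 * κ0 := min_le_left _ _
  have e2 : κ ≤ κ0 := (min_le_right _ _).trans (min_le_left _ _)
  have e3 : κ ≤ κ1 := (min_le_right _ _).trans (min_le_right _ _)
  refine ⟨κ, hκ00, fun q hq C => ?_⟩
  rw [← eventually_atTop]
  have tN : Tendsto (fun N : ℕ => (N : ℝ)) atTop atTop := tendsto_natCast_atTop_atTop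
  have tL : Tendsto (fun N : ℕ => Real.log (N : ℝ)) atTop atTop := Real.tendsto_log_atTop.comp tN
  filter_upwards [hbase q hq C, hper C, tL.eventually_ge_atTop 1] with N h1 h2 hL
  intro c A hAc hAC hA
  obtain ⟨h3, h4⟩ := h1 c A hAc hAC hA
  have hCT : ∀ T : Finset ℕ, 0 ≤ Uni.CT T := fun T => Uni.CT_nonneg T
  have hkey : ∑ T ∈ (A.powersetCard (k + 1)).filter
      (fun T => κ0 * Uni.CT T * (N / Real.log N ^ (k + 1)) ≤ MB.ST N T), Uni.CT T ≤
      ∑ T ∈ (A.powersetCard (k + 1)).filter (fun T =>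
          AllLengths κ (Uni.CT T / Real.log N ^ (k + 1)) N (fun m => ∀ t ∈ T, (m + t).Prime)), Uni.CT T := by
    rw [sum_filter, sum_filter]
    apply sum_le_sum
    intro T hT
    have hT' := mem_powersetCard.1 hT
    rcases (hCT T).eq_or_lt with h0 | h0
    · rw [← h0, ite_self, ite_self]
    · by_cases h5 : κ0 * Uni.CT T * (N / Real.log N ^ (k + 1)) ≤ MB.ST N T
      · have h6 := h2 T hT'.2 (fun t ht => hAC t (hT'.1 ht)) h0 h5
        rw [if_pos h5, if_pos (h6.mono e3 (by positivity))]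
      · rw [if_neg h5]
        split_ifs
        · exact hCT T
        · exact le_rfl
  have hS : 0 ≤ ∑ T ∈ A.powersetCard (k + 1), Uni.CT T := sum_nonneg fun T _ => hCT T
  refine ⟨?_, ?_⟩
  · refine le_trans ?_ hkey
    refine le_trans ?_ h4
    refine le_trans ?_ (mul_le_mul_of_nonneg_left h3 hκ0.le)
    have h7 : 0 ≤ ((q : ℝ) / Nat.totient q) ^ k * (A.card : ℝ) ^ (k + 1) := by positivity
    have := mul_le_mul_of_nonneg_right e1 h7
    calc _ = κ * (((q : ℝ) / Nat.totient q) ^ k * (A.card : ℝ) ^ (k + 1)) := by ring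
      _ ≤ _ := this
      _ = _ := by ring
  · refine le_trans ?_ hkey
    exact (mul_le_mul_of_nonneg_right e2 hS).trans h4

end Pool.Agent.U28.PG
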