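import Pool.Agent.U28.PG.HL3
import Pool.Agent.X34.E.E20
import Pool.Agent.X34.E.E4

set_option autoImplicit false

open Finset Filter Topology

namespace Pool.Agent.U28.PG

open Pool.Agent.H378R2 Pool.Agent.H387R2 Pool.Agent.H387R2.MB

open Classical in
/-- the energy of the rough translates of a fixed pattern, at the logarithmic scale -/
theorem fixE (J : ℕ) (hJ2 : 2 ≤ J) {δ : ℝ} (hδ : 0 < δ) (S : Finset ℕ) (hS : S.card = J) :
    ∃ C : ℝ, 0 < C ∧ ∀ᶠ N : ℕ in atTop, ∀ H : ℕ, (H : ℝ) ≤ 8 * Real.log N ^ J →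
      ∑ n ∈ Icc 1 ⌊3 * ((N:ℝ) / 4)⌋₊, Phi ((n:ℝ) / ((N:ℝ) / 4)) *
        ((if ∀ a ∈ S, Rg δ ((N:ℝ) / 4) (n + a) then 1 else 0) *
          (((Icc 1 H).filter (fun d => ∀ a ∈ S, Rg δ ((N:ℝ) / 4) (n + d + a))).card : ℝ)) ≤
      C * (N / Real.log N ^ J) := by
  classical
  obtain ⟨CK, hCK, huppK⟩ := upp_eventually J hδ
  obtain ⟨C2, hC2, hupp2⟩ := upp_eventually (2 * J) hδ
  obtain ⟨D, hD⟩ : ∃ D : ℕ, ∀ s ∈ S, s ≤ D := ⟨S.sup id, fun s hs => Finset.le_sup (f := id) hs⟩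
  refine ⟨((J:ℝ) ^ 2 * CK + 18 * 400 ^ J * |Uni.CT S| * C2 + 1) * (400 ^ J * (|Uni.CT S| + 1)), by positivity, ?_⟩
  have tN : Tendsto (fun N : ℕ => (N : ℝ)) atTop atTop := tendsto_natCast_atTop_atTop
  have tL : Tendsto (fun N : ℕ => Real.log (N : ℝ)) atTop atTop := Real.tendsto_log_atTop.comp tN
  have tu : Tendsto (fun N : ℕ => Real.log (Real.log (N : ℝ))) atTop atTop := Real.tendsto_log_atTop.comp tL
  have ty : Tendsto (fun N : ℕ => ⌊Real.log (Real.log (N : ℝ))⌋₊) atTop atTop :=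
    tendsto_nat_floor_atTop.comp tu
  have tX : Tendsto (fun N : ℕ => (N : ℝ) / 4) atTop atTop := tN.atTop_div_const (by norm_num)
  set C' : ℝ := ((J + 2 : ℕ) : ℝ) with hC'
  have e4 : ∀ᶠ N : ℕ in atTop, Real.log (Real.log (N : ℝ)) ≤ (δ / 400) * Real.log N := by
    have h := Real.isLittleO_log_id_atTop.def (show (0:ℝ) < δ / 400 by positivity)
    filter_upwards [tL.eventually h, tL.eventually_ge_atTop 1] with N h1 h2
    simp only [id, Real.norm_eq_abs] at h1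
    rw [abs_of_pos (by linarith : (0:ℝ) < Real.log N)] at h1
    exact (le_abs_self _).trans h1
  filter_upwards [huppK C', hupp2 C', 
    (LL_tendsto.comp tX).eventually_ge_atTop 1, tX.eventually_ge_atTop 40,
    ty.eventually_ge_atTop (2 * J ^ 2), tu.eventually_ge_atTop 1, tL.eventually_ge_atTop (D + 3 : ℝ), e4]
    with N huK hu2 h4 h5 h6 h7 h9 h12
  intro H hH
  set X := (N:ℝ) / 4 with hX
  set L := Real.log (N:ℝ) with hL
  set u := Real.log L with hu
  set y := ⌊u⌋₊ with hy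
  set W := Uni.WW y with hW
  have hD0 : (0:ℝ) ≤ D := Nat.cast_nonneg D
  have hL3 : 3 ≤ L := by linarith
  have hL0 : 0 < L := by linarith
  have hL1 : 1 ≤ L := by linarith
  have hLL1 : 1 ≤ LL X := h4
  have hLL0 : 0 < LL X := by linarith
  have hρ := rho_pos y
  have hρ1 := rho_le_one y
  have hWpos : 0 < W := Uni.WW_pos y
  have hW0 : (0:ℝ) < W := by exact_mod_cast hWpos
  have hW1 : (1:ℝ) ≤ W := by exact_mod_cast hWpos
  have hX40 : 40 ≤ X := h5
  have hX0 : 0 < X := by linarith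
  have hNX : (N:ℝ) = 4 * X := by rw [hX]; ring
  have hN0 : (0:ℝ) < N := by rw [hNX]; linarith only [hX0]
  have hLu : L = Real.exp u := by rw [hu, Real.exp_log hL0]
  have hLLL : L ≤ 400 * LL X := by
    have := log4X (by linarith : 4 ≤ X)
    rw [← hNX] at this
    exact this
  have hy1 : 1 ≤ y := by
    have : 1 ≤ J ^ 2 := Nat.one_le_pow _ _ (by omega)
    omega
  have hyu : (y:ℝ) ≤ u := Nat.floor_le (by linarith)
  have hWexp : (W:ℝ) ≤ Real.exp (3 / 2 * u) := W_le_exp (by linarith)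
  have hWL2 : (W:ℝ) ≤ L ^ 2 := by
    refine hWexp.trans ?_
    rw [hLu, ← Real.exp_nat_mul]
    apply Real.exp_le_exp.2
    push_cast
    linarith
  have hφW : ((W : ℝ) / Nat.totient W) = 1 / rho y := by
    unfold rho
    rw [← hW, one_div_div]
  set g : ℝ := (Uni.gT W S : ℝ) with hg
  have hg0 : 0 ≤ g := Nat.cast_nonneg _
  set z := (1 / rho y) ^ J * (g / W) with hz
  have hz0 : 0 ≤ z := by positivity
  have hzCT : z ≤ 2 * |Uni.CT S| := by
    have k1 := Uni.CT_ge S y hy1 (by rw [hS]; exact h6)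
    rw [hS, ← hW, hφW] at k1
    have := le_abs_self (Uni.CT S)
    linarith
  have hLJ : 0 < L ^ J := by positivity
  have hWLJ : (W:ℝ) ≤ L ^ J := hWL2.trans (pow_le_pow_right₀ hL1 hJ2)
  have hSH : ∀ s ∈ S, s + H ≤ ⌊L ^ C'⌋₊ := by
    intro s hs
    apply Nat.le_floor
    push_cast
    rw [hC', Real.rpow_natCast]
    have k1 : (s:ℝ) ≤ L ^ J := by
      have k2 : (s:ℝ) ≤ D := by exact_mod_cast hD s hs
      have k3 : L ^ 1 ≤ L ^ J := pow_le_pow_right₀ hL1 (by omega)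
      rw [pow_one] at k3
      linarith
    have k4 : L ^ (J + 2) = L ^ J * (L * L) := by ring
    have k5 : 9 ≤ L * L := by nlinarith
    rw [k4]
    calc (s:ℝ) + H ≤ L ^ J * 9 := by linarith
      _ ≤ L ^ J * (L * L) := mul_le_mul_of_nonneg_left k5 hLJ.le
  have hen := energyT huK hu2 hCK.le hC2.le hLL0.le (by
      have := Real.add_one_le_exp (δ * LL X)
      have k0 : u ≤ (δ / 400) * L := h12
      have k1 : (δ / 400) * L ≤ δ * LL X := by
        calc (δ / 400) * L ≤ (δ / 400) * (400 * LL X) := mul_le_mul_of_nonneg_left hLLL (by positivity)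
          _ = δ * LL X := by ring
      linarith) S hS H hSH
  refine hen.trans ?_
  have hMu : MPhi X ≤ 2 * X := MPhi_le X (by linarith)
  have hUJ : g * UU J X y = z * (MPhi X / LL X ^ J) := by
    unfold UU
    rw [← hW, hz, mul_pow, one_div_pow]
    field_simp
  have hr2 : MPhi X / LL X ^ J ≤ (400:ℝ) ^ J / 2 * (N / L ^ J) := by
    rw [hNX]
    have : (400:ℝ) ^ J / 2 * (4 * X / L ^ J) = (2 * X) / (L / 400) ^ J := by
      rw [div_pow]; field_simp; ring
    rw [this]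
    apply div_le_div₀ (by positivity) hMu (by positivity)
    apply pow_le_pow_left₀ (by positivity)
    linarith
  have hNL0 : 0 ≤ (N:ℝ) / L ^ J := by positivity
  have hgUU : g * UU J X y ≤ 400 ^ J * (N / L ^ J) * |Uni.CT S| := by
    rw [hUJ]
    calc z * (MPhi X / LL X ^ J) ≤ z * ((400:ℝ) ^ J / 2 * (N / L ^ J)) := mul_le_mul_of_nonneg_left hr2 hz0
      _ ≤ (2 * |Uni.CT S|) * ((400:ℝ) ^ J / 2 * (N / L ^ J)) := mul_le_mul_of_nonneg_right hzCT (by positivity)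
      _ = _ := by ring
  have hUU2 : g * UU (2 * J) X y = UU J X y * (z * W / LL X ^ J) := by
    unfold UU
    rw [← hW, alg6, hz, mul_pow, one_div_pow]
    field_simp
  have hUJ0 : 0 ≤ UU J X y := UU_nonneg J hLL0.le y
  have hratio : (((H / W : ℕ) : ℝ) + 1) * (z * W / LL X ^ J) ≤ 18 * 400 ^ J * |Uni.CT S| := by
    have k1 : ((H / W : ℕ) : ℝ) ≤ H / W := Nat.cast_div_le
    have k2 : (((H / W : ℕ) : ℝ) + 1) * W ≤ 9 * L ^ J := by
      calc (((H / W : ℕ) : ℝ) + 1) * W ≤ (H / W + 1) * W := by gcongr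
        _ = H + W := by field_simp
        _ ≤ 9 * L ^ J := by linarith
    have k3 : L ^ J ≤ 400 ^ J * LL X ^ J := by
      rw [← mul_pow]
      exact pow_le_pow_left₀ hL0.le hLLL _
    rw [← mul_div_assoc, div_le_iff₀ (by positivity)]
    calc (((H / W : ℕ) : ℝ) + 1) * (z * W) = ((((H / W : ℕ) : ℝ) + 1) * W) * z := by ring
      _ ≤ (9 * L ^ J) * z := mul_le_mul_of_nonneg_right k2 hz0
      _ ≤ (9 * L ^ J) * (2 * |Uni.CT S|) := mul_le_mul_of_nonneg_left hzCT (by positivity)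
      _ = 18 * |Uni.CT S| * L ^ J := by ring
      _ ≤ 18 * |Uni.CT S| * (400 ^ J * LL X ^ J) := mul_le_mul_of_nonneg_left k3 (by positivity)
      _ = _ := by ring
  have k1 : g * (((H / W : ℕ) : ℝ) + 1) * (C2 * UU (2 * J) X y) ≤ 18 * 400 ^ J * |Uni.CT S| * C2 * UU J X y := by
    calc g * (((H / W : ℕ) : ℝ) + 1) * (C2 * UU (2 * J) X y) =
        (((H / W : ℕ) : ℝ) + 1) * C2 * (g * UU (2 * J) X y) := by ring
      _ = ((((H / W : ℕ) : ℝ) + 1) * (z * W / LL X ^ J)) * (C2 * UU J X y) := by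
          rw [hUU2]; ring
      _ ≤ (18 * 400 ^ J * |Uni.CT S|) * (C2 * UU J X y) := mul_le_mul_of_nonneg_right hratio (by positivity)
      _ = _ := by ring
  calc g * ((J:ℝ) ^ 2 * (CK * UU J X y) + g * (((H / W : ℕ) : ℝ) + 1) * (C2 * UU (2 * J) X y)) ≤
      g * ((J:ℝ) ^ 2 * (CK * UU J X y) + 18 * 400 ^ J * |Uni.CT S| * C2 * UU J X y) := by gcongr
    _ = ((J:ℝ) ^ 2 * CK + 18 * 400 ^ J * |Uni.CT S| * C2) * (g * UU J X y) := by ring
    _ ≤ ((J:ℝ) ^ 2 * CK + 18 * 400 ^ J * |Uni.CT S| * C2 + 1) * (400 ^ J * (N / L ^ J) * |Uni.CT S|) := by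
        apply mul_le_mul (by linarith) hgUU (by positivity) (by positivity)
    _ ≤ ((J:ℝ) ^ 2 * CK + 18 * 400 ^ J * |Uni.CT S| * C2 + 1) * (400 ^ J * (N / L ^ J) * (|Uni.CT S| + 1)) := by
        gcongr
        linarith
    _ = _ := by ring

end Pool.Agent.U28.PG
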