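import Pool.Agent.U28.PG.K45a

set_option autoImplicit false

open Finset Filter Topology

namespace Pool.Agent.U28.PG

open Pool.Agent.H378R2 Pool.Agent.H387R2 Pool.Agent.H387R2.MB

open Classical in
/-- the energy of a set contained in the middle of one window -/
lemma winE {J H N1 : ℕ} {δ C : ℝ} {S : Finset ℕ} (A' : ℕ → Prop) (hN1 : 0 < N1)
    (hE : ∑ n ∈ Icc 1 ⌊3 * ((N1:ℝ) / 4)⌋₊, Phi ((n:ℝ) / ((N1:ℝ) / 4)) *
        ((if ∀ a ∈ S, Rg δ ((N1:ℝ) / 4) (n + a) then 1 else 0) *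
          (((Icc 1 H).filter (fun d => ∀ a ∈ S, Rg δ ((N1:ℝ) / 4) (n + d + a))).card : ℝ)) ≤
      C * (N1 / Real.log N1 ^ J)) (hA : ∀ n, A' n → ∀ a ∈ S, Rg δ ((N1:ℝ) / 4) (n + a))
    (B : Finset ℕ) (hB : ∀ n ∈ B, 11 / 10 * ((N1:ℝ) / 4) ≤ n ∧ (n:ℝ) ≤ 5 / 2 * ((N1:ℝ) / 4) ∧ A' n) :
    ∑ n ∈ B, (((Icc 1 H).filter (fun d => A' (n + d))).card : ℝ) ≤ 20 * (C * (N1 / Real.log N1 ^ J)) := by
  have hX : (0:ℝ) < (N1:ℝ) / 4 := by
    have : (0:ℝ) < N1 := by exact_mod_cast hN1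
    positivity
  refine le_trans ?_ (mul_le_mul_of_nonneg_left hE (by norm_num : (0:ℝ) ≤ 20))
  rw [mul_sum]
  have hsub : B ⊆ Icc 1 ⌊3 * ((N1:ℝ) / 4)⌋₊ := by
    intro n hn
    obtain ⟨h1, h2, _⟩ := hB n hn
    rw [mem_Icc]
    refine ⟨?_, Nat.le_floor (by linarith)⟩
    by_contra hc
    have : n = 0 := by omega
    rw [this] at h1
    push_cast at h1
    linarith
  refine le_trans ?_ (sum_le_sum_of_subset_of_nonneg hsub ?_)
  · apply sum_le_sum
    intro n hn
    obtain ⟨h1, h2, h3⟩ := hB n hn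
    rw [if_pos (hA n h3), one_mul]
    have hPh : 1 / 20 ≤ Phi ((n:ℝ) / ((N1:ℝ) / 4)) := by
      apply Phi_mid
      · rw [le_div_iff₀ hX]; exact h1
      · rw [div_le_iff₀ hX]; exact h2
    have hc : (((Icc 1 H).filter (fun d => A' (n + d))).card : ℝ) ≤
        (((Icc 1 H).filter (fun d => ∀ a ∈ S, Rg δ ((N1:ℝ) / 4) (n + d + a))).card : ℝ) := by
      rw [Nat.cast_le]
      apply card_le_card
      intro d hd
      rw [mem_filter] at hd ⊢
      exact ⟨hd.1, hA _ hd.2⟩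
    have h0 : (0:ℝ) ≤ (((Icc 1 H).filter (fun d => ∀ a ∈ S, Rg δ ((N1:ℝ) / 4) (n + d + a))).card : ℝ) :=
      Nat.cast_nonneg _
    nlinarith
  · intro n _ _
    have := Phi_nonneg ((n:ℝ) / ((N1:ℝ) / 4))
    have h0 : (0:ℝ) ≤ (((Icc 1 H).filter (fun d => ∀ a ∈ S, Rg δ ((N1:ℝ) / 4) (n + d + a))).card : ℝ) :=
      Nat.cast_nonneg _
    split_ifs <;> positivity

lemma tdiv15 : Tendsto (fun N : ℕ => N / 15) atTop atTop := by
  rw [tendsto_atTop]
  intro b
  filter_upwards [eventually_ge_atTop (15 * b)] with N hN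
  omega

lemma pow45 : (103 / 100 : ℝ) ^ 45 ≤ 4 := by norm_num

open Classical in
set_option maxHeartbeats 8000000 in
theorem k45 (M a : ℕ) (hM0 : 0 < M) (ha : a.Coprime M) (G : Finset ℕ)
    (hG : G.card = 45) (hadm : ∀ p : ℕ, p.Prime → ¬ p ∣ M → ∃ r : ℕ, ∀ g ∈ G, ¬ p ∣ r + g) :
    ∃ c : ℝ, 0 < c ∧ ∀ᶠ N : ℕ in atTop, ∃ g ∈ G, ∃ g' ∈ G, g < g' ∧
      AllLengths c (1 / Real.log N ^ 45) N (Pool.Agent.X34.E.Follow M a ((g' - g) * M)) := by
  obtain ⟨κ, hκ, hgr⟩ := Pool.Agent.X34.E.gaps_rough Pool.Agent.X34.E.dhl45R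
  obtain ⟨c, hc, hlow⟩ := hgr M a hM0 ha G hG hadm
  set S : Finset ℕ := G.image (fun g => M * g) with hSdef
  have hScard : S.card = 45 := by
    rw [hSdef, card_image_of_injective _ (fun x y h => Nat.eq_of_mul_eq_mul_left hM0 h), hG]
  obtain ⟨C, hC, hE⟩ := fixE 45 (by norm_num) (δ := 100 * κ) (by positivity) S hScard
  set R : ℝ := 53760 * C / c + 1 with hR
  have hR0 : 0 < R := by positivity
  have hR1 : 1 ≤ R := by
    have : 0 ≤ 53760 * C / c := by positivity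
    linarith
  refine ⟨min (c / 12 / (8 * (R + 1))) (c / 12 / 16), lt_min (by positivity) (by positivity), ?_⟩
  have tN : Tendsto (fun N : ℕ => (N : ℝ)) atTop atTop := tendsto_natCast_atTop_atTop
  have tL : Tendsto (fun N : ℕ => Real.log (N : ℝ)) atTop atTop := Real.tendsto_log_atTop.comp tN
  have t5 : Tendsto (fun N : ℕ => ((5 * (N / 15) : ℕ) : ℝ)) atTop atTop :=
    tN.comp (Tendsto.const_mul_atTop' (by norm_num) tdiv15)
  have t18 : Tendsto (fun N : ℕ => 18 * (N / 15)) atTop atTop := Tendsto.const_mul_atTop' (by norm_num) tdiv15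
  have t40 : Tendsto (fun N : ℕ => 40 * (N / 15)) atTop atTop := Tendsto.const_mul_atTop' (by norm_num) tdiv15
  filter_upwards [t5.eventually hlow, t18.eventually hE, t40.eventually hE, tL.eventually_ge_atTop 40,
    tN.eventually (Uni.log_pow_small ((45 : ℕ) : ℝ) (η := 1 / 100) (by norm_num)), tN.eventually_ge_atTop 1000]
    with N h1 h2 h3 h4 h5 h6
  obtain ⟨g, hg, g', hg', hgg, h1⟩ := h1
  refine ⟨g, hg, g', hg', hgg, ?_⟩
  have h6' : 1000 ≤ N := by exact_mod_cast h6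
  set t := N / 15 with ht
  have ht1 : 15 * t ≤ N := Nat.mul_div_le N 15
  have ht2 : N < 15 * t + 15 := by omega
  have ht3 : N ≤ 30 * t := by omega
  have ht0 : 0 < t := by omega
  have htr : (0:ℝ) < t := by exact_mod_cast ht0
  have htr1 : (15:ℝ) * t ≤ N := by exact_mod_cast ht1
  have htr3 : (N:ℝ) ≤ 30 * t := by exact_mod_cast ht3
  set L := Real.log (N:ℝ) with hL
  have hN0 : (0:ℝ) < N := by linarith
  have hL0 : 0 < L := by linarith
  rw [Real.rpow_natCast] at h5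
  have hLJ : 0 < L ^ 45 := by positivity
  have hLJ1 : 1 ≤ L ^ 45 := one_le_pow₀ (by linarith)
  set h := (g' - g) * M with hh
  -- logarithms
  have l5 : Real.log ((5 * t : ℕ) : ℝ) ≤ L := by
    apply Real.log_le_log (by positivity)
    push_cast; linarith
  have l5' : 0 < Real.log ((5 * t : ℕ) : ℝ) := by
    apply Real.log_pos
    have : (1:ℝ) ≤ t := by exact_mod_cast ht0
    push_cast; linarith
  have l40 : L ≤ Real.log ((40 * t : ℕ) : ℝ) := by
    apply Real.log_le_log hN0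
    push_cast; linarith
  have l18 : L ≤ 103 / 100 * Real.log ((18 * t : ℕ) : ℝ) := by
    have e1 : (N:ℝ) ≤ 2 * ((18 * t : ℕ) : ℝ) := by push_cast; linarith
    have e2 : L ≤ Real.log 2 + Real.log ((18 * t : ℕ) : ℝ) := by
      rw [← Real.log_mul (by norm_num) (by positivity)]
      exact Real.log_le_log hN0 e1
    have e3 := Real.log_two_lt_d9
    linarith
  have l18' : 0 < Real.log ((18 * t : ℕ) : ℝ) := by linarith
  have p18 : L ^ 45 ≤ 4 * Real.log ((18 * t : ℕ) : ℝ) ^ 45 := by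
    calc L ^ 45 ≤ (103 / 100 * Real.log ((18 * t : ℕ) : ℝ)) ^ 45 := pow_le_pow_left₀ hL0.le l18 _
      _ = (103 / 100) ^ 45 * Real.log ((18 * t : ℕ) : ℝ) ^ 45 := mul_pow _ _ _
      _ ≤ 4 * Real.log ((18 * t : ℕ) : ℝ) ^ 45 := mul_le_mul_of_nonneg_right pow45 (by positivity)
  have p40 : L ^ 45 ≤ Real.log ((40 * t : ℕ) : ℝ) ^ 45 := pow_le_pow_left₀ hL0.le l40 _
  -- the length
  set H0 := ⌈L ^ 45⌉₊ with hH0
  have hH01 : L ^ 45 ≤ H0 := Nat.le_ceil _
  have hH02 : (H0:ℝ) ≤ L ^ 45 + 1 := (Nat.ceil_lt_add_one hLJ.le).le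
  have hH03 : (H0:ℝ) ≤ 2 * L ^ 45 := by linarith
  have hH0pos : 1 ≤ H0 := by
    have : (1:ℝ) ≤ H0 := hLJ1.trans hH01
    exact_mod_cast this
  have hH0' : (0:ℝ) < H0 := by exact_mod_cast hH0pos
  have hH0t : H0 ≤ 5 * t := by
    have : (H0:ℝ) ≤ 5 * t := by linarith
    exact_mod_cast this
  have E18 := h2 H0 (by linarith)
  have E40 := h3 H0 (by linarith)
  -- the sets
  set A' : ℕ → Prop := fun n => ∀ g'' ∈ G, ∀ p : ℕ, p.Prime → (p : ℝ) ≤ ((5 * t : ℕ) : ℝ) ^ κ → ¬ p ∣ n + M * g''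
    with hA'
  have hkey : ∀ X : ℝ, 1 ≤ X → X ≤ 10 * t → ∀ n, A' n → ∀ a ∈ S, Rg (100 * κ) X (n + a) := by
    intro X hX1 hX n hn b hb p hp
    obtain ⟨g'', hg'', rfl⟩ := mem_image.1 hb
    obtain ⟨hp1, hp2⟩ := mem_PS.1 hp
    refine hn g'' hg'' p hp1 (hp2.trans ?_)
    rw [Real.rpow_def_of_pos (by positivity)]
    apply Real.exp_le_exp.2
    unfold LL
    have e1 : Real.log X ≤ Real.log 2 + Real.log ((5 * t : ℕ) : ℝ) := by
      rw [← Real.log_mul (by norm_num) (by positivity)]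
      apply Real.log_le_log (by linarith)
      push_cast; linarith
    have e3 := Real.log_two_lt_d9
    have e4 : 1 ≤ Real.log ((5 * t : ℕ) : ℝ) := by
      have e5 : Real.log ((18 * t : ℕ) : ℝ) ≤ Real.log 4 + Real.log ((5 * t : ℕ) : ℝ) := by
        rw [← Real.log_mul (by norm_num) (by positivity)]
        apply Real.log_le_log (by positivity)
        push_cast; linarith
      have e6 : Real.log 4 = 2 * Real.log 2 := by
        rw [show (4:ℝ) = 2 ^ 2 by norm_num, Real.log_pow]; norm_num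
      linarith
    have e7 : Real.log X ≤ 2 * Real.log ((5 * t : ℕ) : ℝ) := by linarith
    calc 100 * κ * (Real.log X / 200) = κ * Real.log X / 2 := by ring
      _ ≤ κ * (2 * Real.log ((5 * t : ℕ) : ℝ)) / 2 := by gcongr
      _ = Real.log ((5 * t : ℕ) : ℝ) * κ := by ring
  set B : Finset ℕ := (range (15 * t)).filter (fun n => 5 * t < n ∧ n + M * g + h < 15 * t ∧
    Pool.Agent.X34.E.Follow M a h (n + M * g) ∧ A' n) with hB
  have hBcard : c * ((5 * t : ℕ) : ℝ) / Real.log ((5 * t : ℕ) : ℝ) ^ 45 ≤ (B.card : ℝ) := by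
    refine h1.trans ?_
    rw [← Set.ncard_coe_finset, Nat.cast_le]
    apply Set.ncard_le_ncard _ (Finset.finite_toSet _)
    rintro n ⟨k1, k2, k3, k4⟩
    rw [mem_coe, hB, mem_filter, mem_range]
    have k1' : 5 * t < n := by exact_mod_cast k1
    have k2' : n + M * g + (g' - g) * M < 15 * t := by
      have e : (3:ℝ) * ((5 * t : ℕ) : ℝ) = ((15 * t : ℕ) : ℝ) := by push_cast; ring
      rw [e] at k2
      exact_mod_cast k2
    exact ⟨by omega, k1', k2', k3, k4⟩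
  have hBlow : c / 6 * (N / L ^ 45) ≤ (B.card : ℝ) := by
    refine le_trans ?_ hBcard
    have e1 : (N:ℝ) / 6 ≤ ((5 * t : ℕ) : ℝ) := by push_cast; linarith
    calc c / 6 * (N / L ^ 45) = c * (N / 6) / L ^ 45 := by ring
      _ ≤ c * ((5 * t : ℕ) : ℝ) / L ^ 45 := by gcongr
      _ ≤ c * ((5 * t : ℕ) : ℝ) / Real.log ((5 * t : ℕ) : ℝ) ^ 45 := by gcongr
  -- energy
  set r : ℕ → ℝ := fun n => (((Icc 1 H0).filter (fun d => A' (n + d))).card : ℝ) with hr
  have hr0 : ∀ n, 0 ≤ r n := fun n => Nat.cast_nonneg _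
  have hs1 : ∑ n ∈ B.filter (fun n => n ≤ 11 * t), r n ≤
      20 * (C * (((18 * t : ℕ) : ℝ) / Real.log ((18 * t : ℕ) : ℝ) ^ 45)) := by
    refine le_trans (sum_le_sum fun n _ => le_of_eq (?_ : r n = _)) (winE (δ := 100 * κ) (S := S) A' (by omega) E18 ?_ _ ?_)
    · simp only [hr]
      congr!
    · apply hkey
      · have : (1:ℝ) ≤ t := by exact_mod_cast ht0
        push_cast; linarith
      · push_cast; linarith
    · intro n hn
      rw [mem_filter, hB, mem_filter] at hn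
      obtain ⟨⟨_, k1, _, _, k4⟩, k5⟩ := hn
      have k1' : (5:ℝ) * t < n := by exact_mod_cast k1
      have k5' : (n:ℝ) ≤ 11 * t := by exact_mod_cast k5
      refine ⟨?_, ?_, k4⟩
      · push_cast; linarith
      · push_cast; linarith
  have hs2 : ∑ n ∈ B.filter (fun n => ¬ n ≤ 11 * t), r n ≤
      20 * (C * (((40 * t : ℕ) : ℝ) / Real.log ((40 * t : ℕ) : ℝ) ^ 45)) := by
    refine le_trans (sum_le_sum fun n _ => le_of_eq (?_ : r n = _)) (winE (δ := 100 * κ) (S := S) A' (by omega) E40 ?_ _ ?_)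
    · simp only [hr]
      congr!
    · apply hkey
      · have : (1:ℝ) ≤ t := by exact_mod_cast ht0
        push_cast; linarith
      · push_cast; linarith
    · intro n hn
      rw [mem_filter, hB, mem_filter, mem_range] at hn
      obtain ⟨⟨k0, k1, _, _, k4⟩, k5⟩ := hn
      have k0' : (n:ℝ) < 15 * t := by exact_mod_cast k0
      have k5' : (11:ℝ) * t < n := by exact_mod_cast not_le.1 k5
      refine ⟨?_, ?_, k4⟩
      · push_cast; linarith
      · push_cast; linarith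
  have hsum : ∑ n ∈ B, r n ≤ 2240 * C * (N / L ^ 45) := by
    rw [← sum_filter_add_sum_filter_not B (fun n => n ≤ 11 * t)]
    have q1 : ((18 * t : ℕ) : ℝ) / Real.log ((18 * t : ℕ) : ℝ) ^ 45 ≤ 72 * t / L ^ 45 := by
      rw [div_le_div_iff₀ (by positivity) hLJ]
      push_cast
      push_cast at p18
      nlinarith
    have q2 : ((40 * t : ℕ) : ℝ) / Real.log ((40 * t : ℕ) : ℝ) ^ 45 ≤ 40 * t / L ^ 45 := by
      push_cast
      push_cast at p40
      gcongr
    have q3 : (t:ℝ) ≤ N := by linarith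
    have q4 : (72 * t / L ^ 45 : ℝ) + 40 * t / L ^ 45 ≤ 112 * (N / L ^ 45) := by
      calc (72 * t / L ^ 45 : ℝ) + 40 * t / L ^ 45 = 112 * (t / L ^ 45) := by ring
        _ ≤ 112 * (N / L ^ 45) := by gcongr
    have q5 : 20 * (C * (((18 * t : ℕ) : ℝ) / Real.log ((18 * t : ℕ) : ℝ) ^ 45)) ≤ 20 * (C * (72 * t / L ^ 45)) := by
      gcongr
    have q6 : 20 * (C * (((40 * t : ℕ) : ℝ) / Real.log ((40 * t : ℕ) : ℝ) ^ 45)) ≤ 20 * (C * (40 * t / L ^ 45)) := by
      gcongr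
    have q7 : 20 * (C * (72 * t / L ^ 45)) + 20 * (C * (40 * t / L ^ 45)) ≤ 2240 * C * (N / L ^ 45) := by
      have := mul_le_mul_of_nonneg_left q4 (by positivity : 0 ≤ 20 * C)
      nlinarith
    linarith
  set G1 := B.filter (fun n => r n ≤ R) with hG1
  have hG1card : c / 12 * (N / L ^ 45) ≤ (G1.card : ℝ) := by
    have k1 : (B.card : ℝ) = (G1.card : ℝ) + ((B.filter (fun n => ¬ r n ≤ R)).card : ℝ) := by
      rw [hG1, ← Nat.cast_add, card_filter_add_card_filter_not]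
    have k2 : R * ((B.filter (fun n => ¬ r n ≤ R)).card : ℝ) ≤ ∑ n ∈ B, r n := by
      calc R * ((B.filter (fun n => ¬ r n ≤ R)).card : ℝ) = ∑ _n ∈ B.filter (fun n => ¬ r n ≤ R), R := by
            rw [sum_const, nsmul_eq_mul, mul_comm]
        _ ≤ ∑ n ∈ B.filter (fun n => ¬ r n ≤ R), r n :=
            sum_le_sum fun n hn => (not_le.1 (mem_filter.1 hn).2).le
        _ ≤ ∑ n ∈ B, r n := sum_le_sum_of_subset_of_nonneg (filter_subset _ _) fun n _ _ => hr0 n
    have k3 : ((B.filter (fun n => ¬ r n ≤ R)).card : ℝ) ≤ c / 12 * (N / L ^ 45) := by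
      have k4 : R * ((B.filter (fun n => ¬ r n ≤ R)).card : ℝ) ≤ R * (c / 12 * (N / L ^ 45)) := by
        refine (k2.trans hsum).trans ?_
        have e : R * (c / 12 * (N / L ^ 45)) = 4480 * C * (N / L ^ 45) + c / 12 * (N / L ^ 45) := by
          rw [hR]
          field_simp
          ring
        rw [e]
        have : 0 ≤ C * (N / L ^ 45) := by positivity
        have : 0 ≤ c / 12 * (N / L ^ 45) := by positivity
        nlinarith
      exact le_of_mul_le_mul_left k4 hR0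
    have e : c / 6 * (N / L ^ 45) = 2 * (c / 12 * (N / L ^ 45)) := by ring
    rw [e] at hBlow
    linarith
  have hGc : c / 12 * ((N : ℝ) / H0) ≤ G1.card := by
    refine le_trans ?_ hG1card
    gcongr
  have hsp : ∀ b, ((G1.filter (fun n => n ∈ Ioc b (b + H0))).card : ℝ) ≤ R + 1 := by
    intro b
    apply sparse_card A' G1 H0 R hR0.le
    · intro n hn
      exact (mem_filter.1 (mem_filter.1 hn).1).2.2.2.2
    · intro n hn
      exact (mem_filter.1 hn).2
  have hts := to_scales (Pool.Agent.X34.E.Follow M a h) G1 N H0 (M * g) (by omega) (by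
    intro n hn
    have hn1 := (mem_filter.1 hn).1
    rw [hB, mem_filter, mem_range] at hn1
    obtain ⟨k0, k1, k2, k3, k4⟩ := hn1
    exact ⟨by omega, by omega, k3⟩) hH0pos (R + 1) (c / 12) (L ^ 45) (by positivity) (by positivity) hsp hGc hLJ
    hH03
  exact al_of _ (by positivity) (by rw [one_div_one_div]) hH0 hts

end Pool.Agent.U28.PG
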