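import Pool.Agent.U28.PG.Fin

set_option autoImplicit false

open Finset Filter Topology

namespace Pool.Agent.U28.PG

open Pool.Agent.H387R2 Pool.Agent.H387R2.MB

/-- an initial segment with `k + 1` elements -/
lemma init_seg (k : ℕ) : ∀ (m : ℕ) (B : Finset ℕ), B.card = k + 1 + m →
    ∃ B' ⊆ B, B'.card = k + 1 ∧ ∀ b ∈ B, ∀ b' ∈ B', b ≤ b' → b ∈ B' := by
  classical
  intro m
  induction m with
  | zero => exact fun B hB => ⟨B, subset_refl _, hB, fun b hb _ _ _ => hb⟩
  | succ m ih =>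
    intro B hB
    have hne : B.Nonempty := card_pos.1 (by omega)
    set M := B.max' hne with hM
    have hMB : M ∈ B := max'_mem _ _
    obtain ⟨B', h1, h2, h3⟩ := ih (B.erase M) (by rw [card_erase_of_mem hMB]; omega)
    refine ⟨B', h1.trans (erase_subset _ _), h2, fun b hb b' hb' hle => ?_⟩
    by_cases hbM : b = M
    · exfalso
      have h4 := mem_erase.1 (h1 hb')
      have h5 := le_max' B b' h4.2
      rw [← hM] at h5
      exact h4.1 (le_antisymm h5 (hbM ▸ hle))
    · exact h3 b (mem_erase.2 ⟨hbM, hb⟩) b' hb' hle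

lemma fin_min {ι : Type*} (F : Finset ι) (c : ι → ℝ) (hc : ∀ i, 0 < c i) : ∃ c0 : ℝ, 0 < c0 ∧ ∀ i ∈ F, c0 ≤ c i := by
  classical
  induction F using Finset.induction_on with
  | empty => exact ⟨1, one_pos, by simp⟩
  | insert a F _ ih =>
    obtain ⟨c0, h1, h2⟩ := ih
    refine ⟨min c0 (c a), lt_min h1 (hc a), fun i hi => ?_⟩
    rw [mem_insert] at hi
    rcases hi with rfl | hi
    · exact min_le_right _ _
    · exact (min_le_left _ _).trans (h2 i hi)

/-- the multiples of `P` up to `a P` -/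
def mul (P a : ℕ) : Finset ℕ := (Icc 1 a).image (· * P)

lemma card_mul {P : ℕ} (hP : 0 < P) (a : ℕ) : (mul P a).card = a := by
  unfold mul
  rw [card_image_of_injective _ (fun a b h => Nat.eq_of_mul_eq_mul_right hP h), Nat.card_Icc, Nat.add_sub_cancel]

lemma mem_mul {P a x : ℕ} (h : x ∈ mul P a) : P ∣ x ∧ 1 ≤ x ∨ P = 0 := by
  unfold mul at h
  rw [mem_image] at h
  obtain ⟨i, hi, rfl⟩ := h
  rw [mem_Icc] at hi
  rcases Nat.eq_zero_or_pos P with h0 | h0
  · exact Or.inr h0
  · exact Or.inl ⟨Dvd.intro_left _ rfl, Nat.mul_pos (by omega) h0⟩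

lemma adm_of_dvd {K : ℕ} {S : Finset ℕ} (hS : S.card = K) (h : ∀ s ∈ S, K.factorial ∣ s) : Uni.Adm S := by
  classical
  intro p hp
  unfold Uni.nuT
  by_cases hpK : p ≤ K
  · have h1 : S.image (· % p) ⊆ {0} := by
      intro x hx
      rw [mem_image] at hx
      obtain ⟨s, hs, rfl⟩ := hx
      rw [mem_singleton]
      exact Nat.mod_eq_zero_of_dvd ((Nat.dvd_factorial hp.pos hpK).trans (h s hs))
    have := card_le_card h1
    rw [card_singleton] at this
    exact this.trans_lt hp.one_lt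
  · refine card_image_le.trans_lt ?_
    omega

open Classical in
/-- in many blocks of length `H` there are many `n` with `P n` -/
def Many (c : ℝ) (K N : ℕ) (P : ℕ → Prop) : Prop :=
  ∀ H : ℕ, Real.log N ^ K ≤ H → H ≤ N →
    c * ((N : ℝ) / H) ≤ (((range (N / H + 1)).filter (fun j => c * ((H : ℝ) / Real.log N ^ K) ≤
      (((Ioc (j * H) ((j + 1) * H)).filter P).card : ℝ))).card : ℝ)

lemma Many.mono {c c' : ℝ} {K N : ℕ} {P P' : ℕ → Prop} (h : Many c K N P) (hc : c' ≤ c)
    (hP : ∀ n, P n → P' n) : Many c' K N P' := by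
  classical
  intro H h1 h2
  have hL : (0:ℝ) ≤ Real.log N ^ K := by
    apply pow_nonneg
    rcases Nat.eq_zero_or_pos N with h0 | h0
    · rw [h0]; simp
    · exact Real.log_nonneg (by exact_mod_cast h0)
  calc c' * ((N : ℝ) / H) ≤ c * ((N : ℝ) / H) := mul_le_mul_of_nonneg_right hc (by positivity)
    _ ≤ _ := h H h1 h2
    _ ≤ _ := by
        have : (range (N / H + 1)).filter (fun j => c * ((H : ℝ) / Real.log N ^ K) ≤
            (((Ioc (j * H) ((j + 1) * H)).filter P).card : ℝ)) ⊆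
            (range (N / H + 1)).filter (fun j => c' * ((H : ℝ) / Real.log N ^ K) ≤
            (((Ioc (j * H) ((j + 1) * H)).filter P').card : ℝ)) := by
          intro j hj
          rw [mem_filter] at hj ⊢
          refine ⟨hj.1, ?_⟩
          have h3 : c' * ((H : ℝ) / Real.log N ^ K) ≤ c * ((H : ℝ) / Real.log N ^ K) :=
            mul_le_mul_of_nonneg_right hc (by positivity)
          have h4 : (((Ioc (j * H) ((j + 1) * H)).filter P).card : ℝ) ≤
              (((Ioc (j * H) ((j + 1) * H)).filter P').card : ℝ) := by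
            have : ((Ioc (j * H) ((j + 1) * H)).filter P).card ≤ ((Ioc (j * H) ((j + 1) * H)).filter P').card := by
              apply card_le_card
              intro n hn
              rw [mem_filter] at hn ⊢
              exact ⟨hn.1, hP n hn.2⟩
            exact_mod_cast this
          exact h3.trans (hj.2.trans h4)
        exact_mod_cast card_le_card this

/-- the first theorem -/
theorem blocks' (k : ℕ) (hk : 1 ≤ k) : ∃ K : ℕ, k + 1 ≤ K ∧ ∀ (S : Finset ℕ) (D q r : ℕ), S.card = K →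
    (∀ s ∈ S, s ≤ D) → Uni.Adm S → Squarefree q → (∀ s ∈ S, Nat.Coprime q (r + s)) →
    ∃ c : ℝ, 0 < c ∧ ∀ᶠ N : ℕ in atTop, ∃ B ⊆ S, k + 1 ≤ B.card ∧ ∀ m ≤ D,
      Many c K N (fun n => m ≤ n ∧ n - m ≡ r [MOD q] ∧ ∀ t ≤ D, ((n - m + t).Prime ↔ t ∈ B)) := by
  obtain ⟨K, hK, h⟩ := blocks k hk
  refine ⟨K, hK, fun S D q r h1 h2 h3 h4 h5 => ?_⟩
  obtain ⟨c, hc, h6⟩ := h S D q r h1 h2 h3 h4 h5
  refine ⟨c, hc, ?_⟩
  filter_upwards [h6] with N hN
  obtain ⟨B, hB, hk, hN⟩ := hN
  refine ⟨B, hB, hk, fun m hm H hH1 hH2 => ?_⟩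
  refine (hN m hm H hH1 hH2).trans (le_of_eq ?_)
  congr!

open Classical in
/-- **a positive proportion of the patterns** -/
theorem positive {k K : ℕ} (hK : k + 1 ≤ K) (hmain : ∀ (S : Finset ℕ) (D q r : ℕ), S.card = K →
    (∀ s ∈ S, s ≤ D) → Uni.Adm S → Squarefree q → (∀ s ∈ S, Nat.Coprime q (r + s)) →
    ∃ c : ℝ, 0 < c ∧ ∀ᶠ N : ℕ in atTop, ∃ B ⊆ S, k + 1 ≤ B.card ∧ ∀ m ≤ D,
      Many c K N (fun n => m ≤ n ∧ n - m ≡ r [MOD q] ∧ ∀ t ≤ D, ((n - m + t).Prime ↔ t ∈ B)))
    (q r : ℕ) (hsq : Squarefree q) (hqr : Nat.Coprime q r) :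
    ∃ κ : ℝ, 0 < κ ∧ ∃ R0 : ℕ, ∀ R ≥ R0, ∃ c : ℝ, 0 < c ∧ ∀ᶠ N : ℕ in atTop,
      κ * (R : ℝ) ^ k ≤ (((range (R + 1)).powerset.filter (fun T : Finset ℕ => 0 ∈ T ∧ T.card = k + 1 ∧
        (∀ h ∈ T, q ∣ h) ∧ Many c K N (fun n => n ≡ r [MOD q] ∧ ∀ t ≤ T.sup id, ((n + t).Prime ↔ t ∈ T)))).card : ℝ) := by
  have hq : 0 < q := Nat.pos_of_ne_zero hsq.ne_zero
  have hKf := Nat.factorial_pos K
  set P := K.factorial * q with hPd
  have hP : 0 < P := Nat.mul_pos hKf hq
  have hP' : (0:ℝ) < P := by exact_mod_cast hP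
  have hchK : 0 < K.choose (k + 1) := Nat.choose_pos hK
  have hchK' : (0:ℝ) < ((K.choose (k + 1) : ℕ) : ℝ) := by exact_mod_cast hchK
  have hkf : (0:ℝ) < (k + 1).factorial := by exact_mod_cast Nat.factorial_pos _
  refine ⟨1 / ((2 * P) ^ k * (2 ^ (k + 1) * (k + 1).factorial * (K.choose (k + 1) : ℕ))), by positivity,
    P * (2 * K), fun R hR => ?_⟩
  set a := R / P with had
  have ha1 : 2 * K ≤ a := by
    rw [had, Nat.le_div_iff_mul_le hP, mul_comm]
    exact hR
  have ha0 : 0 < a := by omega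
  have haR : a * P ≤ R := Nat.div_mul_le_self R P
  have haR2 : (R:ℝ) ≤ 2 * P * a := by
    have h1 : R < a * P + P := Nat.lt_div_mul_add hP
    have h2 : P ≤ a * P := Nat.le_mul_of_pos_left P ha0
    have h3 : R ≤ 2 * P * a := by nlinarith
    exact_mod_cast h3
  set A := mul P a with hA
  have hAcard : A.card = a := card_mul hP a
  have hAP : ∀ x ∈ A, P ∣ x ∧ 1 ≤ x := by
    intro x hx
    rcases mem_mul hx with h | h
    · exact h
    · exact absurd h hP.ne'
  have hAR : ∀ x ∈ A, x ≤ R := by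
    intro x hx
    rw [hA] at hx
    unfold mul at hx
    rw [mem_image] at hx
    obtain ⟨i, hi, rfl⟩ := hx
    rw [mem_Icc] at hi
    exact (Nat.mul_le_mul_right P hi.2).trans haR
  set 𝒮 := A.powersetCard K with h𝒮
  have hex : ∀ S : Finset ℕ, ∃ c : ℝ, 0 < c ∧ (S ∈ 𝒮 → ∀ᶠ N : ℕ in atTop, ∃ B ⊆ S, k + 1 ≤ B.card ∧ ∀ m ≤ R,
      Many c K N (fun n => m ≤ n ∧ n - m ≡ r [MOD q] ∧ ∀ t ≤ R, ((n - m + t).Prime ↔ t ∈ B))) := by
    intro S
    by_cases hS : S ∈ 𝒮
    · rw [h𝒮, mem_powersetCard] at hS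
      have hd : ∀ s ∈ S, P ∣ s := fun s hs => (hAP s (hS.1 hs)).1
      obtain ⟨c, hc, h⟩ := hmain S R q r hS.2 (fun s hs => hAR s (hS.1 hs))
        (adm_of_dvd hS.2 (fun s hs => (Dvd.intro _ rfl).trans (hd s hs))) hsq (by
          intro s hs
          have h1 : q ∣ s := (Dvd.intro_left _ rfl).trans (hd s hs)
          obtain ⟨v, rfl⟩ := h1
          rw [Nat.coprime_add_mul_left_right]
          exact hqr)
      exact ⟨c, hc, fun _ => h⟩
    · exact ⟨1, one_pos, fun h => absurd h hS⟩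
  choose cS hcS hev using hex
  obtain ⟨c0, hc0, hc0S⟩ := fin_min 𝒮 cS hcS
  refine ⟨c0, hc0, ?_⟩
  filter_upwards [(Filter.eventually_all_finset 𝒮).2 hev] with N hN
  set Gd : Finset (Finset ℕ) := (range (R + 1)).powerset.filter (fun T : Finset ℕ => 0 ∈ T ∧ T.card = k + 1 ∧
        (∀ h ∈ T, q ∣ h) ∧ Many c0 K N (fun n => n ≡ r [MOD q] ∧ ∀ t ≤ T.sup id, ((n + t).Prime ↔ t ∈ T))) with hGd
  -- the pattern of a set
  have hpat : ∀ S : Finset ℕ, ∃ T : Finset ℕ, S ∈ 𝒮 → T ∈ Gd ∧ ∃ m ∈ A, T.image (· + m) ⊆ S := by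
    intro S
    by_cases hS : S ∈ 𝒮
    · obtain ⟨B, hBS, hkB, hB⟩ := hN S hS
      have hS' := mem_powersetCard.1 hS
      obtain ⟨B', hB'B, hB'k, hB'i⟩ := init_seg k (B.card - (k + 1)) B (by omega)
      have hne : B'.Nonempty := card_pos.1 (by omega)
      set m := B'.min' hne with hm
      have hmB' : m ∈ B' := min'_mem _ _
      have hmA : m ∈ A := hS'.1 (hBS (hB'B hmB'))
      have hle : ∀ b ∈ B', m ≤ b := fun b hb => min'_le _ _ hb
      set T := B'.image (fun b => b - m) with hT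
      have hTm : ∀ t, t ∈ T ↔ t + m ∈ B' := by
        intro t
        rw [hT, mem_image]
        constructor
        · rintro ⟨b, hb, rfl⟩
          rw [Nat.sub_add_cancel (hle b hb)]
          exact hb
        · intro h
          exact ⟨t + m, h, Nat.add_sub_cancel _ _⟩
      have hB'R : ∀ b ∈ B', b ≤ R := fun b hb => hAR b (hS'.1 (hBS (hB'B hb)))
      refine ⟨T, fun _ => ⟨?_, m, hmA, ?_⟩⟩
      · rw [hGd, mem_filter, mem_powerset]
        refine ⟨?_, ?_, ?_, ?_, ?_⟩
        · intro t ht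
          rw [mem_range]
          have := hB'R _ ((hTm t).1 ht)
          omega
        · rw [hTm, zero_add]; exact hmB'
        · rw [hT, card_image_of_injOn, hB'k]
          intro x hx y hy he
          have h1 := hle x hx
          have h2 := hle y hy
          simp only at he
          omega
        · intro t ht
          have h1 := (hTm t).1 ht
          have h2 : q ∣ t + m := (Dvd.intro_left _ rfl).trans (hAP _ (hS'.1 (hBS (hB'B h1)))).1
          have h3 : q ∣ m := (Dvd.intro_left _ rfl).trans (hAP _ hmA).1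
          exact (Nat.dvd_add_iff_left h3).2 h2
        · apply (hB m (hAR m hmA)).mono (hc0S S hS)
          rintro n ⟨hmn, hn1, hn2⟩
          refine ⟨?_, ?_⟩
          · have h3 : q ∣ m := (Dvd.intro_left _ rfl).trans (hAP _ hmA).1
            have h4 : n - m + m ≡ r + 0 [MOD q] := hn1.add ((Nat.modEq_zero_iff_dvd).2 h3)
            rwa [Nat.sub_add_cancel hmn, add_zero] at h4
          · intro t ht
            -- the largest element
            have hT0 : T.Nonempty := ⟨0, by rw [hTm, zero_add]; exact hmB'⟩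
            obtain ⟨x, hx, hxs⟩ := exists_mem_eq_sup T hT0 (id : ℕ → ℕ)
            rw [hxs, id] at ht
            have hxB := (hTm x).1 hx
            have h5 := hn2 (t + m) (by have := hB'R _ hxB; omega)
            rw [show n - m + (t + m) = n + t by omega] at h5
            rw [h5, hTm]
            constructor
            · intro h6
              exact hB'i _ h6 _ hxB (by omega)
            · intro h6
              exact hB'B h6
      · intro x hx
        rw [mem_image] at hx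
        obtain ⟨t, ht, rfl⟩ := hx
        exact hBS (hB'B ((hTm t).1 ht))
    · exact ⟨∅, fun h => absurd h hS⟩
  choose Ψ hΨ using hpat
  have hcount : 𝒮.card ≤ (a * (a - (k + 1)).choose (K - (k + 1))) * Gd.card := by
    apply card_le_mul_card_image_of_maps_to (f := Ψ) (fun S hS => (hΨ S hS).1)
    intro T hT
    have hTk : T.card = k + 1 := (mem_filter.1 hT).2.2.1
    have hsub : 𝒮.filter (fun S => Ψ S = T) ⊆ A.biUnion (fun m => 𝒮.filter (fun S => T.image (· + m) ⊆ S)) := by
      intro S hS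
      rw [mem_filter] at hS
      obtain ⟨m, hm, h1⟩ := (hΨ S hS.1).2
      rw [mem_biUnion]
      exact ⟨m, hm, mem_filter.2 ⟨hS.1, hS.2 ▸ h1⟩⟩
    refine (card_le_card hsub).trans (card_biUnion_le.trans ?_)
    calc ∑ m ∈ A, (𝒮.filter (fun S => T.image (· + m) ⊆ S)).card ≤
        ∑ _m ∈ A, (a - (k + 1)).choose (K - (k + 1)) := by
          apply sum_le_sum
          intro m _
          by_cases hTA : T.image (· + m) ⊆ A
          · have := card_supersets A (T.image (· + m)) K hTA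
            rw [card_image_of_injective _ (add_left_injective m), hTk, hAcard] at this
            exact this
          · rw [filter_eq_empty_iff.2, card_empty]
            · exact Nat.zero_le _
            · intro S hS hc
              exact hTA (hc.trans (mem_powersetCard.1 hS).1)
      _ = a * (a - (k + 1)).choose (K - (k + 1)) := by rw [sum_const, smul_eq_mul, hAcard]
  have hcc := Nat.choose_mul (n := a) (k := K) (s := k + 1) hK
  have hpos : 0 < (a - (k + 1)).choose (K - (k + 1)) := Nat.choose_pos (by omega)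
  have hSc : 𝒮.card = a.choose K := by rw [h𝒮, card_powersetCard, hAcard]
  have h1 : a.choose (k + 1) ≤ K.choose (k + 1) * a * Gd.card := by
    have h2 : a.choose (k + 1) * (a - (k + 1)).choose (K - (k + 1)) ≤
        (K.choose (k + 1) * a * Gd.card) * (a - (k + 1)).choose (K - (k + 1)) := by
      rw [← hcc, ← hSc]
      calc 𝒮.card * K.choose (k + 1) ≤ ((a * (a - (k + 1)).choose (K - (k + 1))) * Gd.card) * K.choose (k + 1) :=
            Nat.mul_le_mul_right _ hcount
        _ = _ := by ring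
    exact Nat.le_of_mul_le_mul_right h2 hpos
  have h2 : ((a:ℝ) / 2) ^ (k + 1) / (k + 1).factorial ≤ ((a.choose (k + 1) : ℕ) : ℝ) := by
    have h3 := Nat.pow_le_choose (α := ℝ) (k + 1) a
    refine le_trans ?_ h3
    apply div_le_div_of_nonneg_right _ hkf.le
    apply pow_le_pow_left₀ (by positivity)
    have h4 : a ≤ 2 * (a + 1 - (k + 1)) := by omega
    have h5 : (a:ℝ) ≤ 2 * ((a + 1 - (k + 1) : ℕ) : ℝ) := by exact_mod_cast h4
    linarith
  have h1' : ((a.choose (k + 1) : ℕ) : ℝ) ≤ ((K.choose (k + 1) : ℕ) : ℝ) * a * Gd.card := by exact_mod_cast h1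
  have ha' : (0:ℝ) < a := by exact_mod_cast ha0
  have h3 : (a:ℝ) ^ k ≤ (2 ^ (k + 1) * (k + 1).factorial * (K.choose (k + 1) : ℕ)) * Gd.card := by
    have h4 := h2.trans h1'
    rw [div_pow, div_div, div_le_iff₀ (by positivity), pow_succ] at h4
    have h5 : (a:ℝ) ^ k * a ≤ ((2 ^ (k + 1) * (k + 1).factorial * (K.choose (k + 1) : ℕ)) * Gd.card) * a := by
      calc _ ≤ _ := h4
        _ = _ := by ring
    exact le_of_mul_le_mul_right h5 ha'
  rw [one_div, inv_mul_le_iff₀ (by positivity)]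
  calc (R:ℝ) ^ k ≤ (2 * P * a) ^ k := pow_le_pow_left₀ (Nat.cast_nonneg _) haR2 _
    _ = (2 * P) ^ k * (a:ℝ) ^ k := by rw [mul_pow]
    _ ≤ (2 * P) ^ k * ((2 ^ (k + 1) * (k + 1).factorial * (K.choose (k + 1) : ℕ)) * Gd.card) :=
        mul_le_mul_of_nonneg_left h3 (by positivity)
    _ = _ := by ring

end Pool.Agent.U28.PG
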