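import Pool.Agent.U28.PG.HL3

set_option autoImplicit false

open Finset Filter Topology

namespace Pool.Agent.U28.PG

open Pool.Agent.H378R2 Pool.Agent.H387R2 Pool.Agent.H387R2.MB

lemma mulaux {J2 CK g U a D C2 : ℝ} (hU : g * U ≤ a) (h1 : 0 ≤ J2 * CK) (h2 : 0 ≤ D * C2) :
    g * (J2 * (CK * U) + D * C2 * U) ≤ (J2 * CK + D * C2) * a := by
  have := mul_le_mul_of_nonneg_left hU (add_nonneg h1 h2)
  nlinarith

set_option maxHeartbeats 8000000 in
open Classical in
/-- upper bounds for the rough translates of all patterns with small shifts -/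
theorem unifA (k : ℕ) (hk : 1 ≤ k) : ∃ Cu : ℝ, 0 < Cu ∧ ∀ C : ℝ, ∀ᶠ N : ℕ in atTop,
    ∀ T : Finset ℕ, T.card = k + 1 → (∀ t ∈ T, (t : ℝ) ≤ Real.log N ^ C) → 0 < Uni.CT T →
      (∑ n ∈ Icc 1 ⌊3 * ((N:ℝ) / 4)⌋₊, Phi ((n:ℝ) / ((N:ℝ) / 4)) *
        (if ∀ a ∈ T, Rg (1 / 10) ((N:ℝ) / 4) (n + a) then 1 else 0) ≤ Cu * (Uni.CT T * (N / Real.log N ^ (k + 1)))) ∧
      (∀ H : ℕ, (H : ℝ) ≤ 8 * (Real.log N ^ (k + 1) / Uni.CT T) →
        ∑ n ∈ Icc 1 ⌊3 * ((N:ℝ) / 4)⌋₊, Phi ((n:ℝ) / ((N:ℝ) / 4)) *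
          ((if ∀ a ∈ T, Rg (1 / 10) ((N:ℝ) / 4) (n + a) then 1 else 0) *
            (((Icc 1 H).filter (fun d => ∀ a ∈ T, Rg (1 / 10) ((N:ℝ) / 4) (n + d + a))).card : ℝ)) ≤
          Cu * (Uni.CT T * (N / Real.log N ^ (k + 1)))) ∧
      1 ≤ Real.log N ^ (k + 1) / Uni.CT T ∧ Real.log N ^ (k + 1) / Uni.CT T ≤ 2 * Real.log N ^ (k + 3) := by
  classical
  set J := k + 1 with hJ
  obtain ⟨CK, hCK, huppK⟩ := upp_eventually J (δ := 1 / 10) (by norm_num)
  obtain ⟨C2, hC2, hupp2⟩ := upp_eventually (2 * J) (δ := 1 / 10) (by norm_num)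
  refine ⟨((J:ℝ) ^ 2 * CK + 18 * 400 ^ J * C2 + CK) * 400 ^ J, by positivity, fun C => ?_⟩
  have tN : Tendsto (fun N : ℕ => (N : ℝ)) atTop atTop := tendsto_natCast_atTop_atTop
  have tL : Tendsto (fun N : ℕ => Real.log (N : ℝ)) atTop atTop := Real.tendsto_log_atTop.comp tN
  have tu : Tendsto (fun N : ℕ => Real.log (Real.log (N : ℝ))) atTop atTop := Real.tendsto_log_atTop.comp tL
  have ty : Tendsto (fun N : ℕ => ⌊Real.log (Real.log (N : ℝ))⌋₊) atTop atTop :=
    tendsto_nat_floor_atTop.comp tu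
  have tX : Tendsto (fun N : ℕ => (N : ℝ) / 4) atTop atTop := tN.atTop_div_const (by norm_num)
  set C' : ℝ := |C| + (J + 5 : ℕ) with hC'
  have e4 : ∀ᶠ N : ℕ in atTop, Real.log (Real.log (N : ℝ)) ≤ 1 / 4000 * Real.log N := by
    have h := Real.isLittleO_log_id_atTop.def (show (0:ℝ) < 1 / 4000 by norm_num)
    filter_upwards [tL.eventually h, tL.eventually_ge_atTop 1] with N h1 h2
    simp only [id, Real.norm_eq_abs] at h1
    rw [abs_of_pos (by linarith : (0:ℝ) < Real.log N)] at h1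
    exact (le_abs_self _).trans h1
  have hBpow := tu.eventually (ev_pow_exp J (1 / 2) ((2:ℝ) ^ (J * J)) (by norm_num))
  filter_upwards [huppK C', hupp2 C', Uni.par_eventually 0 C (by norm_num : (0:ℝ) < 1 / 2) (by norm_num) 1,
    (LL_tendsto.comp tX).eventually_ge_atTop 1, tX.eventually_ge_atTop 40,
    ty.eventually_ge_atTop (2 * J ^ 2), tu.eventually_ge_atTop 1, hBpow, tL.eventually_ge_atTop 10, e4]
    with N huK hu2 hP h4 h5 h6 h7 h8 h9 h12
  intro T hT hTC hCT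
  set X := (N:ℝ) / 4 with hX
  set L := Real.log (N:ℝ) with hL
  set u := Real.log L with hu
  set y := ⌊u⌋₊ with hy
  set W := Uni.WW y with hW
  have hL0 : 0 < L := by linarith
  have hL1 : 1 ≤ L := by linarith
  have hLL1 : 1 ≤ LL X := h4
  have hLL0 : 0 < LL X := by linarith
  have hρ := rho_pos y
  have hρ1 := rho_le_one y
  have hWpos : 0 < W := Uni.WW_pos y
  have hW0 : (0:ℝ) < W := by exact_mod_cast hWpos
  have hW1 : (1:ℝ) ≤ W := by exact_mod_cast hWpos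
  have hX40 : 40 ≤ X := h5
  have hX0 : 0 < X := by linarith
  have hNX : (N:ℝ) = 4 * X := by rw [hX]; ring
  have hN0 : (0:ℝ) < N := by rw [hNX]; linarith only [hX0]
  have hLu : L = Real.exp u := by rw [hu, Real.exp_log hL0]
  have hLLL : L ≤ 400 * LL X := by
    have := log4X (by linarith : 4 ≤ X)
    rw [← hNX] at this
    exact this
  have hy1 : 1 ≤ y := by
    have : 1 ≤ J ^ 2 := Nat.one_le_pow _ _ (by omega)
    omega
  have hyu : (y:ℝ) ≤ u := Nat.floor_le (by linarith)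
  have hJ2 : 2 ≤ J := by omega
  have hWexp : (W:ℝ) ≤ Real.exp (3 / 2 * u) := W_le_exp (by linarith)
  have hWL2 : (W:ℝ) ≤ L ^ 2 := by
    refine hWexp.trans ?_
    rw [hLu, ← Real.exp_nat_mul]
    apply Real.exp_le_exp.2
    push_cast
    linarith
  have hφW : ((W : ℝ) / Nat.totient W) = 1 / rho y := by
    unfold rho
    rw [← hW, one_div_div]
  set g : ℝ := (Uni.gT W T : ℝ) with hg
  have hg0 : 0 ≤ g := Nat.cast_nonneg _
  set z := (1 / rho y) ^ J * (g / W) with hz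
  have hz0 : 0 ≤ z := by positivity
  have hzCT : z ≤ 2 * Uni.CT T := by
    have k1 := Uni.CT_ge T y hy1 (by rw [hT]; exact h6)
    rw [hT, ← hW, hφW] at k1
    linarith
  have hTM : ∀ t ∈ T, t ≤ ⌊L ^ C⌋₊ := fun t ht => Nat.le_floor (hTC t ht)
  have hCTz : Uni.CT T ≤ 2 ^ (J * J) * z := by
    have k1 := Uni.CT_le T y (K := 2) (by norm_num) hTM
      (fun n hn1 hn2 => (hP.htt n hn1 hn2).trans (by norm_num))
    rw [hT, ← hW, hφW] at k1
    exact k1
  have hgpos : 0 < Uni.gT W T := by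
    by_contra hc
    have h0 : Uni.gT W T = 0 := by omega
    have : z = 0 := by rw [hz, hg, h0]; simp
    rw [this, mul_zero] at hCTz
    linarith
  have hg1 : 1 ≤ g := by rw [hg]; exact_mod_cast hgpos
  have hgW : g ≤ W := by
    rw [hg]
    have : Uni.gT W T ≤ W := by
      unfold Uni.gT
      exact (card_filter_le _ _).trans (by rw [card_range])
    exact_mod_cast this
  have hρinv : 1 ≤ 1 / rho y := by rw [one_le_div hρ]; exact hρ1
  have hCTup : Uni.CT T ≤ Real.exp (1 / 2 * u) := by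
    refine hCTz.trans (le_trans ?_ h8)
    apply mul_le_mul_of_nonneg_left _ (by positivity)
    have k1 : 1 / rho y ≤ u := by
      have := rho_ge hy1
      have hy0 : (0:ℝ) < y := by exact_mod_cast hy1
      rw [div_le_iff₀ hρ]
      calc (1:ℝ) = y * (1 / y) := by field_simp
        _ ≤ u * rho y := mul_le_mul hyu this (by positivity) (by linarith)
    have k2 : g / W ≤ 1 := by rw [div_le_one hW0]; exact hgW
    calc z ≤ u ^ J * 1 := by
          rw [hz]
          exact mul_le_mul (pow_le_pow_left₀ (by positivity) k1 _) k2 (by positivity) (by positivity)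
      _ = u ^ J := mul_one _
  have hWCT : (W:ℝ) * Uni.CT T ≤ L ^ J := by
    calc (W:ℝ) * Uni.CT T ≤ Real.exp (3 / 2 * u) * Real.exp (1 / 2 * u) :=
          mul_le_mul hWexp hCTup hCT.le (Real.exp_pos _).le
      _ = Real.exp (2 * u) := by rw [← Real.exp_add]; ring_nf
      _ = L ^ 2 := by rw [hLu, ← Real.exp_nat_mul]; norm_num
      _ ≤ L ^ J := pow_le_pow_right₀ hL1 hJ2
  have hCTlow : 1 / (2 * (W:ℝ)) ≤ Uni.CT T := by
    have k1 : 1 / (W:ℝ) ≤ z := by
      calc 1 / (W:ℝ) ≤ g / W := div_le_div_of_nonneg_right hg1 hW0.le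
        _ = 1 * (g / W) := (one_mul _).symm
        _ ≤ z := mul_le_mul_of_nonneg_right (one_le_pow₀ hρinv) (by positivity)
    have k2 : 1 / (2 * (W:ℝ)) = 1 / (W:ℝ) / 2 := by field_simp
    rw [k2]
    linarith
  set Q := L ^ J / Uni.CT T with hQ
  have hLJ : 0 < L ^ J := by positivity
  have hQ0 : 0 < Q := by positivity
  have hWQ : (W:ℝ) ≤ Q := by rw [hQ, le_div_iff₀ hCT]; exact hWCT
  have hQ1 : 1 ≤ Q := hW1.trans hWQ
  have hQup : Q ≤ 2 * L ^ (J + 2) := by
    rw [hQ, div_le_iff₀ hCT]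
    have k1 : 1 ≤ 2 * (W:ℝ) * Uni.CT T := by
      have := mul_le_mul_of_nonneg_left hCTlow (by positivity : (0:ℝ) ≤ 2 * W)
      have e : 2 * (W:ℝ) * (1 / (2 * (W:ℝ))) = 1 := by field_simp
      linarith
    calc L ^ J = L ^ J * 1 := (mul_one _).symm
      _ ≤ L ^ J * (2 * (W:ℝ) * Uni.CT T) := mul_le_mul_of_nonneg_left k1 hLJ.le
      _ ≤ L ^ J * (2 * (L ^ 2) * Uni.CT T) := by gcongr
      _ = 2 * L ^ (J + 2) * Uni.CT T := by ring
  have hQ3 : 2 * L ^ (J + 2) = 2 * L ^ (k + 3) := rfl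
  -- bounds of the main quantities
  have hV0 : 0 < (N:ℝ) / L ^ J := by positivity
  have hUJ : g * UU J X y = z * (MPhi X / LL X ^ J) := by
    unfold UU
    rw [← hW, hz, mul_pow, one_div_pow]
    field_simp
  have hMu : MPhi X ≤ 2 * X := MPhi_le X (by linarith)
  have hr2 : MPhi X / LL X ^ J ≤ (400:ℝ) ^ J / 2 * (N / L ^ J) := by
    rw [hNX]
    have : (400:ℝ) ^ J / 2 * (4 * X / L ^ J) = (2 * X) / (L / 400) ^ J := by
      rw [div_pow]; field_simp; ring
    rw [this]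
    apply div_le_div₀ (by positivity) hMu (by positivity)
    apply pow_le_pow_left₀ (by positivity)
    linarith
  have hgUU : g * UU J X y ≤ 400 ^ J * (Uni.CT T * (N / L ^ J)) := by
    rw [hUJ]
    calc z * (MPhi X / LL X ^ J) ≤ z * ((400:ℝ) ^ J / 2 * (N / L ^ J)) := mul_le_mul_of_nonneg_left hr2 hz0
      _ ≤ (2 * Uni.CT T) * ((400:ℝ) ^ J / 2 * (N / L ^ J)) := mul_le_mul_of_nonneg_right hzCT (by positivity)
      _ = _ := by ring
  have hUU2 : g * UU (2 * J) X y = UU J X y * (z * W / LL X ^ J) := by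
    unfold UU
    rw [← hW, alg6, hz, mul_pow, one_div_pow]
    field_simp
  have hUJ0 : 0 ≤ UU J X y := UU_nonneg J hLL0.le y
  have hyb : (y:ℝ) ≤ Real.exp (1 / 10 * LL X) := by
    have := Real.add_one_le_exp (1 / 10 * LL X)
    have k0 : u ≤ 1 / 4000 * L := h12
    linarith
  have hCTV : 0 ≤ Uni.CT T * (N / L ^ J) := by positivity
  have hsize : ∀ H : ℕ, (H : ℝ) ≤ 8 * Q → ∀ s ∈ T, s + H ≤ ⌊L ^ C'⌋₊ := by
    intro H hH s hs
    apply Nat.le_floor
    push_cast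
    have k1 : (s:ℝ) ≤ L ^ |C| := (hTC s hs).trans (Real.rpow_le_rpow_of_exponent_le hL1 (le_abs_self C))
    have k2 : L ^ C' = L ^ |C| * L ^ (J + 5) := by
      rw [hC', Real.rpow_add hL0, Real.rpow_natCast]
    have k3 : 1 ≤ L ^ |C| := Real.one_le_rpow hL1 (abs_nonneg C)
    have k4 : 16 * L ^ (J + 2) + 1 ≤ L ^ (J + 5) := by
      have k6 : L ^ (J + 5) = L ^ (J + 2) * (L * (L * L)) := by ring
      have k7 : 17 ≤ L * (L * L) := by nlinarith
      have k8 : 1 ≤ L ^ (J + 2) := one_le_pow₀ hL1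
      rw [k6]
      nlinarith
    have k5 : 0 ≤ 16 * L ^ (J + 2) := by positivity
    rw [k2]
    have hH2 : (H:ℝ) ≤ 16 * L ^ (J + 2) := by linarith
    exact (aux2 k1 hH2 k3 k5).trans (mul_le_mul_of_nonneg_left k4 (zero_le_one.trans k3))
  refine ⟨?_, ?_, hQ1, hQup⟩
  · have k1 := up_le huK hyb T hT (fun a ha => by
      have := hsize 0 (by push_cast; positivity) a ha
      simpa using this)
    refine k1.trans ?_
    have k2 : g * (CK * UU J X y) ≤ CK * (400 ^ J * (Uni.CT T * (N / L ^ J))) := by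
      calc g * (CK * UU J X y) = CK * (g * UU J X y) := by ring
        _ ≤ _ := mul_le_mul_of_nonneg_left hgUU hCK.le
    refine k2.trans ?_
    have k3 : 0 ≤ ((J:ℝ) ^ 2 * CK + 18 * 400 ^ J * C2) * (400 ^ J * (Uni.CT T * (N / L ^ J))) := by positivity
    linarith
  · intro H hH
    have hen := energyT huK hu2 hCK.le hC2.le hLL0.le hyb T hT H (hsize H hH)
    refine hen.trans ?_
    have hratio : (((H / W : ℕ) : ℝ) + 1) * (z * W / LL X ^ J) ≤ 18 * 400 ^ J := by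
      have k1 : ((H / W : ℕ) : ℝ) ≤ H / W := Nat.cast_div_le
      have k2 : (((H / W : ℕ) : ℝ) + 1) * W ≤ 9 * Q := by
        calc (((H / W : ℕ) : ℝ) + 1) * W ≤ (H / W + 1) * W := by gcongr
          _ = H + W := by field_simp
          _ ≤ 9 * Q := by linarith
      have k3 : L ^ J ≤ 400 ^ J * LL X ^ J := by
        rw [← mul_pow]
        exact pow_le_pow_left₀ hL0.le hLLL _
      have k4 : 9 * Q * z ≤ 18 * L ^ J := by
        calc 9 * Q * z ≤ 9 * Q * (2 * Uni.CT T) := mul_le_mul_of_nonneg_left hzCT (by positivity)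
          _ = 18 * L ^ J := by rw [hQ]; field_simp; ring
      rw [← mul_div_assoc, div_le_iff₀ (by positivity)]
      calc (((H / W : ℕ) : ℝ) + 1) * (z * W) = ((((H / W : ℕ) : ℝ) + 1) * W) * z := by ring
        _ ≤ (9 * Q) * z := mul_le_mul_of_nonneg_right k2 hz0
        _ ≤ 18 * L ^ J := k4
        _ ≤ 18 * (400 ^ J * LL X ^ J) := by linarith
        _ = _ := by ring
    have k1 : g * (((H / W : ℕ) : ℝ) + 1) * (C2 * UU (2 * J) X y) ≤ 18 * 400 ^ J * C2 * UU J X y := by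
      calc g * (((H / W : ℕ) : ℝ) + 1) * (C2 * UU (2 * J) X y) =
          (((H / W : ℕ) : ℝ) + 1) * C2 * (g * UU (2 * J) X y) := by ring
        _ = ((((H / W : ℕ) : ℝ) + 1) * (z * W / LL X ^ J)) * (C2 * UU J X y) := by
            rw [hUU2]; ring
        _ ≤ (18 * 400 ^ J) * (C2 * UU J X y) := mul_le_mul_of_nonneg_right hratio (by positivity)
        _ = _ := by ring
    have k2 : g * ((J:ℝ) ^ 2 * (CK * UU J X y) + g * (((H / W : ℕ) : ℝ) + 1) * (C2 * UU (2 * J) X y)) ≤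
        g * ((J:ℝ) ^ 2 * (CK * UU J X y) + 18 * 400 ^ J * C2 * UU J X y) :=
      mul_le_mul_of_nonneg_left (by linarith) hg0
    refine k2.trans ((mulaux hgUU (by positivity) (by positivity)).trans ?_)
    have k3 : 0 ≤ CK * (400 ^ J * (Uni.CT T * (N / L ^ J))) := by positivity
    linarith

end Pool.Agent.U28.PG
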