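import Pool.Agent.U28.PG.TR1
import Pool.Agent.U28.PG.K45b

set_option autoImplicit false

open Finset Filter Topology

namespace Pool.Agent.U28.PG

open Pool.Agent.H378R2 Pool.Agent.H387R2 Pool.Agent.H387R2.MB

open Classical in
/-- the number of the elements of a set contained in the middle of one window -/
lemma winC {N1 : ℕ} {δ c : ℝ} {S : Finset ℕ} (hN1 : 0 < N1)
    (hE : ∑ n ∈ Icc 1 ⌊3 * ((N1:ℝ) / 4)⌋₊, Phi ((n:ℝ) / ((N1:ℝ) / 4)) *
        (if ∀ a ∈ S, Rg δ ((N1:ℝ) / 4) (n + a) then 1 else 0) ≤ c)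
    (B : Finset ℕ) (hB : ∀ n ∈ B, 11 / 10 * ((N1:ℝ) / 4) ≤ n ∧ (n:ℝ) ≤ 5 / 2 * ((N1:ℝ) / 4) ∧
      ∀ a ∈ S, Rg δ ((N1:ℝ) / 4) (n + a)) :
    (B.card : ℝ) ≤ 20 * c := by
  have hX : (0:ℝ) < (N1:ℝ) / 4 := by
    have : (0:ℝ) < N1 := by exact_mod_cast hN1
    positivity
  refine le_trans ?_ (mul_le_mul_of_nonneg_left hE (by norm_num : (0:ℝ) ≤ 20))
  rw [mul_sum]
  have hsub : B ⊆ Icc 1 ⌊3 * ((N1:ℝ) / 4)⌋₊ := by
    intro n hn
    obtain ⟨h1, h2, _⟩ := hB n hn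
    rw [mem_Icc]
    refine ⟨?_, Nat.le_floor (by linarith)⟩
    by_contra hc
    have : n = 0 := by omega
    rw [this] at h1
    push_cast at h1
    linarith
  refine le_trans ?_ (sum_le_sum_of_subset_of_nonneg hsub ?_)
  · rw [card_eq_sum_ones]
    push_cast
    apply sum_le_sum
    intro n hn
    obtain ⟨h1, h2, h3⟩ := hB n hn
    rw [if_pos h3, mul_one]
    have hPh : 1 / 20 ≤ Phi ((n:ℝ) / ((N1:ℝ) / 4)) := by
      apply Phi_mid
      · rw [le_div_iff₀ hX]; exact h1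
      · rw [div_le_iff₀ hX]; exact h2
    linarith
  · intro n _ _
    have := Phi_nonneg ((n:ℝ) / ((N1:ℝ) / 4))
    split_ifs <;> positivity

/-- numerical facts on the window `(V, 2 V + 2]` -/
lemma win_num {V n : ℕ} (hV : 100 ≤ V) (h1 : V < n) (h2 : n ≤ 2 * V + 2) :
    11 / 10 * (((40 * V / 11 : ℕ) : ℝ) / 4) ≤ n ∧ (n:ℝ) ≤ 5 / 2 * (((40 * V / 11 : ℕ) : ℝ) / 4) := by
  have e1 : ((40 * V / 11 : ℕ) : ℝ) ≤ 40 * V / 11 := by
    have := Nat.cast_div_le (α := ℝ) (m := 40 * V) (n := 11)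
    push_cast at this
    exact this
  have e2 : 40 * (V:ℝ) / 11 - 1 ≤ ((40 * V / 11 : ℕ) : ℝ) := by
    have e3 : 40 * V < 11 * (40 * V / 11) + 11 := by omega
    have e4 : (40 * V : ℝ) < 11 * ((40 * V / 11 : ℕ) : ℝ) + 11 := by exact_mod_cast e3
    linarith
  have h1' : (V:ℝ) < n := by exact_mod_cast h1
  have h2' : (n:ℝ) ≤ 2 * V + 2 := by exact_mod_cast h2
  have hV' : (100:ℝ) ≤ V := by exact_mod_cast hV
  constructor <;> linarith

/-- primes of the window are rough -/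
lemma prime_rough {V n : ℕ} {T : Finset ℕ} (hV : 100 ≤ V) (h1 : V < n) (hp : ∀ t ∈ T, (n + t).Prime) :
    ∀ a ∈ T, Rg (1 / 10) (((40 * V / 11 : ℕ) : ℝ) / 4) (n + a) := by
  intro a ha p hp' hd
  rw [mem_PS] at hp'
  have h5 : p = n + a := (Nat.prime_dvd_prime_iff_eq hp'.1 (hp a ha)).1 hd
  have h6 := hp'.2
  have e1 : ((40 * V / 11 : ℕ) : ℝ) ≤ 40 * V / 11 := by
    have := Nat.cast_div_le (α := ℝ) (m := 40 * V) (n := 11)
    push_cast at this
    exact this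
  have e2 : 40 * (V:ℝ) / 11 - 1 ≤ ((40 * V / 11 : ℕ) : ℝ) := by
    have e3 : 40 * V < 11 * (40 * V / 11) + 11 := by omega
    have e4 : (40 * V : ℝ) < 11 * ((40 * V / 11 : ℕ) : ℝ) + 11 := by exact_mod_cast e3
    linarith
  have hV' : (100:ℝ) ≤ V := by exact_mod_cast hV
  set X := ((40 * V / 11 : ℕ) : ℝ) / 4 with hX
  have hX1 : 1 ≤ X := by rw [hX]; linarith
  have h7 : Real.exp (1 / 10 * LL X) ≤ X := by
    calc Real.exp (1 / 10 * LL X) ≤ Real.exp (Real.log X) := by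
          apply Real.exp_le_exp.2
          unfold LL
          have : 0 ≤ Real.log X := Real.log_nonneg hX1
          linarith
      _ = X := Real.exp_log (by linarith)
  have h8 : X ≤ V := by rw [hX]; linarith
  rw [h5] at h6
  push_cast at h6
  have h9 : (V:ℝ) < n := by exact_mod_cast h1
  have h10 : (0:ℝ) ≤ a := Nat.cast_nonneg a
  linarith

lemma t4011 : Tendsto (fun V : ℕ => 40 * V / 11) atTop atTop := by
  rw [tendsto_atTop]
  intro b
  filter_upwards [eventually_ge_atTop b] with V hV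
  omega

open Classical in
/-- counting and energy in a window -/
theorem window (k : ℕ) (hk : 1 ≤ k) : ∃ Cu : ℝ, 0 < Cu ∧ ∀ C : ℝ, ∀ᶠ V : ℕ in atTop,
    ∀ T : Finset ℕ, T.card = k + 1 → (∀ t ∈ T, (t : ℝ) ≤ Real.log (40 * V / 11 : ℕ) ^ C) → 0 < Uni.CT T →
      ∀ B : Finset ℕ, (∀ n ∈ B, V < n ∧ n ≤ 2 * V + 2 ∧ ∀ t ∈ T, (n + t).Prime) →
      ((B.card : ℝ) ≤ Cu * (Uni.CT T * (V / Real.log (40 * V / 11 : ℕ) ^ (k + 1)))) ∧
      (∀ H : ℕ, (H : ℝ) ≤ 8 * (Real.log (40 * V / 11 : ℕ) ^ (k + 1) / Uni.CT T) →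
        ∑ n ∈ B, (((Icc 1 H).filter (fun d => ∀ a ∈ T, Rg (1 / 10) (((40 * V / 11 : ℕ):ℝ) / 4) (n + d + a))).card : ℝ)
          ≤ Cu * (Uni.CT T * (V / Real.log (40 * V / 11 : ℕ) ^ (k + 1)))) ∧
      1 ≤ Real.log (40 * V / 11 : ℕ) ^ (k + 1) / Uni.CT T ∧
      Real.log (40 * V / 11 : ℕ) ^ (k + 1) / Uni.CT T ≤ 2 * Real.log (40 * V / 11 : ℕ) ^ (k + 3) := by
  obtain ⟨Cu, hCu, h⟩ := unifA k hk
  refine ⟨80 * Cu, by positivity, fun C => ?_⟩
  filter_upwards [t4011.eventually (h C), eventually_ge_atTop 100] with V hV hV100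
  intro T hT hTC hCT B hB
  obtain ⟨h1, h2, h3, h4⟩ := hV T hT hTC hCT
  set N1 := 40 * V / 11 with hN1
  have hN1pos : 0 < N1 := by omega
  have hN1V : (N1:ℝ) ≤ 4 * V := by
    have : N1 ≤ 4 * V := by omega
    exact_mod_cast this
  have hL : 0 ≤ Real.log (N1:ℝ) := Real.log_nonneg (by exact_mod_cast hN1pos)
  have hup : 20 * (Cu * (Uni.CT T * (N1 / Real.log N1 ^ (k + 1)))) ≤
      80 * Cu * (Uni.CT T * (V / Real.log N1 ^ (k + 1))) := by
    have e1 : (N1:ℝ) / Real.log N1 ^ (k + 1) ≤ 4 * V / Real.log N1 ^ (k + 1) := by gcongr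
    calc 20 * (Cu * (Uni.CT T * (N1 / Real.log N1 ^ (k + 1)))) ≤
        20 * (Cu * (Uni.CT T * (4 * V / Real.log N1 ^ (k + 1)))) := by gcongr
      _ = _ := by ring
  refine ⟨?_, ?_, h3, h4⟩
  · refine (winC hN1pos h1 B fun n hn => ?_).trans hup
    obtain ⟨b1, b2, b3⟩ := hB n hn
    have := win_num hV100 b1 b2
    exact ⟨this.1, this.2, prime_rough hV100 b1 b3⟩
  · intro H hH
    have h5 := h2 H hH
    refine le_trans ?_ hup
    have h6 := winE (J := k + 1) (H := H) (N1 := N1) (δ := 1 / 10) (C := Cu * Uni.CT T) (S := T)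
      (fun n => ∀ a ∈ T, Rg (1 / 10) ((N1:ℝ) / 4) (n + a)) hN1pos (by
        refine le_trans (le_of_eq ?_) (h5.trans (le_of_eq (by ring)))
        congr!) (fun n hn => hn) B (fun n hn => by
        obtain ⟨b1, b2, b3⟩ := hB n hn
        have := win_num hV100 b1 b2
        exact ⟨this.1, this.2, prime_rough hV100 b1 b3⟩)
    refine le_trans (le_of_eq ?_) (h6.trans (le_of_eq (by ring)))
    apply sum_congr rfl
    intro n _
    congr!

end Pool.Agent.U28.PG
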