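import Pool.Agent.U28.PG.TR2

set_option autoImplicit false

open Finset Filter Topology

namespace Pool.Agent.U28.PG

open Pool.Agent.H378R2 Pool.Agent.H387R2 Pool.Agent.H387R2.MB

lemma log_shift {N V L : ℝ} {a : ℝ} (ha : 1 ≤ a) (hN : 0 < N) (hV : 0 < V) (h : N ≤ a * V) (hL : L = Real.log N) :
    L - Real.log a ≤ Real.log V := by
  rw [hL]
  have := Real.log_le_log hN h
  rw [Real.log_mul (by linarith) hV.ne'] at this
  linarith

open Classical in
/-- **the tuples up to `V`, for all `V ≤ N`** -/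
theorem tail (k : ℕ) (hk : 1 ≤ k) : ∃ Ct : ℝ, 0 < Ct ∧ ∀ C : ℝ, ∀ᶠ N : ℕ in atTop,
    ∀ T : Finset ℕ, T.card = k + 1 → (∀ t ∈ T, (t : ℝ) ≤ Real.log N ^ C) → 0 < Uni.CT T →
      ∀ V : ℕ, V ≤ N → (((Icc 1 V).filter (fun n => ∀ t ∈ T, (n + t).Prime)).card : ℝ) ≤
        Ct * (Uni.CT T * (V / Real.log N ^ (k + 1))) + Real.sqrt N := by
  obtain ⟨Cu, hCu, h⟩ := window k hk
  refine ⟨4 ^ (k + 1) * Cu, by positivity, fun C => ?_⟩
  obtain ⟨V0, hV0⟩ := eventually_atTop.1 (h (|C| + 1))
  have tN : Tendsto (fun N : ℕ => (N : ℝ)) atTop atTop := tendsto_natCast_atTop_atTop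
  have tL : Tendsto (fun N : ℕ => Real.log (N : ℝ)) atTop atTop := Real.tendsto_log_atTop.comp tN
  have tS : Tendsto (fun N : ℕ => Real.sqrt (N : ℝ)) atTop atTop := Real.tendsto_sqrt_atTop.comp tN
  filter_upwards [tS.eventually_ge_atTop (2 * V0 + 300), tL.eventually_ge_atTop (4 * (4:ℝ) ^ |C| + 20)]
    with N h1 h2
  intro T hT hTC hCT
  set L := Real.log (N:ℝ) with hL
  have h4C : 0 < (4:ℝ) ^ |C| := Real.rpow_pos_of_pos (by norm_num) _
  have hV00 : (0:ℝ) ≤ V0 := Nat.cast_nonneg _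
  have hL20 : 20 ≤ L := by linarith
  have hL0 : 0 < L := by linarith
  have hN1 : (1:ℝ) < N := by
    by_contra hc
    have : L ≤ 0 := Real.log_nonpos (Nat.cast_nonneg _) (not_lt.1 hc)
    linarith
  have hN0 : (0:ℝ) < N := by linarith
  have hss : Real.sqrt N * Real.sqrt N = N := Real.mul_self_sqrt hN0.le
  intro V
  induction V using Nat.strong_induction_on with
  | _ V ih =>
    intro hVN
    have hVr : (V:ℝ) ≤ N := by exact_mod_cast hVN
    by_cases hVs : (V:ℝ) ≤ Real.sqrt N
    · have k1 : (((Icc 1 V).filter (fun n => ∀ t ∈ T, (n + t).Prime)).card : ℝ) ≤ V := by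
        have := card_filter_le (Icc 1 V) (fun n => ∀ t ∈ T, (n + t).Prime)
        rw [Nat.card_Icc] at this
        exact_mod_cast (show ((Icc 1 V).filter (fun n => ∀ t ∈ T, (n + t).Prime)).card ≤ V by omega)
      have k2 : 0 ≤ 4 ^ (k + 1) * Cu * (Uni.CT T * (V / L ^ (k + 1))) := by positivity
      linarith
    · rw [not_le] at hVs
      have hV1 : (300:ℝ) < V := by linarith
      have hV1' : 300 < V := by exact_mod_cast hV1
      set V' := V / 2 with hV'
      have hV'1 : V' < V := by omega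
      have e1 : V ≤ 2 * V' + 1 := by omega
      have e1' : (V:ℝ) ≤ 2 * V' + 1 := by exact_mod_cast e1
      have e2 : 2 * V' ≤ V := by omega
      have e2' : 2 * (V':ℝ) ≤ V := by exact_mod_cast e2
      have e3 : V0 ≤ V' := by
        have : (V0:ℝ) ≤ V' := by linarith
        exact_mod_cast this
      set N1 := 40 * V' / 11 with hN1d
      have hN1V' : V' ≤ N1 := by omega
      have hN1V'r : (V':ℝ) ≤ N1 := by exact_mod_cast hN1V'
      have hV'0 : (0:ℝ) < V' := by linarith
      have hL1 : L / 4 ≤ Real.log (N1:ℝ) := by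
        have f1 : Real.sqrt N ≤ 4 * N1 := by linarith
        have f2 : Real.log (Real.sqrt N) = L / 2 := by
          rw [Real.log_sqrt hN0.le]
        have f3 := Real.log_le_log (by linarith : 0 < Real.sqrt N) f1
        rw [f2, Real.log_mul (by norm_num) (by linarith)] at f3
        have f4 : Real.log 4 ≤ 3 := by
          have := Real.log_le_sub_one_of_pos (show (0:ℝ) < 4 by norm_num)
          linarith
        linarith
      have hL1' : 0 < Real.log (N1:ℝ) := by linarith
      have hTC' : ∀ t ∈ T, (t : ℝ) ≤ Real.log (N1:ℝ) ^ (|C| + 1) := by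
        intro t ht
        refine (hTC t ht).trans ?_
        calc L ^ C ≤ L ^ |C| := Real.rpow_le_rpow_of_exponent_le (by linarith) (le_abs_self C)
          _ ≤ (4 * Real.log (N1:ℝ)) ^ |C| := Real.rpow_le_rpow hL0.le (by linarith) (abs_nonneg C)
          _ = (4:ℝ) ^ |C| * Real.log (N1:ℝ) ^ |C| := Real.mul_rpow (by norm_num) hL1'.le
          _ ≤ Real.log (N1:ℝ) * Real.log (N1:ℝ) ^ |C| := by
              apply mul_le_mul_of_nonneg_right _ (Real.rpow_nonneg hL1'.le _)
              linarith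
          _ = Real.log (N1:ℝ) ^ (|C| + 1) := by
              rw [Real.rpow_add hL1', Real.rpow_one]
              ring
      obtain ⟨w1, _, _, _⟩ := hV0 V' e3 T hT hTC' hCT
        ((Ioc V' V).filter (fun n => ∀ t ∈ T, (n + t).Prime)) (by
          intro n hn
          rw [mem_filter, mem_Ioc] at hn
          exact ⟨hn.1.1, by omega, hn.2⟩)
      have ih' := ih V' hV'1 (by omega)
      have hsplit : (((Icc 1 V).filter (fun n => ∀ t ∈ T, (n + t).Prime)).card : ℝ) ≤
          (((Icc 1 V').filter (fun n => ∀ t ∈ T, (n + t).Prime)).card : ℝ) +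
          (((Ioc V' V).filter (fun n => ∀ t ∈ T, (n + t).Prime)).card : ℝ) := by
        rw [← Nat.cast_add, Nat.cast_le]
        refine (card_le_card ?_).trans (card_union_le _ _)
        intro n hn
        rw [mem_filter, mem_Icc] at hn
        rw [mem_union, mem_filter, mem_filter, mem_Icc, mem_Ioc]
        by_cases hc : n ≤ V'
        · exact Or.inl ⟨⟨hn.1.1, hc⟩, hn.2⟩
        · exact Or.inr ⟨⟨by omega, hn.1.2⟩, hn.2⟩
      have hp : L ^ (k + 1) ≤ 4 ^ (k + 1) * Real.log (N1:ℝ) ^ (k + 1) := by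
        rw [← mul_pow]
        exact pow_le_pow_left₀ hL0.le (by linarith) _
      have w2 : Cu * (Uni.CT T * (V' / Real.log (N1:ℝ) ^ (k + 1))) ≤
          4 ^ (k + 1) * Cu * (Uni.CT T * (V / 2 / L ^ (k + 1))) := by
        have q1 : (V':ℝ) / Real.log (N1:ℝ) ^ (k + 1) ≤ 4 ^ (k + 1) * (V / 2 / L ^ (k + 1)) := by
          rw [div_le_iff₀ (by positivity)]
          have q2 : 4 ^ (k + 1) * ((V:ℝ) / 2 / L ^ (k + 1)) * Real.log (N1:ℝ) ^ (k + 1) =
              (V:ℝ) / 2 * ((4 ^ (k + 1) * Real.log (N1:ℝ) ^ (k + 1)) / L ^ (k + 1)) := by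
            field_simp
          rw [q2]
          have q3 : 1 ≤ (4 ^ (k + 1) * Real.log (N1:ℝ) ^ (k + 1)) / L ^ (k + 1) := by
            rw [le_div_iff₀ (by positivity), one_mul]
            exact hp
          calc (V':ℝ) ≤ (V:ℝ) / 2 * 1 := by linarith
            _ ≤ _ := mul_le_mul_of_nonneg_left q3 (by positivity)
        calc Cu * (Uni.CT T * (V' / Real.log (N1:ℝ) ^ (k + 1))) ≤
            Cu * (Uni.CT T * (4 ^ (k + 1) * (V / 2 / L ^ (k + 1)))) := by gcongr
          _ = _ := by ring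
      have w3 : 4 ^ (k + 1) * Cu * (Uni.CT T * (V' / L ^ (k + 1))) ≤
          4 ^ (k + 1) * Cu * (Uni.CT T * (V / 2 / L ^ (k + 1))) := by
        have : (V':ℝ) ≤ V / 2 := by linarith
        gcongr
      calc (((Icc 1 V).filter (fun n => ∀ t ∈ T, (n + t).Prime)).card : ℝ) ≤ _ := hsplit
        _ ≤ (4 ^ (k + 1) * Cu * (Uni.CT T * (V' / L ^ (k + 1))) + Real.sqrt N) +
            4 ^ (k + 1) * Cu * (Uni.CT T * (V / 2 / L ^ (k + 1))) := add_le_add ih' (w1.trans w2)
        _ ≤ (4 ^ (k + 1) * Cu * (Uni.CT T * (V / 2 / L ^ (k + 1))) + Real.sqrt N) +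
            4 ^ (k + 1) * Cu * (Uni.CT T * (V / 2 / L ^ (k + 1))) := by linarith
        _ = _ := by ring

open Classical in
/-- a dense set is dense in some dyadic window -/
lemma some_window (B : Finset ℕ) (N : ℕ) (Y κ : ℝ) (j0 : ℕ)
    (hB : ∀ n ∈ B, 1 ≤ n ∧ n ≤ N) (htail : ((B.filter (fun n => n ≤ N / 2 ^ j0)).card : ℝ) + j0 * (κ * Y) < B.card) :
    ∃ j < j0, κ * Y ≤ ((B.filter (fun n => N / 2 ^ (j + 1) < n ∧ n ≤ N / 2 ^ j)).card : ℝ) := by
  by_contra hcon
  push Not at hcon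
  have hind : ∀ j : ℕ, j ≤ j0 → (B.card : ℝ) ≤ ((B.filter (fun n => n ≤ N / 2 ^ j)).card : ℝ) + j * (κ * Y) := by
    intro j
    induction j with
    | zero =>
      intro _
      rw [pow_zero, Nat.div_one]
      have : B.filter (fun n => n ≤ N) = B := filter_true_of_mem fun n hn => (hB n hn).2
      rw [this]
      push_cast
      linarith
    | succ j ih =>
      intro hj
      have h1 := ih (by omega)
      have h2 := hcon j (by omega)
      have h3 : ((B.filter (fun n => n ≤ N / 2 ^ j)).card : ℝ) ≤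
          ((B.filter (fun n => n ≤ N / 2 ^ (j + 1))).card : ℝ) +
          ((B.filter (fun n => N / 2 ^ (j + 1) < n ∧ n ≤ N / 2 ^ j)).card : ℝ) := by
        rw [← Nat.cast_add, Nat.cast_le]
        refine (card_le_card ?_).trans (card_union_le _ _)
        intro n hn
        rw [mem_filter] at hn
        rw [mem_union, mem_filter, mem_filter]
        by_cases hc : n ≤ N / 2 ^ (j + 1)
        · exact Or.inl ⟨hn.1, hc⟩
        · exact Or.inr ⟨hn.1, not_le.1 hc, hn.2⟩
      push_cast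
      linarith
  have := hind j0 le_rfl
  linarith

end Pool.Agent.U28.PG
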