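import Pool.Agent.U28.PG.TR3

set_option autoImplicit false

open Finset Filter Topology

namespace Pool.Agent.U28.PG

open Pool.Agent.H378R2 Pool.Agent.H387R2 Pool.Agent.H387R2.MB

lemma exists_j0 {Ct κ0 : ℝ} (hCt : 0 < Ct) (hκ0 : 0 < κ0) : ∃ j0 : ℕ, Ct / 2 ^ j0 ≤ κ0 / 4 := by
  obtain ⟨j, hj⟩ := pow_unbounded_of_one_lt (4 * Ct / κ0) (by norm_num : (1:ℝ) < 2)
  refine ⟨j, ?_⟩
  rw [div_le_iff₀ (by positivity)]
  rw [div_lt_iff₀ hκ0] at hj
  linarith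

set_option maxHeartbeats 8000000 in
open Classical in
/-- **Transfer: from the count up to `N` to all short intervals**, for every subset of the prime tuples of a pattern
with shifts at most a power of `log N`. -/
theorem transfer (k : ℕ) (hk : 1 ≤ k) {κ0 : ℝ} (hκ0 : 0 < κ0) : ∃ κ1 : ℝ, 0 < κ1 ∧ ∀ C : ℝ, ∀ᶠ N : ℕ in atTop,
    ∀ T : Finset ℕ, T.card = k + 1 → (∀ t ∈ T, (t : ℝ) ≤ Real.log N ^ C) → 0 < Uni.CT T →
      ∀ P : ℕ → Prop, κ0 * (Uni.CT T * (N / Real.log N ^ (k + 1))) ≤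
        (((Icc 1 N).filter (fun n => P n ∧ ∀ t ∈ T, (n + t).Prime)).card : ℝ) →
      AllLengths κ1 (Uni.CT T / Real.log N ^ (k + 1)) N P := by
  obtain ⟨Cu, hCu, hwin⟩ := window k hk
  obtain ⟨Ct, hCt, htail⟩ := tail k hk
  obtain ⟨Cu', hCu', hun⟩ := unifA k hk
  obtain ⟨j0, hj0⟩ := exists_j0 hCt hκ0
  set κ' : ℝ := κ0 / (2 * (j0 + 1)) with hκ'
  have hκ'0 : 0 < κ' := by positivity
  set R : ℝ := 8 * Cu / κ' with hR
  have hR0 : 0 < R := by positivity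
  set J := k + 1 with hJ
  have hJ1 : (1:ℝ) ≤ J := by rw [hJ]; push_cast; linarith [(Nat.cast_nonneg k : (0:ℝ) ≤ k)]
  refine ⟨min (κ' / 2 / (8 * (R + 1))) (κ' / 2 / 16), lt_min (by positivity) (by positivity), fun C => ?_⟩
  obtain ⟨V0, hV0⟩ := eventually_atTop.1 (hwin (|C| + 1))
  have tN : Tendsto (fun N : ℕ => (N : ℝ)) atTop atTop := tendsto_natCast_atTop_atTop
  have tL : Tendsto (fun N : ℕ => Real.log (N : ℝ)) atTop atTop := Real.tendsto_log_atTop.comp tN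
  have t4C : (0:ℝ) < (2:ℝ) ^ |C| := Real.rpow_pos_of_pos (by norm_num) _
  filter_upwards [htail C, hun C, tN.eventually_ge_atTop (2 ^ (j0 + 2) * (V0 + 100) : ℝ),
    tN.eventually (Uni.log_pow_small ((J + 2 : ℕ) : ℝ) (η := 1 / (2 ^ (j0 + 4))) (by positivity)),
    tN.eventually (Uni.log_pow_small ((2 * (J + 2) : ℕ) : ℝ) (η := (κ0 / 16) ^ 2) (by positivity)),
    tL.eventually_ge_atTop (2 * (j0 + 2) * (4 * J / 3) + 2 * (2:ℝ) ^ |C| + 20)] with N h1 h1' h2 h3 h4 h5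
  intro T hT hTC hCT P hP
  set L := Real.log (N:ℝ) with hL
  have hj00 : (0:ℝ) ≤ j0 := Nat.cast_nonneg _
  have hj0J : 0 ≤ 2 * ((j0:ℝ) + 2) * (4 * J / 3) := by positivity
  have hL20 : 20 ≤ L := by linarith
  have hL0 : 0 < L := by linarith
  have hL1 : 1 ≤ L := by linarith
  have hN1 : (1:ℝ) < N := by
    by_contra hc
    have : L ≤ 0 := Real.log_nonpos (Nat.cast_nonneg _) (not_lt.1 hc)
    linarith
  have hN0 : (0:ℝ) < N := by linarith
  rw [Real.rpow_natCast] at h3 h4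
  have hLJ : 0 < L ^ J := by positivity
  set Q := L ^ J / Uni.CT T with hQ
  have hQ0 : 0 < Q := by positivity
  set Y := Uni.CT T * (N / L ^ J) with hY
  have hY0 : 0 < Y := by positivity
  have hYQ : Y = N / Q := by rw [hY, hQ]; field_simp
  set B : Finset ℕ := (Icc 1 N).filter (fun n => P n ∧ ∀ t ∈ T, (n + t).Prime) with hB
  -- windows `N / 2 ^ (j+1)`, `j < j0`
  have hwV : ∀ j < j0, (N:ℝ) / 2 ^ (j0 + 1) ≤ ((N / 2 ^ (j + 1) : ℕ) : ℝ) + 1 := by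
    intro j hj
    have e1 : (N:ℝ) / 2 ^ (j + 1) < ((N / 2 ^ (j + 1) : ℕ) : ℝ) + 1 := by
      have := Nat.lt_floor_add_one ((N:ℝ) / ((2 ^ (j + 1) : ℕ) : ℝ))
      rw [Nat.floor_div_eq_div] at this
      push_cast at this
      exact this
    have e2 : (N:ℝ) / 2 ^ (j0 + 1) ≤ (N:ℝ) / 2 ^ (j + 1) := by
      apply div_le_div_of_nonneg_left hN0.le (by positivity)
      exact pow_le_pow_right₀ (by norm_num) (by omega)
    linarith
  have hbig : (V0:ℝ) + 100 ≤ (N:ℝ) / 2 ^ (j0 + 2) := by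
    rw [le_div_iff₀ (by positivity)]
    linarith
  have hhalf : (N:ℝ) / 2 ^ (j0 + 1) = 2 * ((N:ℝ) / 2 ^ (j0 + 2)) := by
    rw [pow_succ (2:ℝ) (j0 + 1)]
    field_simp
  have hV00 : (0:ℝ) ≤ V0 := Nat.cast_nonneg _
  -- facts about one window
  have hfact : ∀ j < j0, V0 ≤ N / 2 ^ (j + 1) ∧ (N:ℝ) / 2 ^ (j0 + 2) ≤ ((N / 2 ^ (j + 1) : ℕ) : ℝ) ∧
      L ^ J ≤ 4 * Real.log (40 * (N / 2 ^ (j + 1)) / 11 : ℕ) ^ J ∧
      (∀ t ∈ T, (t : ℝ) ≤ Real.log (40 * (N / 2 ^ (j + 1)) / 11 : ℕ) ^ (|C| + 1)) := by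
    intro j hj
    set V := N / 2 ^ (j + 1) with hV
    have e1 := hwV j hj
    rw [← hV, hhalf] at e1
    have e2 : (N:ℝ) / 2 ^ (j0 + 2) ≤ (V:ℝ) := by linarith
    have e3 : (V0:ℝ) ≤ V := by linarith
    have e4 : (100:ℝ) ≤ V := by linarith
    have e4' : 100 ≤ V := by exact_mod_cast e4
    set N1 := 40 * V / 11 with hN1d
    have hN1V : V ≤ N1 := by omega
    have hN1Vr : (V:ℝ) ≤ N1 := by exact_mod_cast hN1V
    have e5 : (N:ℝ) ≤ 2 ^ (j0 + 2) * N1 := by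
      rw [div_le_iff₀ (by positivity)] at e2
      calc (N:ℝ) ≤ V * 2 ^ (j0 + 2) := e2
        _ ≤ N1 * 2 ^ (j0 + 2) := by gcongr
        _ = _ := mul_comm _ _
    have e6 := log_shift (one_le_pow₀ (by norm_num : (1:ℝ) ≤ 2)) hN0 (by linarith : (0:ℝ) < N1) e5 hL
    rw [Real.log_pow] at e6
    have e7 : ((j0 + 2 : ℕ) : ℝ) * Real.log 2 ≤ j0 + 2 := by
      have := Real.log_two_lt_d9
      push_cast
      nlinarith
    have e8 : (1 - 3 / (4 * J)) * L ≤ Real.log (N1:ℝ) := by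
      have q1 : (j0:ℝ) + 2 ≤ 3 / (4 * J) * L := by
        have q2 : 2 * ((j0:ℝ) + 2) * (4 * J / 3) ≤ L := by linarith
        have q3 : ((j0:ℝ) + 2) * (4 * J / 3) ≤ L := by
          have : 0 ≤ ((j0:ℝ) + 2) * (4 * J / 3) := by positivity
          linarith
        calc (j0:ℝ) + 2 = 3 / (4 * J) * (((j0:ℝ) + 2) * (4 * J / 3)) := by field_simp
          _ ≤ 3 / (4 * J) * L := by gcongr
      linarith
    have e9 : (1:ℝ) / 4 ≤ (1 - 3 / (4 * J)) ^ J := by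
      have q1 : (-2:ℝ) ≤ -(3 / (4 * J)) := by
        have : 3 / (4 * (J:ℝ)) ≤ 1 := by
          rw [div_le_one (by positivity)]
          linarith
        linarith
      have q2 := one_add_mul_le_pow q1 J
      have q3 : 1 + (J:ℝ) * -(3 / (4 * J)) = 1 / 4 := by field_simp; norm_num
      rw [q3] at q2
      exact q2
    have e10 : 0 ≤ 1 - 3 / (4 * (J:ℝ)) := by
      have : 3 / (4 * (J:ℝ)) ≤ 1 := by
        rw [div_le_one (by positivity)]
        linarith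
      linarith
    have e11 : L / 2 ≤ Real.log (N1:ℝ) := by
      have q1 : ((j0:ℝ) + 2) ≤ L / 2 := by
        have q3 : 2 * ((j0:ℝ) + 2) * 1 ≤ 2 * ((j0:ℝ) + 2) * (4 * J / 3) := by
          apply mul_le_mul_of_nonneg_left _ (by positivity)
          linarith
        linarith
      linarith
    refine ⟨by exact_mod_cast e3, e2, ?_, ?_⟩
    · calc L ^ J = 4 * (1 / 4 * L ^ J) := by ring
        _ ≤ 4 * ((1 - 3 / (4 * J)) ^ J * L ^ J) := by gcongr
        _ = 4 * ((1 - 3 / (4 * J)) * L) ^ J := by rw [mul_pow]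
        _ ≤ 4 * Real.log (N1:ℝ) ^ J := by gcongr
    · intro t ht
      have hL1' : 0 < Real.log (N1:ℝ) := by linarith
      refine (hTC t ht).trans ?_
      calc L ^ C ≤ L ^ |C| := Real.rpow_le_rpow_of_exponent_le hL1 (le_abs_self C)
        _ ≤ (2 * Real.log (N1:ℝ)) ^ |C| := Real.rpow_le_rpow hL0.le (by linarith) (abs_nonneg C)
        _ = (2:ℝ) ^ |C| * Real.log (N1:ℝ) ^ |C| := Real.mul_rpow (by norm_num) hL1'.le
        _ ≤ Real.log (N1:ℝ) * Real.log (N1:ℝ) ^ |C| := by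
            apply mul_le_mul_of_nonneg_right _ (Real.rpow_nonneg hL1'.le _)
            linarith
        _ = Real.log (N1:ℝ) ^ (|C| + 1) := by
            rw [Real.rpow_add hL1', Real.rpow_one]
            ring
  -- size of `Q`
  obtain ⟨_, _, hQ1, hQup⟩ := h1' T hT hTC hCT
  have hQup' : Q ≤ 2 * L ^ (J + 2) := hQup
  have hQ1' : 1 ≤ Q := hQ1
  -- the tail
  have hBN : ∀ n ∈ B, 1 ≤ n ∧ n ≤ N := fun n hn => mem_Icc.1 (mem_filter.1 hn).1
  have hsqrt : Real.sqrt N ≤ κ0 / 8 * Y := by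
    have q1 : L ^ (J + 2) ≤ κ0 / 16 * Real.sqrt N := by
      have q2 : (L ^ (J + 2)) ^ 2 ≤ (κ0 / 16 * Real.sqrt N) ^ 2 := by
        rw [mul_pow, Real.sq_sqrt hN0.le, ← pow_mul, mul_comm (J + 2) 2]
        exact h4
      exact le_of_sq_le_sq q2 (by positivity)
    have q3 : Real.sqrt N * Q ≤ κ0 / 8 * N := by
      calc Real.sqrt N * Q ≤ Real.sqrt N * (2 * (κ0 / 16 * Real.sqrt N)) := by
            apply mul_le_mul_of_nonneg_left _ (Real.sqrt_nonneg _)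
            linarith
        _ = κ0 / 8 * (Real.sqrt N * Real.sqrt N) := by ring
        _ = κ0 / 8 * N := by rw [Real.mul_self_sqrt hN0.le]
    rw [hYQ, ← mul_div_assoc, le_div_iff₀ hQ0]
    exact q3
  have htl : ((B.filter (fun n => n ≤ N / 2 ^ j0)).card : ℝ) ≤ κ0 / 4 * Y + Real.sqrt N := by
    have q1 := h1 T hT hTC hCT (N / 2 ^ j0) (Nat.div_le_self _ _)
    have q2 : ((B.filter (fun n => n ≤ N / 2 ^ j0)).card : ℝ) ≤
        (((Icc 1 (N / 2 ^ j0)).filter (fun n => ∀ t ∈ T, (n + t).Prime)).card : ℝ) := by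
      rw [Nat.cast_le]
      apply card_le_card
      intro n hn
      rw [hB, mem_filter, mem_filter, mem_Icc] at hn
      exact mem_filter.2 ⟨mem_Icc.2 ⟨hn.1.1.1, hn.2⟩, hn.1.2.2⟩
    refine q2.trans (q1.trans ?_)
    have q3 : ((N / 2 ^ j0 : ℕ) : ℝ) ≤ N / 2 ^ j0 := by
      have := Nat.cast_div_le (α := ℝ) (m := N) (n := 2 ^ j0)
      push_cast at this
      exact this
    have q4 : Ct * (Uni.CT T * (((N / 2 ^ j0 : ℕ) : ℝ) / L ^ J)) ≤ κ0 / 4 * Y := by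
      calc Ct * (Uni.CT T * (((N / 2 ^ j0 : ℕ) : ℝ) / L ^ J)) ≤ Ct * (Uni.CT T * ((N / 2 ^ j0) / L ^ J)) := by gcongr
        _ = Ct / 2 ^ j0 * Y := by rw [hY]; field_simp
        _ ≤ κ0 / 4 * Y := by gcongr
    linarith
  obtain ⟨j, hj, hjc⟩ := some_window B N Y κ' j0 hBN (by
    have q1 : (j0:ℝ) * (κ' * Y) ≤ κ0 / 2 * Y := by
      rw [hκ']
      have : (j0:ℝ) * (κ0 / (2 * (j0 + 1)) * Y) = (j0 / (j0 + 1)) * (κ0 / 2 * Y) := by field_simp
      rw [this]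
      have q2 : (j0:ℝ) / (j0 + 1) ≤ 1 := by rw [div_le_one (by positivity)]; linarith
      calc (j0:ℝ) / (j0 + 1) * (κ0 / 2 * Y) ≤ 1 * (κ0 / 2 * Y) := by gcongr
        _ = _ := one_mul _
    have q3 : κ0 * Y ≤ (B.card : ℝ) := hP
    have q4 : 0 < κ0 * Y := by positivity
    linarith)
  obtain ⟨f1, f2, f3, f4⟩ := hfact j hj
  set V := N / 2 ^ (j + 1) with hV
  set N1 := 40 * V / 11 with hN1d
  have hVr : (100:ℝ) ≤ V := by linarith
  have hV100 : 100 ≤ V := by exact_mod_cast hVr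
  set B' := B.filter (fun n => V < n ∧ n ≤ N / 2 ^ j) with hB'
  have hB'w : ∀ n ∈ B', V < n ∧ n ≤ 2 * V + 2 ∧ ∀ t ∈ T, (n + t).Prime := by
    intro n hn
    rw [hB', mem_filter, hB, mem_filter] at hn
    refine ⟨hn.2.1, ?_, hn.1.2.2⟩
    have e1 : V = N / 2 ^ j / 2 := by rw [hV, pow_succ, Nat.div_div_eq_div_mul]
    omega
  obtain ⟨_, w2, _, _⟩ := hV0 V f1 T hT f4 hCT B' hB'w
  set H0 := ⌈Q⌉₊ with hH0
  have hH01 : Q ≤ H0 := Nat.le_ceil _
  have hH02 : (H0:ℝ) ≤ 2 * Q := by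
    have := Nat.ceil_lt_add_one hQ0.le
    linarith
  have hH0pos : 1 ≤ H0 := by
    have : (1:ℝ) ≤ H0 := hQ1'.trans hH01
    exact_mod_cast this
  have hH0' : (0:ℝ) < H0 := by exact_mod_cast hH0pos
  set L1 := Real.log (N1:ℝ) with hL1d
  have hN1100 : 100 ≤ N1 := by omega
  have hL1pos : 0 < L1 := Real.log_pos (by exact_mod_cast (by omega : 1 < N1))
  have hL1J : 0 < L1 ^ J := by positivity
  have hen := w2 H0 (by
    calc (H0:ℝ) ≤ 2 * Q := hH02
      _ = 2 * (L ^ J / Uni.CT T) := rfl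
      _ ≤ 2 * ((4 * L1 ^ J) / Uni.CT T) := by gcongr
      _ = 8 * (L1 ^ J / Uni.CT T) := by ring)
  set A : ℕ → Prop := fun n => ∀ a ∈ T, Rg (1 / 10) ((N1:ℝ) / 4) (n + a) with hA
  set r : ℕ → ℝ := fun n => (((Icc 1 H0).filter (fun d => A (n + d))).card : ℝ) with hr
  have hr0 : ∀ n, 0 ≤ r n := fun n => Nat.cast_nonneg _
  have hsum : ∑ n ∈ B', r n ≤ 4 * Cu * Y := by
    have q1 : ∑ n ∈ B', r n ≤ Cu * (Uni.CT T * (V / L1 ^ J)) := by
      refine le_trans (le_of_eq ?_) hen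
      apply sum_congr rfl
      intro n _
      simp only [hr, hA]
    have q2 : (V:ℝ) ≤ N := by
      have : V ≤ N := Nat.div_le_self _ _
      exact_mod_cast this
    have q3 : (V:ℝ) / L1 ^ J ≤ 4 * (N / L ^ J) := by
      rw [div_le_iff₀ hL1J]
      have q4 : 4 * ((N:ℝ) / L ^ J) * L1 ^ J = N * ((4 * L1 ^ J) / L ^ J) := by field_simp
      rw [q4]
      have q5 : 1 ≤ (4 * L1 ^ J) / L ^ J := by rw [le_div_iff₀ hLJ, one_mul]; exact f3
      calc (V:ℝ) ≤ N * 1 := by linarith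
        _ ≤ _ := mul_le_mul_of_nonneg_left q5 hN0.le
    calc ∑ n ∈ B', r n ≤ Cu * (Uni.CT T * (V / L1 ^ J)) := q1
      _ ≤ Cu * (Uni.CT T * (4 * (N / L ^ J))) := by gcongr
      _ = _ := by rw [hY]; ring
  set G := B'.filter (fun n => r n ≤ R) with hG
  have hGcard : κ' / 2 * Y ≤ (G.card : ℝ) := by
    have k1 : (B'.card : ℝ) = (G.card : ℝ) + ((B'.filter (fun n => ¬ r n ≤ R)).card : ℝ) := by
      rw [hG, ← Nat.cast_add, card_filter_add_card_filter_not]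
    have k2 : R * ((B'.filter (fun n => ¬ r n ≤ R)).card : ℝ) ≤ ∑ n ∈ B', r n := by
      calc R * ((B'.filter (fun n => ¬ r n ≤ R)).card : ℝ) = ∑ _n ∈ B'.filter (fun n => ¬ r n ≤ R), R := by
            rw [sum_const, nsmul_eq_mul, mul_comm]
        _ ≤ ∑ n ∈ B'.filter (fun n => ¬ r n ≤ R), r n :=
            sum_le_sum fun n hn => (not_le.1 (mem_filter.1 hn).2).le
        _ ≤ ∑ n ∈ B', r n := sum_le_sum_of_subset_of_nonneg (filter_subset _ _) fun n _ _ => hr0 n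
    have k3 : ((B'.filter (fun n => ¬ r n ≤ R)).card : ℝ) ≤ κ' / 2 * Y := by
      have k4 : R * ((B'.filter (fun n => ¬ r n ≤ R)).card : ℝ) ≤ R * (κ' / 2 * Y) := by
        refine (k2.trans hsum).trans (le_of_eq ?_)
        rw [hR]
        field_simp
        ring
      exact le_of_mul_le_mul_left k4 hR0
    have k5 : κ' * Y ≤ (B'.card : ℝ) := hjc
    linarith
  have hGc : κ' / 2 * ((N : ℝ) / H0) ≤ G.card := by
    refine le_trans ?_ hGcard
    rw [hYQ]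
    gcongr
  have hsp : ∀ b, ((G.filter (fun n => n ∈ Ioc b (b + H0))).card : ℝ) ≤ R + 1 := by
    intro b
    apply sparse_card A G H0 R hR0.le
    · intro n hn
      have hn' := (mem_filter.1 hn).1
      obtain ⟨b1, b2, b3⟩ := hB'w n hn'
      exact prime_rough hV100 b1 b3
    · intro n hn
      exact (mem_filter.1 hn).2
  have hH0V : H0 ≤ V := by
    have q1 : (H0:ℝ) ≤ V := by
      have q2 : (N:ℝ) / 2 ^ (j0 + 4) = (N:ℝ) / 2 ^ (j0 + 2) / 4 := by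
        rw [show j0 + 4 = (j0 + 2) + 2 by ring, pow_add (2:ℝ) (j0 + 2) 2]
        field_simp
        norm_num
      have q3 : L ^ (J + 2) ≤ (N:ℝ) / 2 ^ (j0 + 4) := by
        calc L ^ (J + 2) ≤ 1 / 2 ^ (j0 + 4) * N := h3
          _ = _ := by ring
      rw [q2] at q3
      linarith
    exact_mod_cast q1
  have hts := to_scales P G N H0 0 (by
      have : 1 < N := by exact_mod_cast hN1
      omega) (by
    intro n hn
    have hn' := (mem_filter.1 hn).1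
    have hn'' := (mem_filter.1 hn').1
    obtain ⟨b1, b2, b3⟩ := hB'w n hn'
    refine ⟨by omega, by have := (hBN n hn'').2; omega, ?_⟩
    rw [add_zero]
    exact (mem_filter.1 hn'').2.1) hH0pos (R + 1) (κ' / 2) Q (by positivity) (by positivity) hsp hGc hQ0 hH02
  exact al_of _ (by positivity) (by rw [hQ, one_div_div]) hH0 hts

end Pool.Agent.U28.PG
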